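import Pool.Agent.H71.HOPK.Pl

/-!
# All jets of a nonfull path

`all_jets`: a family of polynomial paths on the lines whose values at the time of the sample are
known and whose rows are not full given the context: all jets are few bits, without the record of
any of them. The jets of order `1` and `2` are natural at the beginning; short windows.
-/

set_option autoImplicit false

namespace Pool.AJ18

open Finset Real MvPolynomial
open Pool.Agent.H49.Ent Pool.Agent.H32.Dense Pool.STK Pool.KA Pool.KSAT Pool.K2S Pool.PB Pool.GEN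
open Pool.S6C Pool.LA91 Pool.OWN68

variable {m J : ℕ}

/-- The family of paths on shorter windows, in coarser units. -/
noncomputable def rcp (F : Fam m J) (R : LnT F → Polynomial ℝ) (y : ℕ) (lam : ℝ) (x : LnT F) :
    Polynomial ℝ :=
  Polynomial.C lam * (R (x.1, x.2.1, x.2.2 / 2 ^ y)).comp
    (Polynomial.C (1 / 2 ^ y) * Polynomial.X +
      Polynomial.C ((2 * ((x.2.2 % 2 ^ y : ℕ) : ℝ) + 1) / 2 ^ y - 1))

/-- The label of the long window. -/
def lng (F : Fam m J) (y : ℕ) (x : LnT F) : LnT F := (x.1, x.2.1, x.2.2 / 2 ^ y)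

theorem lng_slam (F : Fam m J) {w y : ℕ} (h : w + y ≤ J) (ω : F.Ω) :
    lng F y (slam F (w + y) ω) = slam F w ω := by
  have h1 := T1_div F h ω
  unfold lng slam
  simp only
  rw [h1]

theorem natDegree_rcp (F : Fam m J) {R : LnT F → Polynomial ℝ} {D : ℕ}
    (hR : ∀ x, (R x).natDegree ≤ D) (y : ℕ) (lam : ℝ) (x : LnT F) :
    (rcp F R y lam x).natDegree ≤ D := by
  unfold rcp
  refine (Polynomial.natDegree_C_mul_le _ _).trans (Polynomial.natDegree_comp_le.trans ?_)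
  have h1 : (Polynomial.C (1 / 2 ^ y) * Polynomial.X +
      Polynomial.C ((2 * ((x.2.2 % 2 ^ y : ℕ) : ℝ) + 1) / 2 ^ y - 1) : Polynomial ℝ).natDegree ≤ 1 :=
    Polynomial.natDegree_linear_le
  calc _ ≤ D * 1 := Nat.mul_le_mul (hR _) h1
    _ = D := mul_one D

/-- The parameters of the two windows. -/
theorem uw_add (F : Fam m J) {w y : ℕ} (h : w + y ≤ J) (ω : F.Ω) :
    uw F w ω = 1 / 2 ^ y * uw F (w + y) ω +
      ((2 * ((F.T1 (w + y) ω % 2 ^ y : ℕ) : ℝ) + 1) / 2 ^ y - 1) := by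
  have e0 : J - w = y + (J - (w + y)) := by omega
  have h1 : F.T ω % 2 ^ (J - w) = 2 ^ (J - (w + y)) * (F.T1 (w + y) ω % 2 ^ y) +
      F.T ω % 2 ^ (J - (w + y)) := by
    unfold Fam.T1
    rw [e0, pow_add, mul_comm (2 ^ y) (2 ^ (J - (w + y)))]
    rw [Nat.mod_mul]
    ring
  unfold uw tw
  rw [h1, e0, pow_add]
  generalize F.T1 (w + y) ω % 2 ^ y = r
  generalize F.T ω % 2 ^ (J - (w + y)) = s
  push_cast
  have p1 : (0 : ℝ) < 2 ^ y := by positivity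
  have p2 : (0 : ℝ) < 2 ^ (J - (w + y)) := by positivity
  field_simp
  ring

theorem der_aff (P : Polynomial ℝ) (a b : ℝ) (j : ℕ) :
    Polynomial.derivative^[j] (P.comp (Polynomial.C a * Polynomial.X + Polynomial.C b)) =
      Polynomial.C (a ^ j) * (Polynomial.derivative^[j] P).comp
        (Polynomial.C a * Polynomial.X + Polynomial.C b) := by
  induction j with
  | zero => simp
  | succ j ih =>
    rw [Function.iterate_succ_apply', ih, Polynomial.derivative_C_mul,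
      Polynomial.derivative_comp, Function.iterate_succ_apply', pow_succ, Polynomial.C_mul]
    simp only [Polynomial.derivative_add, Polynomial.derivative_C_mul, Polynomial.derivative_X,
      Polynomial.derivative_C, add_zero, mul_one]
    ring

/-- **The jets on the short window.** -/
theorem rcp_jet (F : Fam m J) (R : LnT F → Polynomial ℝ) {w y : ℕ} (h : w + y ≤ J) (lam : ℝ)
    (j : ℕ) (ω : F.Ω) :
    pj F (rcp F R y lam) (w + y) j ω = lam * (1 / 2 ^ y) ^ j * pj F R w j ω := by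
  have e1 : R ((slam F (w + y) ω).1, (slam F (w + y) ω).2.1, (slam F (w + y) ω).2.2 / 2 ^ y) =
      R (slam F w ω) := by
    have := lng_slam F h ω
    unfold lng at this
    rw [this]
  have e2 : (slam F (w + y) ω).2.2 = F.T1 (w + y) ω := rfl
  unfold pj rcp
  rw [Polynomial.iterate_derivative_C_mul, Polynomial.eval_mul, Polynomial.eval_C, der_aff,
    Polynomial.eval_mul, Polynomial.eval_C, Polynomial.eval_comp, e1, e2]
  simp only [Polynomial.eval_add, Polynomial.eval_mul, Polynomial.eval_C, Polynomial.eval_X]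
  rw [← uw_add F h ω]
  ring

/-- Change of units. -/
theorem conv {Ω Γ : Type} [Fintype Ω] {q : Ω → ℝ} (hq : IsLaw q) (f g : Ω → ℝ) (Y : Ω → Γ)
    {μ lam : ℝ} {B : ℕ} (hμ : 0 < μ) (hB : lam * μ ≤ B) (hl : 0 ≤ lam)
    (hg : ∀ ω ω', 0 < q ω → 0 < q ω' → Y ω = Y ω' → |g ω - g ω'| ≤ lam * |f ω - f ω'|) :
    CH q (fun ω => ⌊g ω⌋) Y ≤ CH q (fun ω => ⌊f ω / μ⌋) Y + Real.log (2 * (B + 1) + 1) := by
  have h0 := hq.nonneg
  have h1 := CH_le_add h0 (fun ω => ⌊g ω⌋) (fun ω => ⌊f ω / μ⌋) Y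
  have h2 : CH q (fun ω => ⌊g ω⌋) (fun ω => (⌊f ω / μ⌋, Y ω)) ≤
      Real.log (2 * ((B + 1 : ℕ) : ℝ) + 1) := by
    refine CH_pair hq _ _ fun ω ω' hω hω' e => ?_
    simp only [Prod.mk.injEq] at e
    have h3 := of_floor_div hμ e.1
    exact floor_sub_le (((hg ω ω' hω hω' e.2).trans
      (mul_le_mul_of_nonneg_left h3 hl)).trans hB)
  push_cast at h2
  linarith

/-- **The rows of a path are not full** given the context, on all large events, at all levels. -/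
def NFr (F : Fam m J) (A : F.Ω → Prop) (R : LnT F → Polynomial ℝ) {𝒞 : Type} (c : LnT F → 𝒞)
    (w : ℕ) (μ h e c₀ : ℝ) : Prop :=
  ∀ B : F.Ω → Prop, Sub B A → c₀ * Pe F.p A ≤ Pe F.p B → ∀ a b : ℝ, 0 ≤ a → a ≤ b → b ≤ μ →
    CH (Pool.Agent.H49.Ent.cond F.p B True) (fun ω => ⌊pj F R w 0 ω / 2 ^ (a * J)⌋)
      (fun ω => (⌊pj F R w 0 ω / 2 ^ (b * J)⌋, (c (slam F w ω), F.W ω))) ≤
      ((1 - h) * (b - a) * Real.log 2 + e) * J

theorem NFr.mono {F : Fam m J} {A : F.Ω → Prop} {R : LnT F → Polynomial ℝ} {𝒞 : Type}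
    {c : LnT F → 𝒞} {w : ℕ} {μ h e e' c₀ c₁ : ℝ} (H : NFr F A R c w μ h e c₀) (he : e ≤ e')
    (hc : c₀ ≤ c₁) : NFr F A R c w μ h e' c₁ := by
  intro B hB hm a b ha hab hb
  refine (H B hB ?_ a b ha hab hb).trans ?_
  · exact (mul_le_mul_of_nonneg_right hc (Pe_nonneg F.isLaw A)).trans hm
  · refine mul_le_mul_of_nonneg_right ?_ (Nat.cast_nonneg _)
    linarith

/-- **One step**: the jets `j` known to `2 ^ (e j)`; window shorter by `y`, unit `2 ^ s`, block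
`q`. -/
theorem aj_step (D : ℕ) {k : ℕ} (hk : 1 ≤ k) (hkD : k ≤ D) {h : ℝ} (hh : 0 < h) (hh1 : h ≤ 1)
    {ε : ℝ} (hε : 0 < ε) : ∃ δ : ℝ, 0 < δ ∧ ∃ c₀ : ℝ, 0 < c₀ ∧
    ∀ {w μ y s q : ℝ} (_ : 0 ≤ w) (_ : 0 ≤ y) (_ : 0 ≤ s) (_ : 0 < q) (_ : w + y + q ≤ 1)
      (_ : s + q ≤ μ),
    ∃ J₀ : ℕ, ∀ J ≥ J₀, ∀ {m : ℕ} (F : Fam m J) (A : F.Ω → Prop) (_ : 0 < Pe F.p A)
      (R : LnT F → Polynomial ℝ) {𝒞 Γ : Type} (c : LnT F → 𝒞) (Y : F.Ω → Γ) (e : ℕ → ℝ),
    (∀ x, (R x).natDegree ≤ D) →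
    (J : ℝ) * Real.log 2 - δ * q * J ≤
      CH (Pool.Agent.H49.Ent.cond F.p A True) F.T (fun ω => (F.l ω, F.Z ω)) →
    (∀ ω ω', A ω → A ω' → Y ω = Y ω' → F.T ω = F.T ω' ∧ F.Z ω = F.Z ω') →
    CH (Pool.Agent.H49.Ent.cond F.p A True) (fun ω => c (slam F ⌊w * J⌋₊ ω)) Y ≤ δ * q * J →
    (∀ j ≤ D, j ≠ k → e j ≤ s + j * y) → e k ≤ s + k * y + q →
    (∀ j ≤ D, CH (Pool.Agent.H49.Ent.cond F.p A True)
      (fun ω => ⌊pj F R ⌊w * J⌋₊ j ω / 2 ^ (e j * J)⌋) Y ≤ δ * q * J) →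
    NFr F A R c ⌊w * J⌋₊ μ h (δ * q) c₀ →
    ∀ j ≤ D, CH (Pool.Agent.H49.Ent.cond F.p A True)
      (fun ω => ⌊pj F R ⌊w * J⌋₊ j ω / 2 ^ ((s + j * y) * J)⌋) Y ≤ ε * q * J := by
  classical
  obtain ⟨δ₁, hδ₁, c₀, hc₀, N₀, hN₀, Hp⟩ := HOPK.path_law hk hh hh1 (half_pos hε)
  have hD1 : (0 : ℝ) < D + 1 := by positivity
  obtain ⟨δ, hδ⟩ : ∃ δ : ℝ, δ = δ₁ / (2 * (D + 1)) := ⟨_, rfl⟩
  have hδ0 : 0 < δ := by
    rw [hδ]
    positivity
  have hδa : 2 * (D + 1) * δ = δ₁ := by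
    rw [hδ]
    field_simp
  have hD0 : (0 : ℝ) ≤ D := Nat.cast_nonneg D
  have hδb : δ ≤ δ₁ := by nlinarith
  refine ⟨δ, hδ0, c₀, hc₀, ?_⟩
  intro w μ y s q hw hy hs hq hwq hsq
  obtain ⟨J₁, Hp⟩ := Hp D hkD (w := w + y) (q := q) (by positivity) hq hwq
  obtain ⟨C, hC, hder⟩ := der_small D
  -- the constants
  obtain ⟨c₅, hc₅⟩ : ∃ c₅ : ℝ, c₅ = Real.log (2 * (((2 ^ (D + 1) : ℕ) : ℝ) + 1) + 1) := ⟨_, rfl⟩
  obtain ⟨c₆, hc₆⟩ : ∃ c₆ : ℝ, c₆ = Real.log (2 * ((⌈C * 2 ^ D⌉₊ : ℝ) + 1) + 1) := ⟨_, rfl⟩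
  obtain ⟨J₂, hJ₂⟩ := exists_nat_ge (c₅ / (δ * q) + 2 * c₆ / (ε * q) + 1)
  refine ⟨max J₁ J₂, ?_⟩
  intro J hJ m F A hA R 𝒞 Γ c Y e hdeg hT hY hc he hek hjet hnf
  have hJ1 : J₁ ≤ J := (le_max_left _ _).trans hJ
  have hJ2 : (J₂ : ℝ) ≤ J := by exact_mod_cast (le_max_right _ _).trans hJ
  have hJ0 : (0 : ℝ) ≤ J := Nat.cast_nonneg J
  have hc5 : 0 ≤ c₅ := by
    rw [hc₅]
    exact Real.log_nonneg (by
      have : (0 : ℝ) ≤ ((2 ^ (D + 1) : ℕ) : ℝ) := Nat.cast_nonneg _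
      linarith)
  have hc6 : 0 ≤ c₆ := by
    rw [hc₆]
    exact Real.log_nonneg (by
      have : (0 : ℝ) ≤ (⌈C * 2 ^ D⌉₊ : ℝ) := Nat.cast_nonneg _
      linarith)
  have k5 : c₅ ≤ δ * q * J := by
    have h1 : c₅ / (δ * q) ≤ J := by
      have : 0 ≤ 2 * c₆ / (ε * q) := by positivity
      linarith
    rw [div_le_iff₀ (by positivity)] at h1
    linarith
  have k6 : c₆ ≤ ε / 2 * q * J := by
    have h1 : 2 * c₆ / (ε * q) ≤ J := by
      have : 0 ≤ c₅ / (δ * q) := by positivity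
      linarith
    rw [div_le_iff₀ (by positivity)] at h1
    linarith
  -- the windows
  have hw1 : ((⌊w * J⌋₊ : ℕ) : ℝ) ≤ w * J := Nat.floor_le (by positivity)
  have hw2 : w * J < (⌊w * J⌋₊ : ℕ) + 1 := Nat.lt_floor_add_one _
  have hw3 : ((⌊(w + y) * J⌋₊ : ℕ) : ℝ) ≤ (w + y) * J := Nat.floor_le (by positivity)
  have hw4 : (w + y) * J < (⌊(w + y) * J⌋₊ : ℕ) + 1 := Nat.lt_floor_add_one _
  have hle : ⌊w * J⌋₊ ≤ ⌊(w + y) * J⌋₊ := Nat.floor_le_floor (by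
    have : 0 ≤ y * J := by positivity
    nlinarith)
  obtain ⟨W, hW⟩ : ∃ W : ℕ, W = ⌊w * J⌋₊ := ⟨_, rfl⟩
  obtain ⟨y', hy'⟩ : ∃ y' : ℕ, ⌊(w + y) * J⌋₊ = W + y' :=
    ⟨⌊(w + y) * J⌋₊ - W, by omega⟩
  have hWJ : W + y' ≤ J := by
    have h1 : ((W + y' : ℕ) : ℝ) ≤ J := by
      rw [← hy']
      have : (w + y) * J ≤ 1 * J := mul_le_mul_of_nonneg_right (by linarith) hJ0
      linarith
    exact_mod_cast h1
  rw [hy'] at hw3 hw4
  rw [← hW] at hw1 hw2
  push_cast at hw3 hw4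
  have y1 : y * J ≤ y' + 1 := by nlinarith
  have y2 : (y' : ℝ) ≤ y * J + 1 := by nlinarith
  rw [← hW] at hc hjet hnf ⊢
  specialize Hp J hJ1 F A hA
  rw [hy'] at Hp
  obtain ⟨lam, hlam⟩ : ∃ lam : ℝ, lam = 2 ^ (-(s * J)) := ⟨_, rfl⟩
  have hlam0 : 0 < lam := by
    rw [hlam]
    exact Real.rpow_pos_of_pos (by norm_num) _
  have hjr : ∀ j ω, pj F (rcp F R y' lam) (W + y') j ω = lam * (1 / 2 ^ y') ^ j * pj F R W j ω :=
    fun j ω => rcp_jet F R hWJ lam j ω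
  have hcl : ∀ ω, c (lng F y' (slam F (W + y') ω)) = c (slam F W ω) := fun ω => by
    rw [lng_slam F hWJ]
  obtain ⟨q', hq'⟩ : ∃ q' : F.Ω → ℝ, q' = Pool.Agent.H49.Ent.cond F.p A True := ⟨_, rfl⟩
  have hq'l : IsLaw q' := by
    rw [hq']
    exact isLaw_cond F.isLaw hA
  have h0 := hq'l.nonneg
  have hq'A : ∀ ω, 0 < q' ω → A ω := fun ω hω => by
    rw [hq'] at hω
    exact of_cond_pos hω
  have hfac : ∀ (j : ℕ), (1 / (2 : ℝ) ^ y') ^ j = 2 ^ (-((j : ℝ) * y')) := by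
    intro j
    rw [one_div, inv_pow, ← pow_mul, Real.rpow_neg (by norm_num), ← Nat.cast_mul,
      Real.rpow_natCast, mul_comm]
  have hpj : ∀ j : ℕ, (j : ℝ) * (y * J) - j ≤ j * y' := by
    intro j
    have hj0 : (0 : ℝ) ≤ j := Nat.cast_nonneg j
    nlinarith
  have hpj2 : ∀ j : ℕ, j * (y' : ℝ) ≤ (j : ℝ) * (y * J) + j := by
    intro j
    have hj0 : (0 : ℝ) ≤ j := Nat.cast_nonneg j
    nlinarith
  have key := Hp (rcp F R y' lam) (fun x => c (lng F y' x)) Y (fun _ => 2 * δ * q)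
    (natDegree_rcp F hdeg y' lam) (hT.trans' (by
      have : δ * q * J ≤ δ₁ * q * J := by gcongr
      linarith)) hY (by
      simp only [hcl]
      refine hc.trans ?_
      gcongr) (by
      rw [Finset.sum_const, Finset.card_range, nsmul_eq_mul, ← hδa]
      push_cast
      linarith) ?_ ?_ ?_
  · -- from the coefficients to the jets
    intro j hj
    rw [← hq'] at key ⊢
    obtain ⟨co, hco⟩ : ∃ co : F.Ω → 𝒞 × (Fin (D + 1) → ℤ), co = fun ω =>
      (c (lng F y' (slam F (W + y') ω)), fun j : Fin (D + 1) =>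
        ⌊(rcp F R y' lam (slam F (W + y') ω)).coeff j⌋) := ⟨_, rfl⟩
    rw [← hco] at key
    have s1 := CH_le_add h0 (fun ω => ⌊pj F R W j ω / 2 ^ ((s + j * y) * J)⌋) co Y
    have s2 : CH q' (fun ω => ⌊pj F R W j ω / 2 ^ ((s + j * y) * J)⌋) (fun ω => (co ω, Y ω)) ≤
        Real.log (2 * ((⌈C * 2 ^ D⌉₊ + 1 : ℕ) : ℝ) + 1) := by
      refine CH_pair hq'l _ _ fun ω ω' hω hω' e0 => ?_
      simp only [Prod.mk.injEq] at e0
      obtain ⟨e1, e2⟩ := e0
      have hTT := (hY ω ω' (hq'A ω hω) (hq'A ω' hω') e2).1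
      have hu : uw F (W + y') ω' = uw F (W + y') ω := by
        unfold uw tw
        rw [hTT]
      have hE : ((rcp F R y' lam (slam F (W + y') ω)) -
          (rcp F R y' lam (slam F (W + y') ω'))).natDegree ≤ D :=
        (Polynomial.natDegree_sub_le _ _).trans (max_le (natDegree_rcp F hdeg _ _ _)
          (natDegree_rcp F hdeg _ _ _))
      have h2 := hder _ j (uw F (W + y') ω) 1 hE (uw_abs _ _ _) (by
        intro i _
        rw [Polynomial.coeff_sub]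
        by_cases hi : i ≤ D
        · have e3 : ⌊(rcp F R y' lam (slam F (W + y') ω)).coeff i⌋ =
              ⌊(rcp F R y' lam (slam F (W + y') ω')).coeff i⌋ := by
            rw [hco] at e1
            exact congrFun (Prod.ext_iff.mp e1).2 (⟨i, by omega⟩ : Fin (D + 1))
          exact of_floor_div (m := 1) one_pos (by simp only [div_one]; exact e3)
        · rw [Polynomial.coeff_eq_zero_of_natDegree_lt (lt_of_le_of_lt
              (natDegree_rcp F hdeg _ _ _) (by omega)),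
            Polynomial.coeff_eq_zero_of_natDegree_lt (lt_of_le_of_lt
              (natDegree_rcp F hdeg _ _ _) (by omega)), sub_zero, abs_zero]
          exact zero_le_one)
      have h3 : |pj F (rcp F R y' lam) (W + y') j ω - pj F (rcp F R y' lam) (W + y') j ω'| ≤
          C * 1 := by
        have e4 : (Polynomial.derivative^[j] (rcp F R y' lam (slam F (W + y') ω) -
            rcp F R y' lam (slam F (W + y') ω'))).eval (uw F (W + y') ω) =
            pj F (rcp F R y' lam) (W + y') j ω - pj F (rcp F R y' lam) (W + y') j ω' := by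
          rw [Polynomial.iterate_derivative_sub, Polynomial.eval_sub]
          unfold pj
          rw [hu]
        rw [← e4]
        exact h2
      rw [hjr, hjr, ← mul_sub, abs_mul, abs_of_pos (by positivity), mul_one] at h3
      refine floor_sub_le ?_
      rw [← sub_div, abs_div, abs_of_pos (Real.rpow_pos_of_pos (by norm_num) _)]
      have h4 : (2 : ℝ) ^ (-((s + j * y) * J)) ≤ lam * (1 / 2 ^ y') ^ j * 2 ^ D := by
        rw [hlam, hfac, ← Real.rpow_add (by norm_num), ← Real.rpow_natCast 2 D,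
          ← Real.rpow_add (by norm_num)]
        refine Real.rpow_le_rpow_of_exponent_le (by norm_num) ?_
        have h5 := hpj2 j
        have h6 : (j : ℝ) ≤ D := by exact_mod_cast hj
        linarith
      rw [div_eq_mul_inv, ← Real.rpow_neg (by norm_num)]
      calc |pj F R W j ω - pj F R W j ω'| * 2 ^ (-((s + j * y) * J))
          ≤ |pj F R W j ω - pj F R W j ω'| * (lam * (1 / 2 ^ y') ^ j * 2 ^ D) :=
            mul_le_mul_of_nonneg_left h4 (abs_nonneg _)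
        _ = (lam * (1 / 2 ^ y') ^ j * |pj F R W j ω - pj F R W j ω'|) * 2 ^ D := by ring
        _ ≤ C * 2 ^ D := mul_le_mul_of_nonneg_right h3 (by positivity)
        _ ≤ (⌈C * 2 ^ D⌉₊ : ℝ) := Nat.le_ceil _
    push_cast at s2
    rw [← hc₆] at s2
    linarith
  · -- the jets of order different from `k`
    intro j hj hjk
    rw [← hq'] at hjet ⊢
    have e1 := conv hq'l (fun ω => pj F R W j ω) (fun ω => pj F (rcp F R y' lam) (W + y') j ω) Y
      (μ := 2 ^ (e j * J)) (lam := lam * (1 / 2 ^ y') ^ j) (B := 2 ^ (D + 1))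
      (Real.rpow_pos_of_pos (by norm_num) _) (by
        rw [hlam, hfac, ← Real.rpow_add (by norm_num), ← Real.rpow_add (by norm_num)]
        push_cast
        rw [← Real.rpow_natCast 2 (D + 1)]
        refine Real.rpow_le_rpow_of_exponent_le (by norm_num) ?_
        have h5 := hpj j
        have h6 : (j : ℝ) ≤ D := by exact_mod_cast hj
        have h7 := mul_le_mul_of_nonneg_right (he j hj hjk) hJ0
        push_cast
        linarith) (by positivity) (fun ω ω' _ _ _ => by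
        rw [hjr, hjr, ← mul_sub, abs_mul, abs_of_pos (by positivity)])
    rw [← hc₅] at e1
    have := hjet j hj
    linarith
  · -- the jet `k`
    rw [← hq'] at hjet ⊢
    obtain ⟨Q, hQ⟩ : ∃ Q : ℕ, Q = ⌊q * J⌋₊ := ⟨_, rfl⟩
    have hQ2 : q * J < Q + 1 := by
      rw [hQ]
      exact Nat.lt_floor_add_one _
    rw [← hQ]
    have e1 := conv hq'l (fun ω => pj F R W k ω)
      (fun ω => pj F (rcp F R y' lam) (W + y') k ω / 2 ^ Q) Y
      (μ := 2 ^ (e k * J)) (lam := lam * (1 / 2 ^ y') ^ k / 2 ^ Q) (B := 2 ^ (D + 1))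
      (Real.rpow_pos_of_pos (by norm_num) _) (by
        rw [hlam, hfac, ← Real.rpow_natCast 2 Q, div_eq_mul_inv,
          ← Real.rpow_neg (by norm_num) (Q : ℝ), ← Real.rpow_add (by norm_num),
          ← Real.rpow_add (by norm_num), ← Real.rpow_add (by norm_num)]
        push_cast
        rw [← Real.rpow_natCast 2 (D + 1)]
        refine Real.rpow_le_rpow_of_exponent_le (by norm_num) ?_
        have h5 := hpj k
        have h6 : (k : ℝ) ≤ D := by exact_mod_cast hkD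
        have h7 := mul_le_mul_of_nonneg_right hek hJ0
        push_cast
        linarith) (by positivity) (fun ω ω' _ _ _ => by
        rw [hjr, hjr, ← sub_div, ← mul_sub, abs_div, abs_mul,
          abs_of_pos (by positivity : (0 : ℝ) < lam * (1 / 2 ^ y') ^ k),
          abs_of_pos (by positivity : (0 : ℝ) < 2 ^ Q)]
        exact le_of_eq (by ring))
    rw [← hc₅] at e1
    have := hjet k hkD
    linarith
  · -- the rows
    intro B hB hm i hi
    have hi0 : (0 : ℝ) ≤ i := Nat.cast_nonneg i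
    have hN0 : (0 : ℝ) < N₀ := by exact_mod_cast hN₀
    have hiN : q * i / N₀ ≤ q := by
      rw [div_le_iff₀ hN0]
      have : (i : ℝ) ≤ N₀ := by exact_mod_cast hi
      nlinarith
    have hi1 : 0 ≤ q * i / N₀ := by positivity
    obtain ⟨x, hx⟩ : ∃ x : ℝ, x = q - q * i / N₀ := ⟨_, rfl⟩
    rw [← hx]
    have h1 := hnf B hB hm s (s + x) hs (by linarith) (by linarith)
    have e1 : ∀ ω, pj F (rcp F R y' lam) (W + y') 0 ω = pj F R W 0 ω / 2 ^ (s * J) := by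
      intro ω
      rw [hjr, pow_zero, mul_one, hlam, Real.rpow_neg (by norm_num)]
      ring
    have e2 : ∀ ω, pj F (rcp F R y' lam) (W + y') 0 ω / 2 ^ (x * J) =
        pj F R W 0 ω / 2 ^ ((s + x) * J) := by
      intro ω
      rw [e1, div_div, ← Real.rpow_add (by norm_num)]
      congr 2
      ring
    have e3 : (fun ω => ⌊pj F (rcp F R y' lam) (W + y') 0 ω⌋) =
        (fun ω => ⌊pj F R W 0 ω / 2 ^ (s * J)⌋) := funext fun ω => by rw [e1]
    have e4 : (fun ω => (⌊pj F (rcp F R y' lam) (W + y') 0 ω / 2 ^ (x * J)⌋,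
        (c (lng F y' (slam F (W + y') ω)), F.W ω))) =
        (fun ω => (⌊pj F R W 0 ω / 2 ^ ((s + x) * J)⌋, (c (slam F W ω), F.W ω))) :=
      funext fun ω => by rw [e2, hcl]
    rw [e3, e4]
    refine h1.trans (mul_le_mul_of_nonneg_right ?_ hJ0)
    have e5 : s + x - s = x := by ring
    rw [e5]
    have : δ * q ≤ δ₁ * q := by gcongr
    linarith

/-- The exponents after `n` rounds and `k` steps. -/
noncomputable def ae (D n k j : ℕ) : ℝ :=
  if j = 0 then 0 else (1 - (1 / 2 : ℝ) ^ D) ^ n * (if j ≤ k then 1 - (1 / 2 : ℝ) ^ j else 1)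

/-- The hypotheses of the law on the jets. -/
structure AjH (F : Fam m J) (A : F.Ω → Prop) (R : LnT F → Polynomial ℝ) {𝒞 Γ : Type}
    (c : LnT F → 𝒞) (Y : F.Ω → Γ) (D w : ℕ) (μ δ : ℝ) : Prop where
  deg : ∀ x, (R x).natDegree ≤ D
  tim : (J : ℝ) * Real.log 2 - δ * μ * J ≤
      CH (Pool.Agent.H49.Ent.cond F.p A True) F.T (fun ω => (F.l ω, F.Z ω))
  key : ∀ ω ω', A ω → A ω' → Y ω = Y ω' → F.T ω = F.T ω' ∧ F.Z ω = F.Z ω'
  ctx : CH (Pool.Agent.H49.Ent.cond F.p A True) (fun ω => c (slam F w ω)) Y ≤ δ * μ * J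
  hgt : CH (Pool.Agent.H49.Ent.cond F.p A True) (fun ω => ⌊pj F R w 0 ω⌋) Y ≤ δ * μ * J
  nat : ∀ j ≤ D, j ≠ 0 → CH (Pool.Agent.H49.Ent.cond F.p A True)
      (fun ω => ⌊pj F R w j ω / 2 ^ (μ * J)⌋) Y ≤ δ * μ * J

theorem AjH.mono {F : Fam m J} {A : F.Ω → Prop} {R : LnT F → Polynomial ℝ} {𝒞 Γ : Type}
    {c : LnT F → 𝒞} {Y : F.Ω → Γ} {D w : ℕ} {μ δ δ' : ℝ} (H : AjH F A R c Y D w μ δ)
    (hμ : 0 ≤ μ) (hδ : δ ≤ δ') : AjH F A R c Y D w μ δ' := by
  have h1 : δ * μ * J ≤ δ' * μ * J :=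
    mul_le_mul_of_nonneg_right (mul_le_mul_of_nonneg_right hδ hμ) (Nat.cast_nonneg _)
  exact ⟨H.deg, le_trans (by linarith) H.tim, H.key, H.ctx.trans h1, H.hgt.trans h1,
    fun j hj h0 => (H.nat j hj h0).trans h1⟩

theorem two_pow_ge (k : ℕ) : ((k : ℝ) + 2) * (1 / 2) ^ (k + 1) ≤ 1 := by
  have h1 : k + 2 ≤ 2 ^ (k + 1) := by
    have := Nat.lt_two_pow_self (n := k + 1)
    omega
  have h2 : ((k : ℝ) + 2) ≤ 2 ^ (k + 1) := by exact_mod_cast h1
  calc ((k : ℝ) + 2) * (1 / 2) ^ (k + 1) ≤ 2 ^ (k + 1) * (1 / 2) ^ (k + 1) :=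
        mul_le_mul_of_nonneg_right h2 (by positivity)
    _ = 1 := by rw [← mul_pow]; norm_num

/-- The inequality of the exponents, small orders. -/
theorem ae_lo {j k : ℕ} (h : j ≤ k) :
    1 - (1 / 2 : ℝ) ^ j ≤ 1 - ((k : ℝ) + 2) * (1 / 2) ^ (k + 1) + j * (1 / 2) ^ (k + 1) := by
  obtain ⟨n, rfl⟩ := Nat.exists_eq_add_of_le h
  have h1 : n + 2 ≤ 2 ^ (n + 1) := by
    have := Nat.lt_two_pow_self (n := n + 1)
    omega
  have h2 : ((n : ℝ) + 2) ≤ 2 ^ (n + 1) := by exact_mod_cast h1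
  have h3 : ((n : ℝ) + 2) * (1 / 2) ^ (j + n + 1) ≤ (1 / 2) ^ j := by
    calc ((n : ℝ) + 2) * (1 / 2) ^ (j + n + 1) ≤ 2 ^ (n + 1) * (1 / 2) ^ (j + n + 1) :=
          mul_le_mul_of_nonneg_right h2 (by positivity)
      _ = (1 / 2) ^ j * (2 ^ (n + 1) * (1 / 2) ^ (n + 1)) := by ring
      _ = (1 / 2) ^ j := by rw [← mul_pow]; norm_num
  push_cast
  linarith

/-- The inequality of the exponents, large orders. -/
theorem ae_hi {j k : ℕ} (h : k + 2 ≤ j) :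
    (1 : ℝ) ≤ 1 - ((k : ℝ) + 2) * (1 / 2) ^ (k + 1) + j * (1 / 2) ^ (k + 1) := by
  have h2 : ((k : ℝ) + 2) ≤ j := by exact_mod_cast h
  have := mul_le_mul_of_nonneg_right h2 (by positivity : (0 : ℝ) ≤ (1 / 2) ^ (k + 1))
  linarith

/-- The statement after `n` rounds and `k` steps. -/
def AjP (D : ℕ) (h : ℝ) (n k : ℕ) : Prop :=
  ∀ ε : ℝ, 0 < ε → ∃ δ : ℝ, 0 < δ ∧ ∃ c₀ : ℝ, 0 < c₀ ∧
    ∀ {w μ : ℝ} (_ : 0 ≤ w) (_ : 0 < μ) (_ : w + μ ≤ 1),
    ∃ J₀ : ℕ, ∀ J ≥ J₀, ∀ {m : ℕ} (F : Fam m J) (A : F.Ω → Prop) (_ : 0 < Pe F.p A)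
      (R : LnT F → Polynomial ℝ) {𝒞 Γ : Type} (c : LnT F → 𝒞) (Y : F.Ω → Γ),
    AjH F A R c Y D ⌊w * J⌋₊ μ δ → NFr F A R c ⌊w * J⌋₊ μ h (δ * μ) c₀ →
    ∀ j ≤ D, CH (Pool.Agent.H49.Ent.cond F.p A True)
      (fun ω => ⌊pj F R ⌊w * J⌋₊ j ω / 2 ^ ((ae D n k j * μ) * J)⌋) Y ≤ ε * μ * J

theorem ajP_zero (D : ℕ) (h : ℝ) : AjP D h 0 0 := by
  intro ε hε
  refine ⟨ε, hε, 1, one_pos, fun {w μ} _ hμ _ => ⟨0, ?_⟩⟩
  intro J _ m F A hA R 𝒞 Γ c Y H _ j hj
  by_cases h0 : j = 0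
  · subst h0
    unfold ae
    simp only [if_true, zero_mul, Real.rpow_zero, div_one]
    exact H.hgt
  · have := H.nat j hj h0
    unfold ae
    rw [if_neg h0, pow_zero, if_neg (by omega), mul_one, one_mul]
    exact this

theorem rho_pos {D : ℕ} (hD : 1 ≤ D) : (0 : ℝ) < 1 - (1 / 2) ^ D := by
  have : (1 / 2 : ℝ) ^ D ≤ (1 / 2) ^ 1 := pow_le_pow_of_le_one (by norm_num) (by norm_num) hD
  linarith

theorem rho_lt (D : ℕ) : (1 : ℝ) - (1 / 2) ^ D < 1 := by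
  have : (0 : ℝ) < (1 / 2) ^ D := by positivity
  linarith

/-- **The step `k + 1`.** -/
theorem ajP_in {D : ℕ} (hD : 1 ≤ D) {h : ℝ} (hh : 0 < h) (hh1 : h ≤ 1) {n k : ℕ}
    (hk : k + 1 ≤ D) (H : AjP D h n k) : AjP D h n (k + 1) := by
  intro ε hε
  have hrp := rho_pos hD
  have hr1 := (rho_lt D).le
  obtain ⟨r, hr⟩ : ∃ r : ℝ, r = (1 - (1 / 2 : ℝ) ^ D) ^ n := ⟨_, rfl⟩
  have hr0 : 0 < r := by
    rw [hr]
    positivity
  have hr2 : r ≤ 1 := by
    rw [hr]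
    exact pow_le_one₀ hrp.le hr1
  obtain ⟨θ, hθ⟩ : ∃ θ : ℝ, θ = (1 / 2 : ℝ) ^ (k + 1) := ⟨_, rfl⟩
  have hθ0 : 0 < θ := by
    rw [hθ]
    positivity
  have hθ1 : θ ≤ 1 / 2 := by
    rw [hθ, pow_succ]
    have : (1 / 2 : ℝ) ^ k ≤ 1 := pow_le_one₀ (by norm_num) (by norm_num)
    linarith
  have hθ2 : ((k : ℝ) + 2) * θ ≤ 1 := by
    rw [hθ]
    exact two_pow_ge k
  obtain ⟨δ₁, hδ₁, c₁, hc₁, Hs⟩ := aj_step D (k := k + 1) (by omega) hk hh hh1 hε
  obtain ⟨δ₂, hδ₂, c₂, hc₂, Hi⟩ := H (min ε (δ₁ * (r * θ))) (lt_min hε (by positivity))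
  refine ⟨min δ₂ (δ₁ * (r * θ)), lt_min hδ₂ (by positivity), min c₁ c₂, lt_min hc₁ hc₂, ?_⟩
  intro w μ hw hμ hwμ
  have hrθ : r * θ ≤ 1 / 2 := by nlinarith
  have hq : 0 < r * θ * μ := by positivity
  obtain ⟨J₁, Hs⟩ := Hs (w := w) (μ := μ) (y := r * θ * μ) (s := (1 - ((k : ℝ) + 2) * θ) * (r * μ))
    (q := r * θ * μ) hw hq.le (mul_nonneg (by linarith) (by positivity)) hq (by nlinarith) (by
      have h1 : (1 - ((k : ℝ) + 2) * θ) * (r * μ) + r * θ * μ = r * μ * (1 - (k + 1) * θ) := by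
        ring
      rw [h1]
      have h2 : r * μ ≤ 1 * μ := mul_le_mul_of_nonneg_right hr2 hμ.le
      have h3 : 0 ≤ (k + 1) * θ := by positivity
      have h4 : 0 < r * μ := by positivity
      nlinarith)
  obtain ⟨J₂, Hi⟩ := Hi (w := w) (μ := μ) hw hμ hwμ
  refine ⟨max J₁ J₂, ?_⟩
  intro J hJ m F A hA R 𝒞 Γ c Y HA hnf
  have hJ0 : (0 : ℝ) ≤ J := Nat.cast_nonneg J
  have i1 := Hi J ((le_max_right _ _).trans hJ) F A hA R c Y
    (HA.mono hμ.le (min_le_left _ _)) (hnf.mono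
      (mul_le_mul_of_nonneg_right (min_le_left _ _) hμ.le) (min_le_right _ _))
  have g1 : ∀ a : ℝ, a ≤ δ₁ * (r * θ) → a * μ * J ≤ δ₁ * (r * θ * μ) * J := by
    intro a ha
    have h1 : a * μ ≤ δ₁ * (r * θ) * μ := mul_le_mul_of_nonneg_right ha hμ.le
    have h2 := mul_le_mul_of_nonneg_right h1 hJ0
    have h3 : δ₁ * (r * θ) * μ = δ₁ * (r * θ * μ) := by ring
    rwa [h3] at h2
  have g2 := g1 _ (min_le_right δ₂ _)
  have g3 := g1 _ (min_le_right ε _)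
  have i2 := Hs J ((le_max_left _ _).trans hJ) F A hA R c Y (fun j => ae D n k j * μ) HA.deg
    (le_trans (by linarith) HA.tim) HA.key (HA.ctx.trans g2) (by
      intro j hj hjk
      by_cases h0 : j = 0
      · subst h0
        unfold ae
        simp only [if_true, zero_mul, Nat.cast_zero, add_zero]
        exact mul_nonneg (by linarith) (by positivity)
      · unfold ae
        rw [if_neg h0, ← hr]
        by_cases hjk2 : j ≤ k
        · rw [if_pos hjk2]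
          have h1 := ae_lo hjk2
          rw [← hθ] at h1
          have h2 : 0 ≤ r * μ := by positivity
          have h3 := mul_le_mul_of_nonneg_left h1 h2
          linarith
        · rw [if_neg hjk2]
          have h1 := ae_hi (j := j) (k := k) (by omega)
          rw [← hθ] at h1
          have h2 : 0 ≤ r * μ := by positivity
          have h3 := mul_le_mul_of_nonneg_left h1 h2
          linarith) (by
      unfold ae
      rw [if_neg (by omega), if_neg (by omega), ← hr]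
      push_cast
      linarith) (fun j hj => (i1 j hj).trans g3) (hnf.mono (by
        have h1 : min δ₂ (δ₁ * (r * θ)) * μ ≤ δ₁ * (r * θ) * μ :=
          mul_le_mul_of_nonneg_right (min_le_right _ _) hμ.le
        linarith) (min_le_left _ _))
  intro j hj
  by_cases hjk : j = k + 1
  · have h1 := i2 j hj
    have e1 : (1 - ((k : ℝ) + 2) * θ) * (r * μ) + j * (r * θ * μ) = ae D n (k + 1) j * μ := by
      unfold ae
      rw [if_neg (by omega), if_pos (by omega), ← hr, hjk, ← hθ]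
      push_cast
      ring
    rw [e1] at h1
    refine h1.trans ?_
    have h2 : r * θ * μ ≤ 1 * μ := mul_le_mul_of_nonneg_right (by linarith) hμ.le
    have h3 := mul_le_mul_of_nonneg_left h2 hε.le
    have h4 := mul_le_mul_of_nonneg_right h3 hJ0
    linarith
  · have h1 := i1 j hj
    have e1 : ae D n k j = ae D n (k + 1) j := by
      unfold ae
      by_cases h0 : j = 0
      · rw [if_pos h0, if_pos h0]
      · rw [if_neg h0, if_neg h0]
        by_cases h2 : j ≤ k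
        · rw [if_pos h2, if_pos (by omega)]
        · rw [if_neg h2, if_neg (by omega)]
    rw [e1] at h1
    refine h1.trans ?_
    exact mul_le_mul_of_nonneg_right (mul_le_mul_of_nonneg_right (min_le_left _ _) hμ.le) hJ0

/-- **The next round.** -/
theorem ajP_out {D : ℕ} (hD : 1 ≤ D) {h : ℝ} {n : ℕ} (H : AjP D h n D) : AjP D h (n + 1) 0 := by
  intro ε hε
  have hrp := rho_pos hD
  obtain ⟨δ, hδ, c₀, hc₀, Hi⟩ := H (ε / 2) (half_pos hε)
  refine ⟨δ, hδ, c₀, hc₀, ?_⟩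
  intro w μ hw hμ hwμ
  obtain ⟨J₁, Hi⟩ := Hi (w := w) (μ := μ) hw hμ hwμ
  obtain ⟨c₅, hc₅⟩ : ∃ c₅ : ℝ, c₅ = Real.log (2 * ((1 : ℕ) + 1) + 1) := ⟨_, rfl⟩
  obtain ⟨J₂, hJ₂⟩ := exists_nat_ge (2 * c₅ / (ε * μ))
  refine ⟨max J₁ J₂, ?_⟩
  intro J hJ m F A hA R 𝒞 Γ c Y HA hnf j hj
  have hJ0 : (0 : ℝ) ≤ J := Nat.cast_nonneg J
  have hJ2 : (J₂ : ℝ) ≤ J := by exact_mod_cast (le_max_right _ _).trans hJ
  have k5 : c₅ ≤ ε / 2 * μ * J := by
    have h1 : 2 * c₅ / (ε * μ) ≤ J := hJ₂.trans hJ2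
    rw [div_le_iff₀ (by positivity)] at h1
    linarith
  have i1 := Hi J ((le_max_left _ _).trans hJ) F A hA R c Y HA hnf j hj
  have hq'l : IsLaw (Pool.Agent.H49.Ent.cond F.p A True) := isLaw_cond F.isLaw hA
  have hle : ae D n D j ≤ ae D (n + 1) 0 j := by
    unfold ae
    by_cases h0 : j = 0
    · rw [if_pos h0, if_pos h0]
    · rw [if_neg h0, if_neg h0, if_pos hj, if_neg (by omega), mul_one, pow_succ]
      refine mul_le_mul_of_nonneg_left ?_ (by positivity)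
      have : (1 / 2 : ℝ) ^ D ≤ (1 / 2) ^ j := pow_le_pow_of_le_one (by norm_num) (by norm_num) hj
      linarith
  have e1 := conv hq'l (fun ω => pj F R ⌊w * J⌋₊ j ω)
    (fun ω => pj F R ⌊w * J⌋₊ j ω / 2 ^ ((ae D (n + 1) 0 j * μ) * J)) Y
    (μ := 2 ^ ((ae D n D j * μ) * J)) (lam := 1 / 2 ^ ((ae D (n + 1) 0 j * μ) * J)) (B := 1)
    (Real.rpow_pos_of_pos (by norm_num) _) (by
      rw [one_div, ← Real.rpow_neg (by norm_num), ← Real.rpow_add (by norm_num)]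
      push_cast
      refine Real.rpow_le_one_of_one_le_of_nonpos (by norm_num) ?_
      have h1 := mul_le_mul_of_nonneg_right (mul_le_mul_of_nonneg_right hle hμ.le) hJ0
      linarith) (by positivity) (fun ω ω' _ _ _ => by
      rw [← sub_div, abs_div, abs_of_pos
        (Real.rpow_pos_of_pos (by norm_num : (0 : ℝ) < 2) ((ae D (n + 1) 0 j * μ) * J))]
      exact le_of_eq (by ring))
  rw [← hc₅] at e1
  linarith

theorem ajP (D : ℕ) (hD : 1 ≤ D) {h : ℝ} (hh : 0 < h) (hh1 : h ≤ 1) (n : ℕ) : AjP D h n 0 := by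
  induction n with
  | zero => exact ajP_zero D h
  | succ n ih =>
    have h1 : ∀ k ≤ D, AjP D h n k := by
      intro k
      induction k with
      | zero => intro _; exact ih
      | succ k ihk => intro hk; exact ajP_in hD hh hh1 hk (ihk (by omega))
    exact ajP_out hD (h1 D le_rfl)

/-- Coarser rows on both sides. -/
theorem grid_le {Ω Γ : Type} [Fintype Ω] {q : Ω → ℝ} (hq : IsLaw q) (f : Ω → ℝ) (C : Ω → Γ)
    {s₁ s₁' s₂ s₂' : ℝ} (h1 : 0 < s₁') (h1' : s₁' ≤ s₁) (h2 : 0 < s₂) (h2' : s₂ ≤ s₂') :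
    CH q (fun ω => ⌊f ω / s₁⌋) (fun ω => (⌊f ω / s₂⌋, C ω)) ≤
      CH q (fun ω => ⌊f ω / s₁'⌋) (fun ω => (⌊f ω / s₂'⌋, C ω)) +
        2 * Real.log (2 * ((1 : ℕ) + 1) + 1) := by
  have h0 := hq.nonneg
  have hs1 : 0 < s₁ := h1.trans_le h1'
  have hs2 : 0 < s₂' := h2.trans_le h2'
  have e1 := conv hq f (fun ω => f ω / s₁) (fun ω => (⌊f ω / s₂⌋, C ω)) (μ := s₁')
    (lam := 1 / s₁) (B := 1) h1 (by
      rw [one_div, inv_mul_le_iff₀ hs1]
      push_cast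
      linarith) (by positivity) (fun ω ω' _ _ _ => by
      rw [← sub_div, abs_div, abs_of_pos hs1]
      exact le_of_eq (by ring))
  have e2 := CH_le_add h0 (fun ω => ⌊f ω / s₁'⌋) (fun ω => ⌊f ω / s₂'⌋)
    (fun ω => (⌊f ω / s₂⌋, C ω))
  have e3 : CH q (fun ω => ⌊f ω / s₂'⌋) (fun ω => (⌊f ω / s₂⌋, C ω)) ≤
      Real.log (2 * ((1 + 1 : ℕ) : ℝ) + 1) := by
    refine CH_pair hq _ _ fun ω ω' _ _ e => ?_
    have h3 := of_floor_div h2 (Prod.ext_iff.mp e).1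
    refine floor_sub_le ?_
    rw [← sub_div, abs_div, abs_of_pos hs2, div_le_iff₀ hs2]
    push_cast
    linarith
  have e4 : CH q (fun ω => ⌊f ω / s₁'⌋) (fun ω => (⌊f ω / s₂'⌋, (⌊f ω / s₂⌋, C ω))) ≤
      CH q (fun ω => ⌊f ω / s₁'⌋) (fun ω => (⌊f ω / s₂'⌋, C ω)) :=
    CH_mono_cond h0 fun ω ω' _ _ e => by
      simp only [Prod.mk.injEq] at e ⊢
      exact ⟨e.1, e.2.2⟩
  push_cast at e1 e3 ⊢
  linarith

/-- The rows at the levels of a grid. -/
def NFg (F : Fam m J) (A : F.Ω → Prop) (R : LnT F → Polynomial ℝ) {𝒞 : Type} (c : LnT F → 𝒞)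
    (w : ℕ) (μ h e c₀ : ℝ) (N₀ : ℕ) : Prop :=
  ∀ B : F.Ω → Prop, Sub B A → c₀ * Pe F.p A ≤ Pe F.p B → ∀ i j : ℕ, i ≤ j → j ≤ N₀ →
    CH (Pool.Agent.H49.Ent.cond F.p B True)
      (fun ω => ⌊pj F R w 0 ω / 2 ^ ((μ * i / N₀) * J)⌋)
      (fun ω => (⌊pj F R w 0 ω / 2 ^ ((μ * j / N₀) * J)⌋, (c (slam F w ω), F.W ω))) ≤
      ((1 - h) * (μ * j / N₀ - μ * i / N₀) * Real.log 2 + e) * J

theorem NFg.real {F : Fam m J} {A : F.Ω → Prop} (hA : 0 < Pe F.p A) {R : LnT F → Polynomial ℝ}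
    {𝒞 : Type} {c : LnT F → 𝒞} {w : ℕ} {μ h e c₀ e' : ℝ} {N₀ : ℕ} (hN : 0 < N₀) (hμ : 0 < μ)
    (hh : 0 < h) (hh1 : h ≤ 1) (hc₀ : 0 < c₀)
    (H : NFg F A R c w μ h e c₀ N₀)
    (he : (2 * μ / N₀ + e) * J + 2 * Real.log (2 * ((1 : ℕ) + 1) + 1) ≤ e' * J) :
    NFr F A R c w μ h e' c₀ := by
  intro B hB hm a b ha hab hb
  have hN0 : (0 : ℝ) < N₀ := by exact_mod_cast hN
  have hJ0 : (0 : ℝ) ≤ J := Nat.cast_nonneg J
  have hPB : 0 < Pe F.p B := lt_of_lt_of_le (by positivity) hm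
  have hBl : IsLaw (Pool.Agent.H49.Ent.cond F.p B True) := isLaw_cond F.isLaw hPB
  obtain ⟨i, hi⟩ : ∃ i : ℕ, i = ⌊a * N₀ / μ⌋₊ := ⟨_, rfl⟩
  obtain ⟨j, hj⟩ : ∃ j : ℕ, j = ⌈b * N₀ / μ⌉₊ := ⟨_, rfl⟩
  have hx : 0 ≤ a * N₀ / μ := by positivity
  have hy : 0 ≤ b * N₀ / μ := by
    have : 0 ≤ b := ha.trans hab
    positivity
  have hxy : a * N₀ / μ ≤ b * N₀ / μ := by gcongr
  have i1 : (i : ℝ) ≤ a * N₀ / μ := by
    rw [hi]
    exact Nat.floor_le hx
  have i2 : a * N₀ / μ < i + 1 := by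
    rw [hi]
    exact Nat.lt_floor_add_one _
  have j1 : b * N₀ / μ ≤ j := by
    rw [hj]
    exact Nat.le_ceil _
  have j2 : (j : ℝ) < b * N₀ / μ + 1 := by
    rw [hj]
    exact Nat.ceil_lt_add_one hy
  have hij : i ≤ j := by
    have : (i : ℝ) ≤ j := by linarith
    exact_mod_cast this
  have hjN : j ≤ N₀ := by
    rw [hj]
    refine Nat.ceil_le.mpr ?_
    rw [div_le_iff₀ hμ]
    nlinarith
  have a1 : μ * i / N₀ ≤ a := by
    rw [div_le_iff₀ hN0]
    rw [le_div_iff₀ hμ] at i1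
    linarith
  have a2 : a ≤ μ * i / N₀ + μ / N₀ := by
    have h1 : a * N₀ < (i + 1) * μ := by
      rw [div_lt_iff₀ hμ] at i2
      exact i2
    have h2 : μ * i / N₀ + μ / N₀ = ((i + 1) * μ) / N₀ := by ring
    rw [h2, le_div_iff₀ hN0]
    exact h1.le
  have b1 : b ≤ μ * j / N₀ := by
    rw [le_div_iff₀ hN0]
    rw [div_le_iff₀ hμ] at j1
    linarith
  have b2 : μ * j / N₀ ≤ b + μ / N₀ := by
    have h1 : (j : ℝ) * μ < b * N₀ + μ := by
      have : (j : ℝ) * μ < (b * N₀ / μ + 1) * μ := mul_lt_mul_of_pos_right j2 hμ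
      have e : (b * N₀ / μ + 1) * μ = b * N₀ + μ := by field_simp
      linarith
    have h2 : b + μ / N₀ = (b * N₀ + μ) / N₀ := by field_simp
    rw [h2]
    gcongr
    linarith
  have h1 := H B hB hm i j hij hjN
  have h2 := grid_le hBl (fun ω => pj F R w 0 ω) (fun ω => (c (slam F w ω), F.W ω))
    (s₁ := 2 ^ (a * J)) (s₁' := 2 ^ ((μ * i / N₀) * J)) (s₂ := 2 ^ (b * J))
    (s₂' := 2 ^ ((μ * j / N₀) * J)) (Real.rpow_pos_of_pos (by norm_num) _)
    (Real.rpow_le_rpow_of_exponent_le (by norm_num) (mul_le_mul_of_nonneg_right a1 hJ0))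
    (Real.rpow_pos_of_pos (by norm_num) _)
    (Real.rpow_le_rpow_of_exponent_le (by norm_num) (mul_le_mul_of_nonneg_right b1 hJ0))
  refine h2.trans ?_
  have hl2 : 0 < Real.log 2 := Real.log_pos one_lt_two
  have hl21 : Real.log 2 ≤ 1 := by
    have := Real.log_two_lt_d9
    linarith
  have g1 : (1 - h) * (μ * j / N₀ - μ * i / N₀) * Real.log 2 ≤
      (1 - h) * (b - a) * Real.log 2 + 2 * μ / N₀ := by
    have g2 : μ * j / N₀ - μ * i / N₀ ≤ (b - a) + 2 * μ / N₀ := by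
      have : 2 * μ / N₀ = μ / N₀ + μ / N₀ := by ring
      linarith
    have g3 : (1 - h) * Real.log 2 * (μ * j / N₀ - μ * i / N₀) ≤
        (1 - h) * Real.log 2 * ((b - a) + 2 * μ / N₀) :=
      mul_le_mul_of_nonneg_left g2 (mul_nonneg (by linarith) hl2.le)
    have g4 : (1 - h) * Real.log 2 ≤ 1 := by
      have a1 := mul_le_mul_of_nonneg_left hl21 (by linarith : 0 ≤ 1 - h)
      linarith
    have g5 : 0 ≤ 2 * μ / N₀ := by positivity
    have g6 := mul_le_mul_of_nonneg_right g4 g5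
    linarith
  have g7 := mul_le_mul_of_nonneg_right g1 hJ0
  linarith

/-- **All jets** of a path whose rows are not full given the context are few bits. -/
theorem all_jets (D : ℕ) (hD : 1 ≤ D) {h : ℝ} (hh : 0 < h) (hh1 : h ≤ 1) {ε : ℝ} (hε : 0 < ε) :
    ∃ δ : ℝ, 0 < δ ∧ ∃ c₀ : ℝ, 0 < c₀ ∧ ∃ N₀ : ℕ, 0 < N₀ ∧
    ∀ {w μ : ℝ} (_ : 0 ≤ w) (_ : 0 < μ) (_ : w + μ ≤ 1),
    ∃ J₀ : ℕ, ∀ J ≥ J₀, ∀ {m : ℕ} (F : Fam m J) (A : F.Ω → Prop) (_ : 0 < Pe F.p A)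
      (R : LnT F → Polynomial ℝ) {𝒞 Γ : Type} (c : LnT F → 𝒞) (Y : F.Ω → Γ),
    AjH F A R c Y D ⌊w * J⌋₊ μ δ → NFg F A R c ⌊w * J⌋₊ μ h (δ * μ) c₀ N₀ →
    CH (Pool.Agent.H49.Ent.cond F.p A True)
      (fun ω => (fun j : Fin (D + 1) => ⌊pj F R ⌊w * J⌋₊ j ω / 2 ^ (ε * μ * J)⌋,
        fun j : Fin (D + 1) => ⌊(R (slam F ⌊w * J⌋₊ ω)).coeff j / 2 ^ (ε * μ * J)⌋)) Y ≤
        ε * μ * J := by
  classical
  have hrp := rho_pos hD
  obtain ⟨n, hn⟩ := exists_pow_lt_of_lt_one hε (rho_lt D)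
  have hD1 : (0 : ℝ) < D + 1 := by positivity
  obtain ⟨δ, hδ, c₀, hc₀, Hi⟩ := ajP D hD hh hh1 n (ε / (4 * (D + 1))) (by positivity)
  obtain ⟨N₀, hN₀⟩ := exists_nat_ge (8 / δ + 1)
  have hN0 : (0 : ℝ) < N₀ := lt_of_lt_of_le (by positivity) hN₀
  have hNδ : 2 / (N₀ : ℝ) ≤ δ / 4 := by
    rw [div_le_iff₀ hN0]
    have h1 : 8 / δ ≤ N₀ := by linarith
    rw [div_le_iff₀ hδ] at h1
    linarith
  refine ⟨δ / 2, by positivity, c₀, hc₀, N₀, by exact_mod_cast hN0, ?_⟩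
  intro w μ hw hμ hwμ
  obtain ⟨J₁, Hi⟩ := Hi (w := w) (μ := μ) hw hμ hwμ
  obtain ⟨C, hC, hcof⟩ := cof_small D
  obtain ⟨c₅, hc₅⟩ : ∃ c₅ : ℝ, c₅ = Real.log (2 * ((1 : ℕ) + 1) + 1) := ⟨_, rfl⟩
  obtain ⟨c₆, hc₆⟩ : ∃ c₆ : ℝ, c₆ = Real.log (2 * ((⌈C⌉₊ : ℝ) + 1) + 1) := ⟨_, rfl⟩
  obtain ⟨J₂, hJ₂⟩ := exists_nat_ge (8 * c₅ / (δ * μ) + 4 * (D + 1) * (c₅ + c₆) / (ε * μ) + 1)
  refine ⟨max J₁ J₂, ?_⟩
  intro J hJ m F A hA R 𝒞 Γ c Y HA hnf
  have hJ0 : (0 : ℝ) ≤ J := Nat.cast_nonneg J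
  have hJ2 : (J₂ : ℝ) ≤ J := by exact_mod_cast (le_max_right _ _).trans hJ
  have hc5 : 0 ≤ c₅ := by
    rw [hc₅]
    exact Real.log_nonneg (by norm_num)
  have hc6 : 0 ≤ c₆ := by
    rw [hc₆]
    exact Real.log_nonneg (by
      have : (0 : ℝ) ≤ (⌈C⌉₊ : ℝ) := Nat.cast_nonneg _
      linarith)
  have k1 : 0 ≤ 8 * c₅ / (δ * μ) := by positivity
  have k2 : 0 ≤ 4 * (D + 1) * (c₅ + c₆) / (ε * μ) := by positivity
  have k5 : 8 * c₅ ≤ δ * μ * J := by
    have h1 : 8 * c₅ / (δ * μ) ≤ J := by linarith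
    rw [div_le_iff₀ (by positivity)] at h1
    linarith
  have k6 : 4 * (D + 1) * (c₅ + c₆) ≤ ε * μ * J := by
    have h1 : 4 * (D + 1) * (c₅ + c₆) / (ε * μ) ≤ J := by linarith
    rw [div_le_iff₀ (by positivity)] at h1
    linarith
  have i1 := Hi J ((le_max_left _ _).trans hJ) F A hA R c Y (HA.mono hμ.le (by linarith))
    (NFg.real hA (by exact_mod_cast hN0) hμ hh hh1 hc₀ hnf (by
      rw [← hc₅]
      have h1 : 2 * μ / N₀ ≤ δ / 4 * μ := by
        have h2 := mul_le_mul_of_nonneg_right hNδ hμ.le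
        have h3 : 2 * μ / N₀ = 2 / N₀ * μ := by ring
        rw [h3]
        exact h2
      have h4 := mul_le_mul_of_nonneg_right h1 hJ0
      linarith))
  obtain ⟨q', hq'⟩ : ∃ q' : F.Ω → ℝ, q' = Pool.Agent.H49.Ent.cond F.p A True := ⟨_, rfl⟩
  have hq'l : IsLaw q' := by
    rw [hq']
    exact isLaw_cond F.isLaw hA
  have h0 := hq'l.nonneg
  have hq'A : ∀ ω, 0 < q' ω → A ω := fun ω hω => by
    rw [hq'] at hω
    exact of_cond_pos hω
  rw [← hq'] at i1 ⊢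
  obtain ⟨W, hW⟩ : ∃ W : ℕ, W = ⌊w * J⌋₊ := ⟨_, rfl⟩
  rw [← hW] at i1 ⊢
  obtain ⟨E, hE⟩ : ∃ E : ℝ, E = 2 ^ (ε * μ * J) := ⟨_, rfl⟩
  have hE0 : 0 < E := by
    rw [hE]
    exact Real.rpow_pos_of_pos (by norm_num) _
  rw [← hE]
  -- the jets
  obtain ⟨V, hV⟩ : ∃ V : F.Ω → Fin (D + 1) → ℤ, V = fun ω (j : Fin (D + 1)) =>
    ⌊pj F R W j ω / E⌋ := ⟨_, rfl⟩
  have hVc : CH q' V Y ≤ (D + 1) * (ε / (4 * (D + 1)) * μ * J + c₅) := by
    refine (CH_pis h0 V Y).trans ?_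
    have h1 : ∀ j ∈ (univ : Finset (Fin (D + 1))), CH q' (fun ω => V ω j) Y ≤
        ε / (4 * (D + 1)) * μ * J + c₅ := by
      intro j _
      have h2 := i1 j (by omega)
      have hae : ae D n 0 j ≤ ε := by
        unfold ae
        by_cases hj0 : (j : ℕ) = 0
        · rw [if_pos hj0]
          exact hε.le
        · rw [if_neg hj0, if_neg (by omega), mul_one]
          exact hn.le
      have e1 := conv hq'l (fun ω => pj F R W j ω) (fun ω => pj F R W j ω / E) Y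
        (μ := 2 ^ ((ae D n 0 j * μ) * J)) (lam := 1 / E) (B := 1)
        (Real.rpow_pos_of_pos (by norm_num) _) (by
          rw [hE, one_div, ← Real.rpow_neg (by norm_num), ← Real.rpow_add (by norm_num)]
          push_cast
          refine Real.rpow_le_one_of_one_le_of_nonpos (by norm_num) ?_
          have h1 := mul_le_mul_of_nonneg_right (mul_le_mul_of_nonneg_right hae hμ.le) hJ0
          linarith) (by positivity) (fun ω ω' _ _ _ => by
          rw [← sub_div, abs_div, abs_of_pos hE0]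
          exact le_of_eq (by ring))
      rw [← hc₅] at e1
      rw [hV]
      linarith
    refine (Finset.sum_le_sum h1).trans (le_of_eq ?_)
    rw [Finset.sum_const, Finset.card_univ, Fintype.card_fin, nsmul_eq_mul]
    push_cast
    ring
  -- the coefficients
  obtain ⟨U, hU⟩ : ∃ U : F.Ω → Fin (D + 1) → ℤ, U = fun ω (j : Fin (D + 1)) =>
    ⌊(R (slam F W ω)).coeff j / E⌋ := ⟨_, rfl⟩
  have hUc : CH q' U (fun ω => (V ω, Y ω)) ≤ (D + 1) * c₆ := by
    refine (CH_pis h0 U _).trans ?_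
    have h1 : ∀ j ∈ (univ : Finset (Fin (D + 1))), CH q' (fun ω => U ω j) (fun ω => (V ω, Y ω)) ≤
        c₆ := by
      intro j _
      have h2 : CH q' (fun ω => U ω j) (fun ω => (V ω, Y ω)) ≤
          Real.log (2 * ((⌈C⌉₊ + 1 : ℕ) : ℝ) + 1) := by
        refine CH_pair hq'l _ _ fun ω ω' hω hω' e => ?_
        simp only [Prod.mk.injEq] at e
        obtain ⟨e1, e2⟩ := e
        have hTT := (HA.key ω ω' (hq'A ω hω) (hq'A ω' hω') e2).1
        have hu : uw F W ω' = uw F W ω := by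
          unfold uw tw
          rw [hTT]
        have hEd : (R (slam F W ω) - R (slam F W ω')).natDegree ≤ D :=
          (Polynomial.natDegree_sub_le _ _).trans (max_le (HA.deg _) (HA.deg _))
        have h3 := hcof (R (slam F W ω) - R (slam F W ω')) j (uw F W ω) E hEd (uw_abs F W ω) (by
          intro i _
          have e4 : (Polynomial.derivative^[i] (R (slam F W ω) - R (slam F W ω'))).eval
              (uw F W ω) = pj F R W i ω - pj F R W i ω' := by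
            rw [Polynomial.iterate_derivative_sub, Polynomial.eval_sub]
            unfold pj
            rw [hu]
          by_cases hi : i ≤ D
          · rw [e4]
            rw [hV] at e1
            exact of_floor_div hE0 (congrFun e1 (⟨i, by omega⟩ : Fin (D + 1)))
          · rw [Polynomial.iterate_derivative_eq_zero (by omega), Polynomial.eval_zero, abs_zero]
            exact hE0.le)
        rw [hU]
        refine floor_sub_le ?_
        rw [← sub_div, abs_div, abs_of_pos hE0, div_le_iff₀ hE0, ← Polynomial.coeff_sub]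
        exact h3.trans (mul_le_mul_of_nonneg_right (Nat.le_ceil C) hE0.le)
      push_cast at h2
      rw [← hc₆] at h2
      exact h2
    refine (Finset.sum_le_sum h1).trans (le_of_eq ?_)
    rw [Finset.sum_const, Finset.card_univ, Fintype.card_fin, nsmul_eq_mul]
    push_cast
    ring
  have s1 := CH_subadd h0 V U Y
  have s2 : CH q' U Y ≤ CH q' V Y + CH q' U (fun ω => (V ω, Y ω)) := CH_le_add h0 U V Y
  have e9 : (D + 1) * (ε / (4 * (D + 1)) * μ * J + c₅) = ε / 4 * μ * J + (D + 1) * c₅ := by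
    field_simp
  rw [e9] at hVc
  have hfin : CH q' (fun ω => (V ω, U ω)) Y ≤ ε * μ * J := by
    have g1 : 0 ≤ (D + 1) * c₅ := by positivity
    have g2 : 0 ≤ (D + 1) * c₆ := by positivity
    have g3 : 0 ≤ ε * μ * J := by positivity
    linarith
  rw [hV, hU] at hfin
  exact hfin

end Pool.AJ18
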