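import Pool.Agent.H46.D2.Con3

/-!
# The conic of five directions, and its closed multiple

`cqf V`: the matrix of the conic of the five vectors `V`. `cqf_near`: a symmetric matrix which is small
at the five vectors is near a multiple of `cqf V`. `con_one`: if it is also small at `X`, `X 0 = 1`, and
the coordinates `1`, `2` of `S X` are near numbers `v`, then it is near
`(ivk T V X * v (ix V X)) • cqf V`, where `ivk` is the inverse of the larger one of the coordinates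
`1`, `2` of `cqf V X`, or zero if they are small.
-/

set_option autoImplicit false

namespace Pool.POP18

open Finset Real
open Pool.CUB46

/-- The matrix of the conic of five vectors. -/
noncomputable def cqf (V : Fin 5 → Fin 3 → ℝ) : Fin 3 → Fin 3 → ℝ :=
  cqm ![V 0, V 1, V 2] (V 3) (V 4)

/-- Five vectors in general position. -/
structure GP5 (V : Fin 5 → Fin 3 → ℝ) (T : ℝ) : Prop where
  one : 1 ≤ T
  bd : ∀ i j, |V i j| ≤ T
  det : ∀ js : Fin 3 → Fin 5, Function.Injective js →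
    1 ≤ T * |(Matrix.of (fun i => V (js i))).det|

theorem det_d3 (A B C : Fin 3 → ℝ) : (Matrix.of ![A, B, C]).det = d3 A B C := by
  rw [Matrix.det_fin_three]
  show A 0 * B 1 * C 2 - A 0 * B 2 * C 1 - A 1 * B 0 * C 2 + A 1 * B 2 * C 0 +
    A 2 * B 0 * C 1 - A 2 * B 1 * C 0 = _
  unfold d3
  ring

variable {V : Fin 5 → Fin 3 → ℝ} {T : ℝ}

theorem GP5.d3 (h : GP5 V T) (a b c : Fin 5) (hab : a ≠ b) (hac : a ≠ c) (hbc : b ≠ c) :
    1 ≤ T * |d3 (V a) (V b) (V c)| := by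
  have h1 := h.det ![a, b, c] (by
    intro i j hij
    fin_cases i <;> fin_cases j <;> first
      | rfl
      | (simp at hij; first | exact absurd hij hab | exact absurd hij hac | exact absurd hij hbc |
          exact absurd hij.symm hab | exact absurd hij.symm hac | exact absurd hij.symm hbc))
  have h2 : (fun i => V ((![a, b, c] : Fin 3 → Fin 5) i)) = ![V a, V b, V c] := by
    funext i
    fin_cases i <;> rfl
  rw [h2, det_d3] at h1
  exact h1

theorem GP5.five (h : GP5 V T) : Five ![V 0, V 1, V 2] (V 3) (V 4) T where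
  one := h.one
  hP := by
    intro i j
    fin_cases i
    exacts [h.bd 0 j, h.bd 1 j, h.bd 2 j]
  hX := h.bd 3
  hY := h.bd 4
  hd := h.d3 0 1 2 (by decide) (by decide) (by decide)
  dX := by
    intro i
    unfold co
    fin_cases i
    · exact h.d3 3 1 2 (by decide) (by decide) (by decide)
    · exact h.d3 3 2 0 (by decide) (by decide) (by decide)
    · exact h.d3 3 0 1 (by decide) (by decide) (by decide)
  dY := by
    intro i
    unfold co
    fin_cases i
    · exact h.d3 4 1 2 (by decide) (by decide) (by decide)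
    · exact h.d3 4 2 0 (by decide) (by decide) (by decide)
    · exact h.d3 4 0 1 (by decide) (by decide) (by decide)
  dd := by
    intro i
    fin_cases i
    · exact h.d3 0 3 4 (by decide) (by decide) (by decide)
    · exact h.d3 1 3 4 (by decide) (by decide) (by decide)
    · exact h.d3 2 3 4 (by decide) (by decide) (by decide)

theorem cqf_symm (V : Fin 5 → Fin 3 → ℝ) (i j : Fin 3) : cqf V i j = cqf V j i := cq_symm _ _ _ _ _

theorem cqf_le (h : GP5 V T) (i j : Fin 3) : |cqf V i j| ≤ 2 ^ 20 * T ^ 16 := h.five.cqm_le i j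

theorem cqf_det (h : GP5 V T) : 1 ≤ T ^ 16 * |d3 (cqf V 0) (cqf V 1) (cqf V 2)| := h.five.le_det

/-- **A form which is small at the five vectors is near a multiple of their conic.** -/
theorem cqf_near (h : GP5 V T) {S : Fin 3 → Fin 3 → ℝ} {ε : ℝ} (hS : ∀ i j, S i j = S j i)
    (hSV : ∀ i, |q2 S (V i) (V i)| ≤ ε) :
    ∃ σ : ℝ, ∀ i j, |S i j - σ * cqf V i j| ≤ 2 ^ 20 * T ^ 22 * ε := by
  refine ⟨Five.tau ![V 0, V 1, V 2] (V 3) (V 4) *
    q2 S ((![V 0, V 1, V 2] : Fin 3 → Fin 3 → ℝ) 1) ((![V 0, V 1, V 2] : Fin 3 → Fin 3 → ℝ) 2),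
    fun i j => h.five.con5 hS ?_ (hSV 3) (hSV 4) i j⟩
  intro i
  fin_cases i
  exacts [hSV 0, hSV 1, hSV 2]

/-- The vector `cqf V X`. -/
noncomputable def kap (V : Fin 5 → Fin 3 → ℝ) (X : Fin 3 → ℝ) (i : Fin 3) : ℝ :=
  ∑ j, cqf V i j * X j

open Classical in
/-- The larger one of the coordinates `1`, `2` of `kap`. -/
noncomputable def ix (V : Fin 5 → Fin 3 → ℝ) (X : Fin 3 → ℝ) : Fin 3 :=
  if |kap V X 2| ≤ |kap V X 1| then 1 else 2

open Classical in
/-- Its inverse, or zero. -/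
noncomputable def ivk (T : ℝ) (V : Fin 5 → Fin 3 → ℝ) (X : Fin 3 → ℝ) : ℝ :=
  if 1 ≤ 2 ^ 44 * T ^ 49 * |kap V X (ix V X)| then 1 / kap V X (ix V X) else 0

theorem ix_cases (V : Fin 5 → Fin 3 → ℝ) (X : Fin 3 → ℝ) :
    (ix V X = 1 ∨ ix V X = 2) ∧ |kap V X 1| ≤ |kap V X (ix V X)| ∧
      |kap V X 2| ≤ |kap V X (ix V X)| := by
  unfold ix
  split_ifs with h
  · exact ⟨Or.inl rfl, le_rfl, h⟩
  · exact ⟨Or.inr rfl, (not_le.1 h).le, le_rfl⟩

theorem ivk_le (hT : 1 ≤ T) (V : Fin 5 → Fin 3 → ℝ) (X : Fin 3 → ℝ) :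
    |ivk T V X| ≤ 2 ^ 44 * T ^ 49 := by
  have hT0 : 0 < T := zero_lt_one.trans_le hT
  unfold ivk
  split_ifs with h
  · have hk : 0 < |kap V X (ix V X)| := by
      by_contra hcon
      have : |kap V X (ix V X)| = 0 := le_antisymm (not_lt.1 hcon) (abs_nonneg _)
      rw [this, mul_zero] at h
      linarith
    rw [abs_div, abs_one, div_le_iff₀ hk]
    exact h
  · rw [abs_zero]
    positivity

theorem kap_low (h : GP5 V T) {X : Fin 3 → ℝ} (hX0 : X 0 = 1) :
    1 ≤ 2 ^ 41 * T ^ 48 * (|kap V X 0| + |kap V X 1| + |kap V X 2|) := by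
  have hT0 : 0 < T := zero_lt_one.trans_le h.one
  have h1 : d3 (cqf V 0) (cqf V 1) (cqf V 2) =
      kap V X 0 * (cqf V 1 1 * cqf V 2 2 - cqf V 1 2 * cqf V 2 1) -
      kap V X 1 * (cqf V 0 1 * cqf V 2 2 - cqf V 0 2 * cqf V 2 1) +
      kap V X 2 * (cqf V 0 1 * cqf V 1 2 - cqf V 0 2 * cqf V 1 1) := by
    unfold kap Pool.CUB46.d3
    simp only [Fin.sum_univ_three, hX0]
    ring
  have h2 := cqf_det h
  obtain ⟨m, hm⟩ : ∃ m : ℝ, m = 2 ^ 20 * T ^ 16 := ⟨_, rfl⟩
  have hm0 : 0 < m := by rw [hm]; positivity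
  have hc : ∀ i j k l, |cqf V i j * cqf V k l| ≤ m * m := by
    intro i j k l
    rw [abs_mul]
    have a1 := cqf_le h i j
    have a2 := cqf_le h k l
    rw [← hm] at a1 a2
    exact mul_le_mul a1 a2 (abs_nonneg _) hm0.le
  have hd : ∀ i j k l i' j' k' l', |cqf V i j * cqf V k l - cqf V i' j' * cqf V k' l'| ≤
      2 * (m * m) := by
    intro i j k l i' j' k' l'
    refine (abs_sub _ _).trans ?_
    linarith [hc i j k l, hc i' j' k' l']
  have h3 : |d3 (cqf V 0) (cqf V 1) (cqf V 2)| ≤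
      2 * (m * m) * (|kap V X 0| + |kap V X 1| + |kap V X 2|) := by
    rw [h1]
    refine (abs_add_le _ _).trans ?_
    have b1 := abs_sub (kap V X 0 * (cqf V 1 1 * cqf V 2 2 - cqf V 1 2 * cqf V 2 1))
      (kap V X 1 * (cqf V 0 1 * cqf V 2 2 - cqf V 0 2 * cqf V 2 1))
    rw [abs_mul, abs_mul] at b1
    rw [abs_mul]
    have c0 := mul_le_mul_of_nonneg_left (hd 1 1 2 2 1 2 2 1) (abs_nonneg (kap V X 0))
    have c1 := mul_le_mul_of_nonneg_left (hd 0 1 2 2 0 2 2 1) (abs_nonneg (kap V X 1))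
    have c2 := mul_le_mul_of_nonneg_left (hd 0 1 1 2 0 2 1 1) (abs_nonneg (kap V X 2))
    linarith
  have h4 : T ^ 16 * |d3 (cqf V 0) (cqf V 1) (cqf V 2)| ≤
      T ^ 16 * (2 * (m * m) * (|kap V X 0| + |kap V X 1| + |kap V X 2|)) :=
    mul_le_mul_of_nonneg_left h3 (by positivity)
  refine h2.trans (h4.trans (le_of_eq ?_))
  rw [hm]
  ring

/-- **A form which is small at the five vectors and at `X`, with `S X` known in the coordinates
`1`, `2`, is known.** -/
theorem con_one (h : GP5 V T) {S : Fin 3 → Fin 3 → ℝ} {ε : ℝ} (hS : ∀ i j, S i j = S j i)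
    (hSV : ∀ i, |q2 S (V i) (V i)| ≤ ε) {X : Fin 3 → ℝ} (hX0 : X 0 = 1) (hXT : ∀ j, |X j| ≤ T)
    (hSX : |q2 S X X| ≤ ε) {v : Fin 3 → ℝ} (hv1 : |∑ j, S 1 j * X j - v 1| ≤ ε)
    (hv2 : |∑ j, S 2 j * X j - v 2| ≤ ε) (i j : Fin 3) :
    |S i j - ivk T V X * v (ix V X) * cqf V i j| ≤ 2 ^ 87 * T ^ 88 * ε := by
  have hT1 := h.one
  have hT0 : 0 < T := zero_lt_one.trans_le hT1
  have hε0 : 0 ≤ ε := (abs_nonneg _).trans hSX
  obtain ⟨σ, hσ⟩ := cqf_near h hS hSV
  obtain ⟨ε₁, hε₁⟩ : ∃ ε₁ : ℝ, ε₁ = 2 ^ 20 * T ^ 22 * ε := ⟨_, rfl⟩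
  rw [← hε₁] at hσ
  have hε₁0 : 0 ≤ ε₁ := by rw [hε₁]; positivity
  -- the coordinates
  have hk : ∀ a : Fin 3, |∑ j, S a j * X j - σ * kap V X a| ≤ 3 * (T * ε₁) := by
    intro a
    have e : ∑ j, S a j * X j - σ * kap V X a = ∑ j, (S a j - σ * cqf V a j) * X j := by
      unfold kap
      rw [Finset.mul_sum, ← Finset.sum_sub_distrib]
      exact Finset.sum_congr rfl fun j _ => by ring
    rw [e]
    refine (Finset.abs_sum_le_sum_abs _ _).trans ?_
    refine (Finset.sum_le_card_nsmul _ _ (T * ε₁) fun b _ => ?_).trans (le_of_eq ?_)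
    · rw [abs_mul, mul_comm T]
      exact mul_le_mul (hσ a b) (hXT b) (abs_nonneg _) hε₁0
    · rw [Finset.card_univ, Fintype.card_fin, nsmul_eq_mul]
      norm_num
  have hq : q2 S X X = ∑ a, X a * ∑ j, S a j * X j := by
    unfold q2
    refine Finset.sum_congr rfl fun a _ => ?_
    rw [Finset.mul_sum]
    exact Finset.sum_congr rfl fun b _ => by ring
  have hnull : |σ * (kap V X 0 + X 1 * kap V X 1 + X 2 * kap V X 2)| ≤ ε + 9 * (T ^ 2 * ε₁) := by
    have e : σ * (kap V X 0 + X 1 * kap V X 1 + X 2 * kap V X 2) =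
        q2 S X X - ∑ a, X a * (∑ j, S a j * X j - σ * kap V X a) := by
      rw [hq, ← Finset.sum_sub_distrib]
      simp only [Fin.sum_univ_three, hX0]
      ring
    rw [e]
    refine (abs_sub _ _).trans ?_
    refine add_le_add hSX ?_
    refine (Finset.abs_sum_le_sum_abs _ _).trans ?_
    refine (Finset.sum_le_card_nsmul _ _ (T * (3 * (T * ε₁))) fun b _ => ?_).trans (le_of_eq ?_)
    · rw [abs_mul]
      exact mul_le_mul (hXT b) (hk b) (abs_nonneg _) hT0.le
    · rw [Finset.card_univ, Fintype.card_fin, nsmul_eq_mul]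
      ring
  obtain ⟨hix, hm1, hm2⟩ := ix_cases V X
  obtain ⟨μ, hμ⟩ : ∃ μ : ℝ, μ = |kap V X (ix V X)| := ⟨_, rfl⟩
  rw [← hμ] at hm1 hm2
  have hμ0 : 0 ≤ μ := by rw [hμ]; exact abs_nonneg _
  have hm := cqf_le h i j
  have hT22 : T ^ 22 ≤ T ^ 88 := pow_le_pow_right₀ hT1 (by norm_num)
  have hb1 : ε₁ ≤ 2 ^ 86 * T ^ 88 * ε := by
    rw [hε₁]
    refine mul_le_mul_of_nonneg_right ?_ hε0
    calc (2 : ℝ) ^ 20 * T ^ 22 ≤ 2 ^ 86 * T ^ 22 := by
          refine mul_le_mul_of_nonneg_right ?_ (by positivity)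
          norm_num
      _ ≤ _ := mul_le_mul_of_nonneg_left hT22 (by positivity)
  have h87 : (2 : ℝ) ^ 87 * T ^ 88 * ε = 2 ^ 86 * T ^ 88 * ε + 2 ^ 86 * T ^ 88 * ε := by ring
  by_cases hc : 1 ≤ 2 ^ 44 * T ^ 49 * |kap V X (ix V X)|
  · -- the number is known
    have hκ0 : kap V X (ix V X) ≠ 0 := by
      intro h0
      rw [h0, abs_zero, mul_zero] at hc
      linarith
    have hiv : ivk T V X = 1 / kap V X (ix V X) := by
      unfold ivk
      rw [if_pos hc]
    have hvi : |∑ j, S (ix V X) j * X j - v (ix V X)| ≤ ε := by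
      rcases hix with h1 | h1
      · rw [h1]; exact hv1
      · rw [h1]; exact hv2
    have h1 : |σ * kap V X (ix V X) - v (ix V X)| ≤ ε + 3 * (T * ε₁) := by
      have e : σ * kap V X (ix V X) - v (ix V X) = (∑ j, S (ix V X) j * X j - v (ix V X)) -
          (∑ j, S (ix V X) j * X j - σ * kap V X (ix V X)) := by ring
      rw [e]
      exact (abs_sub _ _).trans (add_le_add hvi (hk _))
    have h2 : |σ - ivk T V X * v (ix V X)| ≤ 2 ^ 44 * T ^ 49 * (ε + 3 * (T * ε₁)) := by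
      have e : σ - ivk T V X * v (ix V X) =
          ivk T V X * (σ * kap V X (ix V X) - v (ix V X)) := by
        rw [hiv]
        field_simp
      rw [e, abs_mul]
      exact mul_le_mul (ivk_le hT1 V X) h1 (abs_nonneg _) (by positivity)
    have h3 : S i j - ivk T V X * v (ix V X) * cqf V i j = (S i j - σ * cqf V i j) +
        (σ - ivk T V X * v (ix V X)) * cqf V i j := by ring
    rw [h3, h87]
    refine (abs_add_le _ _).trans (add_le_add ((hσ i j).trans hb1) ?_)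
    rw [abs_mul]
    refine (mul_le_mul h2 hm (abs_nonneg _) (by positivity)).trans ?_
    have h4 : ε + 3 * (T * ε₁) ≤ 2 ^ 22 * T ^ 23 * ε := by
      rw [hε₁]
      have h5 : ε ≤ T ^ 23 * ε := le_mul_of_one_le_left hε0 (one_le_pow₀ hT1)
      have h6 : 3 * (T * (2 ^ 20 * T ^ 22 * ε)) = 3 * 2 ^ 20 * (T ^ 23 * ε) := by ring
      rw [h6]
      have h7 : 0 ≤ T ^ 23 * ε := by positivity
      linarith
    have h5 : 2 ^ 44 * T ^ 49 * (ε + 3 * (T * ε₁)) * (2 ^ 20 * T ^ 16) ≤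
        2 ^ 44 * T ^ 49 * (2 ^ 22 * T ^ 23 * ε) * (2 ^ 20 * T ^ 16) :=
      mul_le_mul_of_nonneg_right (mul_le_mul_of_nonneg_left h4 (by positivity)) (by positivity)
    refine h5.trans (le_of_eq ?_)
    ring
  · -- the form is small
    push Not at hc
    rw [← hμ] at hc
    have hiv : ivk T V X = 0 := by
      unfold ivk
      rw [if_neg (by rw [← hμ]; exact not_le.2 hc)]
    rw [hiv, zero_mul, zero_mul, sub_zero]
    have h1 : |σ| * |kap V X 0| ≤ ε + 9 * (T ^ 2 * ε₁) + 2 * (T * (|σ| * μ)) := by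
      have e : σ * kap V X 0 = σ * (kap V X 0 + X 1 * kap V X 1 + X 2 * kap V X 2) -
          (X 1 * (σ * kap V X 1) + X 2 * (σ * kap V X 2)) := by ring
      rw [← abs_mul, e]
      refine (abs_sub _ _).trans (add_le_add hnull ?_)
      refine (abs_add_le _ _).trans ?_
      have a1 : |X 1 * (σ * kap V X 1)| ≤ T * (|σ| * μ) := by
        rw [abs_mul, abs_mul]
        exact mul_le_mul (hXT 1) (mul_le_mul_of_nonneg_left hm1 (abs_nonneg _))
          (by positivity) hT0.le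
      have a2 : |X 2 * (σ * kap V X 2)| ≤ T * (|σ| * μ) := by
        rw [abs_mul, abs_mul]
        exact mul_le_mul (hXT 2) (mul_le_mul_of_nonneg_left hm2 (abs_nonneg _))
          (by positivity) hT0.le
      linarith
    have h2 := mul_le_mul_of_nonneg_left (kap_low h hX0) (abs_nonneg σ)
    have hσμ : 0 ≤ |σ| * μ := by positivity
    have h3 : |σ| ≤ 2 ^ 41 * T ^ 48 * (ε + 9 * (T ^ 2 * ε₁) + 4 * (T * (|σ| * μ))) := by
      have e1 : |σ| * (2 ^ 41 * T ^ 48 * (|kap V X 0| + |kap V X 1| + |kap V X 2|)) =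
          2 ^ 41 * T ^ 48 * (|σ| * |kap V X 0| + |σ| * |kap V X 1| + |σ| * |kap V X 2|) := by ring
      rw [mul_one, e1] at h2
      refine h2.trans (mul_le_mul_of_nonneg_left ?_ (by positivity))
      have a1 := mul_le_mul_of_nonneg_left hm1 (abs_nonneg σ)
      have a2 := mul_le_mul_of_nonneg_left hm2 (abs_nonneg σ)
      have a3 : |σ| * μ ≤ T * (|σ| * μ) := le_mul_of_one_le_left hσμ hT1
      linarith
    have h4 : 2 ^ 41 * T ^ 48 * (4 * (T * (|σ| * μ))) ≤ |σ| / 2 := by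
      have e1 : 2 ^ 41 * T ^ 48 * (4 * (T * (|σ| * μ))) = |σ| / 2 * (2 ^ 44 * T ^ 49 * μ) := by
        ring
      rw [e1]
      exact mul_le_of_le_one_right (by positivity) hc.le
    have h5 : |σ| ≤ 2 ^ 42 * T ^ 48 * (ε + 9 * (T ^ 2 * ε₁)) := by
      have e1 : 2 ^ 41 * T ^ 48 * (ε + 9 * (T ^ 2 * ε₁) + 4 * (T * (|σ| * μ))) =
          2 ^ 41 * T ^ 48 * (ε + 9 * (T ^ 2 * ε₁)) +
            2 ^ 41 * T ^ 48 * (4 * (T * (|σ| * μ))) := by ring
      rw [e1] at h3
      have e2 : 2 ^ 42 * T ^ 48 * (ε + 9 * (T ^ 2 * ε₁)) =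
          2 * (2 ^ 41 * T ^ 48 * (ε + 9 * (T ^ 2 * ε₁))) := by ring
      rw [e2]
      linarith
    have h6 : ε + 9 * (T ^ 2 * ε₁) ≤ 2 ^ 24 * T ^ 24 * ε := by
      rw [hε₁]
      have h5 : ε ≤ T ^ 24 * ε := le_mul_of_one_le_left hε0 (one_le_pow₀ hT1)
      have h6 : 9 * (T ^ 2 * (2 ^ 20 * T ^ 22 * ε)) = 9 * 2 ^ 20 * (T ^ 24 * ε) := by ring
      rw [h6]
      have h7 : 0 ≤ T ^ 24 * ε := by positivity
      linarith
    have h7 : |σ| ≤ 2 ^ 42 * T ^ 48 * (2 ^ 24 * T ^ 24 * ε) :=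
      h5.trans (mul_le_mul_of_nonneg_left h6 (by positivity))
    have e3 : S i j = (S i j - σ * cqf V i j) + σ * cqf V i j := by ring
    rw [e3, h87]
    refine (abs_add_le _ _).trans (add_le_add ((hσ i j).trans hb1) ?_)
    rw [abs_mul]
    refine (mul_le_mul h7 hm (abs_nonneg _) (by positivity)).trans (le_of_eq ?_)
    ring

end Pool.POP18
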