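import Pool.Agent.H18.D2.Cpo
import Pool.Agent.H18.D2.Cpd

/-!
# T2 at the law level

`con_law`: forms `S (Z) b` (a symmetric matrix at every node `b`) are small at the natural velocity
`X (E)` of the line, for most samples; the direction `E` is nearly free given the record `r` of `Z`, and
the velocity is in no hyperplane which is a function of `Z`. Then there are five directions `φ r`, a
function of the record, and an event of large probability on which the velocities of the five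
directions are in general position and all forms are small at them. On this event
(`cqf_near`, `con_one`) the forms are multiples of the conic `cqf` of the five velocities.
-/

set_option autoImplicit false

namespace Pool.POP18

open Finset Real
open Pool.Agent.H49.Ent Pool.Agent.H32.Dense Pool.STK Pool.K2S Pool.SPN Pool.D2A Pool.D2Con
open Pool.CUB46
open Pool.BFL (Pb)

variable {Ω ζ α ε β : Type} [Fintype Ω]

/-- The class: the forms are small at five vectors in general position. -/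
structure NulV (S : β → Fin 3 → Fin 3 → ℝ) (V : Fin 5 → Fin 3 → ℝ) (T ε₀ : ℝ) : Prop where
  gp : GP5 V T
  nul : ∀ b i, |q2 (S b) (V i) (V i)| ≤ ε₀

/-- **T2 at the law level.** -/
theorem con_law {q : Ω → ℝ} (hq : IsLaw q) (Z : Ω → ζ) (r : Ω → α) (E : Ω → ε)
    (hZr : Det q Z r) {κ : ℝ} (hκ : 0 ≤ κ) (hfr : CH q E r ≤ CH q E Z + κ)
    (X : ε → Fin 3 → ℝ) {η c T ε₀ : ℝ} (hη : 0 < η) (hc : c ≤ 1 / 1500) (hT : 1 ≤ T)
    (hTη : 1 ≤ T * η ^ 3) (hX : NoHyp q (fun ω => X (E ω)) Z η c)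
    (S : ζ → β → Fin 3 → Fin 3 → ℝ)
    (hP : Pb q (fun ω => (∃ j, T < |X (E ω) j|) ∨
      ∃ b, ε₀ < |q2 (S (Z ω) b) (X (E ω)) (X (E ω))|) ≤ 1 / 20) :
    ∃ φ : α → Fin 5 → ε, 1 / 4 * Real.exp (-(4 * (5 * κ + Real.log 2))) ≤
      Pe q (fun ω => NulV (S (Z ω)) (fun i => X (φ (r ω) i)) T ε₀) := by
  have hPP : Pb q (fun ω => ¬ ((∀ j, |X (E ω) j| ≤ T) ∧
      ∀ b, |q2 (S (Z ω) b) (X (E ω)) (X (E ω))| ≤ ε₀)) ≤ 1 / 20 := by
    refine le_trans (le_of_eq ?_) hP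
    congr 1
    funext ω
    rw [eq_iff_iff, not_and_or]
    push Not
    rfl
  obtain ⟨φ, hφ⟩ := con_pop hq Z r E hZr hκ hfr X hη hc hX
    (fun e z => (∀ j, |X e j| ≤ T) ∧ ∀ b, |q2 (S z b) (X e) (X e)| ≤ ε₀) hPP
  refine ⟨φ, hφ.trans (law_mono' hq.nonneg fun ω _ h => ?_)⟩
  refine ⟨⟨hT, fun i j => (h.1 i).1 j, fun js hjs => ?_⟩, fun b i => (h.1 i).2 b⟩
  refine hTη.trans (mul_le_mul_of_nonneg_left (h.2 js hjs) (zero_le_one.trans hT))

/-- The forms are near multiples of the conic. -/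
theorem NulV.near {S : β → Fin 3 → Fin 3 → ℝ} {V : Fin 5 → Fin 3 → ℝ} {T ε₀ : ℝ}
    (h : NulV S V T ε₀) (hS : ∀ b i j, S b i j = S b j i) (b : β) :
    ∃ σ : ℝ, ∀ i j, |S b i j - σ * cqf V i j| ≤ 2 ^ 20 * T ^ 22 * ε₀ :=
  cqf_near h.gp (hS b) (h.nul b)

/-- The form is closed. -/
theorem NulV.cls {S : β → Fin 3 → Fin 3 → ℝ} {V : Fin 5 → Fin 3 → ℝ} {T ε₀ : ℝ}
    (h : NulV S V T ε₀) (hS : ∀ b i j, S b i j = S b j i) (b : β) {X : Fin 3 → ℝ} (hX0 : X 0 = 1)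
    (hXT : ∀ j, |X j| ≤ T) (hSX : |q2 (S b) X X| ≤ ε₀) {v : Fin 3 → ℝ}
    (hv1 : |∑ j, S b 1 j * X j - v 1| ≤ ε₀) (hv2 : |∑ j, S b 2 j * X j - v 2| ≤ ε₀) (i j : Fin 3) :
    |S b i j - ivk T V X * v (ix V X) * cqf V i j| ≤ 2 ^ 87 * T ^ 88 * ε₀ :=
  con_one h.gp (hS b) (h.nul b) hX0 hXT hSX hv1 hv2 i j

end Pool.POP18
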