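import Pool.Agent.H18.D2.Pop
import Pool.Agent.H46.D2.Con3

/-!
# Five null directions of the record

`con_pop`: a direction `E` which is nearly free given the record `r` of `Z`, and in no hyperplane which
is a function of `Z`; for most samples `Z` and `E` have a property. Then there are five directions
which are a function of the record, in general position, such that `Z` has the property with all five
of them, with a large probability.

`con_one`: hence a symmetric matrix `S (Z)` with `|S(Z)(X, X)|` small is a multiple of a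
matrix which is a function of the record, and a closed value of a coordinate of `S(Z) X` makes the
multiple closed.
-/

set_option autoImplicit false

namespace Pool.POP18

open Finset Real
open Pool.Agent.H49.Ent Pool.Agent.H32.Dense Pool.STK Pool.K2S Pool.SPN Pool.D2A Pool.D2Con
open Pool.BFL (Pb)

section pop

variable {Ω ζ α ε : Type} [Fintype Ω]

theorem Pe_Pb (q : Ω → ℝ) (A : Ω → Prop) : Pe q A = Pb q A := by
  classical
  unfold Pe law Pb
  refine Finset.sum_congr rfl fun w _ => ?_
  by_cases h : A w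
  · simp [h]
  · simp [h]

theorem Pe_exs {ι : Type} {q : Ω → ℝ} (hq : ∀ w, 0 ≤ q w) (S : Finset ι)
    (A : ι → Ω → Prop) : Pe q (fun w => ∃ i ∈ S, A i w) ≤ ∑ i ∈ S, Pe q (A i) := by
  classical
  simp only [Pe_Pb]
  unfold Pb
  rw [Finset.sum_comm]
  refine Finset.sum_le_sum fun w _ => ?_
  have h2 : ∀ i ∈ S, 0 ≤ (if A i w then q w else 0) := fun i _ => by
    split_ifs
    exacts [hq w, le_rfl]
  by_cases h3 : ∃ i ∈ S, A i w
  · rw [if_pos h3]
    obtain ⟨i, hi, h4⟩ := h3
    have := Finset.single_le_sum h2 hi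
    rwa [if_pos h4] at this
  · rw [if_neg h3]
    exact Finset.sum_nonneg h2

/-- **Five directions of the record.** -/
theorem con_pop {q : Ω → ℝ} (hq : IsLaw q) (Z : Ω → ζ) (r : Ω → α) (E : Ω → ε)
    (hZr : Det q Z r) {κ : ℝ} (hκ : 0 ≤ κ) (hfr : CH q E r ≤ CH q E Z + κ)
    (X : ε → Fin 3 → ℝ) {η c : ℝ} (hη : 0 < η) (hc : c ≤ 1 / 1500)
    (hX : NoHyp q (fun ω => X (E ω)) Z η c) (P : ε → ζ → Prop)
    (hP : Pb q (fun ω => ¬ P (E ω) (Z ω)) ≤ 1 / 20) :
    ∃ φ : α → Fin 5 → ε, 1 / 4 * Real.exp (-(4 * (5 * κ + Real.log 2))) ≤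
      Pe q (fun ω => (∀ i, P (φ (r ω) i) (Z ω)) ∧ ∀ js : Fin 3 → Fin 5, Function.Injective js →
        η ^ 3 ≤ |(Matrix.of (fun i => X (φ (r ω) (js i)))).det|) := by
  classical
  have hQ := CP_isLaw (N := 5) hq Z
  obtain ⟨B, hB⟩ : ∃ B : (Fin 5 → ε) → ζ → Prop, B = fun f z => (∀ i, P (f i) z) ∧
    ∀ js : Fin 3 → Fin 5, Function.Injective js →
      η ^ 3 ≤ |(Matrix.of (fun i => X (f (js i)))).det| := ⟨_, rfl⟩
  -- the first property
  have h1 : Pe (CP 5 q Z) (fun w => ∃ i ∈ (Finset.univ : Finset (Fin 5)),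
      ¬ P (E (cy i w)) (Z w.1.1)) ≤ 1 / 4 := by
    refine (Pe_exs hQ.nonneg _ _).trans ?_
    have h2 : ∀ i ∈ (Finset.univ : Finset (Fin 5)),
        Pe (CP 5 q Z) (fun w => ¬ P (E (cy i w)) (Z w.1.1)) ≤ 1 / 20 := by
      intro i _
      have h3 := (PL_cp hq Z Z (fun _ : Fin 5 => true) i).law
        (fun ω => ¬ P (E ω) (Z ω)) True
      have h3' := Pe_Pb q (fun ω => ¬ P (E ω) (Z ω))
      rw [← h3'] at hP
      refine le_trans (law_mono' hQ.nonneg fun w hw h => ?_) (h3.le.trans hP)
      have h4 := ((CP_pos hq hw).2 i).2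
      rw [← h4] at h
      exact h
    refine (Finset.sum_le_card_nsmul _ _ _ h2).trans (le_of_eq ?_)
    rw [Finset.card_univ, Fintype.card_fin]
    norm_num
  -- the second property
  have h2 : Pe (CP 5 q Z) (fun w => ∃ js ∈ (Finset.univ : Finset (Fin 3 → Fin 5)),
      Function.Injective js ∧ |(Matrix.of (fun i => X (E (cy (js i) w)))).det| < η ^ 3) ≤
        1 / 4 := by
    refine (Pe_exs hQ.nonneg _ _).trans ?_
    have h3 : ∀ js ∈ (Finset.univ : Finset (Fin 3 → Fin 5)),
        Pe (CP 5 q Z) (fun w => Function.Injective js ∧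
          |(Matrix.of (fun i => X (E (cy (js i) w)))).det| < η ^ 3) ≤ 1 / 500 := by
      intro js _
      by_cases hjs : Function.Injective js
      · have h4 := span_PL hq hX hη Z (fun _ : Fin 5 => true) true js hjs (fun _ => rfl)
        refine (law_mono' hQ.nonneg fun w _ h => h.2).trans (h4.trans ?_)
        push_cast
        linarith
      · refine le_trans (le_of_eq ?_) (by norm_num : (0 : ℝ) ≤ 1 / 500)
        unfold Pe law
        refine Finset.sum_eq_zero fun w _ => ?_
        rw [if_neg]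
        simp [hjs]
    refine (Finset.sum_le_card_nsmul _ _ _ h3).trans (le_of_eq ?_)
    rw [Finset.card_univ, Fintype.card_fun, Fintype.card_fin, Fintype.card_fin]
    norm_num
  have h3 : (1 / 2 : ℝ) ≤ Pe (CP 5 q Z) (fun w => B (fun i => E (cy i w)) (Z w.1.1)) := by
    have h4 := law_or hQ.nonneg (fun w => ¬ B (fun i => E (cy i w)) (Z w.1.1))
      (fun w => ∃ i ∈ (Finset.univ : Finset (Fin 5)), ¬ P (E (cy i w)) (Z w.1.1))
      (fun w => ∃ js ∈ (Finset.univ : Finset (Fin 3 → Fin 5)),
        Function.Injective js ∧ |(Matrix.of (fun i => X (E (cy (js i) w)))).det| < η ^ 3)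
      (fun w _ hG => by
        by_contra hcon
        push Not at hcon
        refine hG ?_
        rw [hB]
        exact ⟨fun i => hcon.1 i (Finset.mem_univ i),
          fun js hjs => hcon.2 js (Finset.mem_univ js) hjs⟩)
    have h5 : Pe (CP 5 q Z) (fun w => B (fun i => E (cy i w)) (Z w.1.1)) +
        Pe (CP 5 q Z) (fun w => ¬ B (fun i => E (cy i w)) (Z w.1.1)) = 1 := by
      rw [← hQ.sum_one]
      unfold Pe law
      rw [← Finset.sum_add_distrib]
      refine Finset.sum_congr rfl fun w _ => ?_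
      by_cases h : B (fun i => E (cy i w)) (Z w.1.1)
      · simp [h]
      · simp [h]
    have h6 : Pe (CP 5 q Z) (fun w => ¬ B (fun i => E (cy i w)) (Z w.1.1)) ≤ 1 / 2 := by
      refine h4.trans ?_
      linarith [h1, h2]
    linarith
  obtain ⟨φ, hφ⟩ := pop_cop hq Z r E hZr hκ hfr B (by norm_num : (0 : ℝ) < 1 / 2) h3
  refine ⟨φ, ?_⟩
  rw [hB] at hφ
  refine le_trans (le_of_eq ?_) hφ
  norm_num

end pop

end Pool.POP18
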