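import Pool.Agent.H18.D2.Ene
import Pool.Agent.H46.D2.NoLb

/-!
# The end: the label of the target from the labels of the tube

`EH`: the facts on the lines of an event. `en_lab`: if the differences of the chart of the ball and
the tube labels at the nodes are small on the window of the ball, then the chart of the ball is a
label of the target, closed on the window `w`, on the natural boxes of the radius `w + Q + 1`.
-/

set_option autoImplicit false

namespace Pool.END18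

open Finset Real MvPolynomial
open Pool.Agent.H49.Ent Pool.Agent.H32.Dense Pool.STK Pool.KA Pool.KSAT Pool.K2S Pool.PB Pool.S6C
open Pool.GEN Pool.CHT Pool.D2R Pool.D2G30 Pool.V1E Pool.ISO
open Pool.PB.Trl (rt rt_mem t_rt)
open Pool.NLB46 (Lab)

/-- Values from the coefficients. -/
theorem eval_coef {D : ℕ} {R : Polynomial ℝ} {μ : ℝ} (hd : R.natDegree ≤ D)
    (h : ∀ j ≤ D, |R.coeff j| ≤ μ) {τ : ℝ} (hτ : |τ| ≤ 2) :
    |R.eval τ| ≤ (D + 1) * 2 ^ D * μ := by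
  have hμ : 0 ≤ μ := (abs_nonneg _).trans (h 0 (Nat.zero_le _))
  rw [Polynomial.eval_eq_sum_range' (Nat.lt_succ_of_le hd)]
  refine (Finset.abs_sum_le_sum_abs _ _).trans ?_
  have h1 : ∀ j ∈ range (D + 1), |R.coeff j * τ ^ j| ≤ 2 ^ D * μ := by
    intro j hj
    rw [Finset.mem_range] at hj
    rw [abs_mul, abs_pow, mul_comm]
    refine mul_le_mul ?_ (h j (by omega)) (abs_nonneg _) (by positivity)
    exact (pow_le_pow_left₀ (abs_nonneg _) hτ j).trans
      (pow_le_pow_right₀ (by norm_num) (by omega))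
  refine (Finset.sum_le_card_nsmul _ _ _ h1).trans (le_of_eq ?_)
  rw [Finset.card_range, nsmul_eq_mul]
  push_cast
  ring

/-- **The gradient on a box**, in the direction of a coordinate. -/
theorem grad_box (r K D : ℕ) : ∃ C : ℝ, 1 ≤ C ∧ ∀ {m : ℕ} {c : ℕ → Fin m}
    {ψ : ℕ → MvPolynomial (Option (Fin m)) ℝ} {Q : MvPolynomial (Option (Fin m)) ℝ}
    {g : ℕ → ℕ} {a e : ℕ} {M : ℝ} {x : Option (Fin m) → ℝ}, Set.InjOn c (Set.Iio r) →
    (∀ l, (ψ l).totalDegree ≤ K) → (∀ l, DepC c l (ψ l)) → DepC c r Q → Q.totalDegree ≤ D →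
    0 ≤ M → (∀ b, NBx c ψ g a (x none) r b → |eval b Q| ≤ M) →
    (∀ l < r, |x (some (c l)) - eval x (ψ l)| ≤ 1 / 2 ^ g l) →
    (∀ i < r, ∀ l < i, |eval x (pderiv (some (c l)) (ψ i))| ≤ 2 ^ (e + nlp g l i)) →
    ∀ l < r, |eval x (pderiv (some (c l)) Q)| ≤ C * M * 2 ^ (e + (Finset.Icc l (r - 1)).sup g) := by
  classical
  obtain ⟨C, hC, h⟩ := box_nat r K D
  refine ⟨C, hC, ?_⟩
  intro m c ψ Q g a e M x hc hψ hψd hQ hQD hM hbox hx hlip l hl
  obtain ⟨S, hS⟩ : ∃ S, S = (Finset.Icc l (r - 1)).sup g := ⟨_, rfl⟩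
  rw [← hS]
  obtain ⟨δ, hδ⟩ : ∃ δ : ℝ, δ = 1 / 2 ^ (e + S) := ⟨_, rfl⟩
  have hδ0 : 0 < δ := by rw [hδ]; positivity
  obtain ⟨W, hW⟩ : ∃ W : Option (Fin m) → ℝ, W = fun o => if o = some (c l) then δ else 0 :=
    ⟨_, rfl⟩
  have hdd : ∀ R : MvPolynomial (Option (Fin m)) ℝ,
      dd R x W = eval x (pderiv (some (c l)) R) * δ := by
    intro R
    unfold dd
    rw [Finset.sum_eq_single (some (c l))]
    · rw [hW]
      show _ * (if some (c l) = some (c l) then δ else 0) = _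
      rw [if_pos rfl]
    · intro o _ ho
      rw [hW]
      show _ * (if o = some (c l) then δ else 0) = 0
      rw [if_neg ho, mul_zero]
    · intro h'
      exact absurd (Finset.mem_univ _) h'
  have h1 := (h hc hψ hψd hQ hQD hM hbox hx W (by
    rw [hW]
    show |if (none : Option (Fin m)) = some (c l) then δ else 0| ≤ _
    rw [if_neg (by simp), abs_zero]
    positivity) (fun i hi => by
    rw [hdd]
    rcases lt_trichotomy i l with h2 | h2 | h2
    · have h3 : W (some (c i)) = 0 := by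
        rw [hW]
        refine if_neg fun h' => ?_
        have := hc (show i < r from hi) (show l < r from hl) (Option.some_injective _ h')
        omega
      rw [h3, pd_zero (hψd i) (fun j hj h' => by
        have := hc (show j < r by omega) (show l < r from hl) h'
        omega), zero_mul, sub_zero, abs_zero]
      positivity
    · subst h2
      have h3 : W (some (c i)) = δ := by
        rw [hW]
        exact if_pos rfl
      rw [h3, pd_zero (hψd i) (fun j hj h' => by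
        have := hc (show j < r by omega) (show i < r from hl) h'
        omega), zero_mul, sub_zero, abs_of_pos hδ0, hδ]
      refine inv_mono ?_
      have : g i ≤ S := by
        rw [hS]
        exact Finset.le_sup (f := g) (Finset.mem_Icc.2 ⟨le_rfl, by omega⟩)
      omega
    · have h3 : W (some (c i)) = 0 := by
        rw [hW]
        refine if_neg fun h' => ?_
        have := hc (show i < r from hi) (show l < r from hl) (Option.some_injective _ h')
        omega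
      rw [h3, zero_sub, abs_neg, abs_mul, abs_of_pos hδ0]
      refine (mul_le_mul_of_nonneg_right (hlip i hi l h2) hδ0.le).trans ?_
      rw [hδ, mul_one_div, div_le_div_iff₀ (by positivity) (by positivity), one_mul, ← pow_add]
      refine pow_le_pow_right₀ (by norm_num) ?_
      unfold nlp
      have h4 : (Finset.Icc l i).sup g ≤ S := by
        rw [hS]
        exact Finset.sup_mono (Finset.Icc_subset_Icc le_rfl (by omega))
      have h5 : g i ≤ (Finset.Icc l i).sup g :=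
        Finset.le_sup (f := g) (Finset.mem_Icc.2 ⟨h2.le, le_rfl⟩)
      omega)).1
  rw [hdd, abs_mul, abs_of_pos hδ0] at h1
  have h2 : |eval x (pderiv (some (c l)) Q)| = |eval x (pderiv (some (c l)) Q)| * δ *
      2 ^ (e + S) := by
    rw [hδ]
    field_simp
  rw [h2]
  exact mul_le_mul_of_nonneg_right h1 (by positivity)

variable {m J : ℕ}

theorem trn_lt {n l : ℕ} (P : ℕ → MvPolynomial (Option (Fin m)) ℝ) (h : l < n) :
    trn n P l = P l := if_pos h

theorem deg_trn {n K : ℕ} {P : ℕ → MvPolynomial (Option (Fin m)) ℝ}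
    (h : ∀ l, (P l).totalDegree ≤ K) (l : ℕ) : (trn n P l).totalDegree ≤ K := by
  unfold trn
  split_ifs
  · exact h l
  · rw [totalDegree_zero]
    exact Nat.zero_le _

theorem dep_trn {n : ℕ} {c : ℕ → Fin m} {P : ℕ → MvPolynomial (Option (Fin m)) ℝ}
    (h : ∀ l, DepC c l (P l)) (l : ℕ) : DepC c l (trn n P l) := by
  unfold trn
  split_ifs
  · exact h l
  · intro b b' _ _
    rw [map_zero, map_zero]

/-- The charts of the frame, through the point. -/
noncomputable def Gf (F : Fam m J) (c : ℕ → Fin m)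
    (G₀ : PtT F → ℕ → MvPolynomial (Option (Fin m)) ℝ) (y : PtT F) (l : ℕ) :
    MvPolynomial (Option (Fin m)) ℝ := Gno (c l) J J (fun y => G₀ y l) y

/-- The charts of the frame, through the line. -/
noncomputable def Hf (F : Fam m J) (c : ℕ → Fin m)
    (H₀ : LnT F → ℕ → MvPolynomial (Option (Fin m)) ℝ) (s : LnT F) (l : ℕ) :
    MvPolynomial (Option (Fin m)) ℝ := Hno (c l) (fun s => H₀ s l) s

/-- **The facts on the lines of an event**, without the target: frame of the window `w - q₀`,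
re-centred at the radius `w + Q`; `G₂`: a chart of the ball, closed on the window `w + Q` (`H₂`);
`H₁`: a closed chart of the window `w`; centre `z₀ + z₁ u` of the tube. -/
structure EN (F : Fam m J) (c : ℕ → Fin m) (s gc : ℕ → ℕ) (d Dc w q₀ Q e X : ℕ)
    (A : F.Ω → Prop) (G₀ : PtT F → ℕ → MvPolynomial (Option (Fin m)) ℝ)
    (G₂ : PtT F → MvPolynomial (Option (Fin m)) ℝ)
    (H₀ : LnT F → ℕ → MvPolynomial (Option (Fin m)) ℝ)
    (H₁ H₂ : LnT F → MvPolynomial (Option (Fin m)) ℝ) (z₀ z₁ : LnT F → Fin d → ℝ) : Prop where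
  inj : Set.InjOn c (Set.Iio d)
  Dc1 : 1 ≤ Dc
  wQ : w + Q ≤ J
  qw : q₀ ≤ w
  cl : ∀ ω, A ω → G₂ (ptr F J ω) = H₂ (slam F (w + Q) ω)
  dG₀ : ∀ y l, (G₀ y l).totalDegree ≤ Dc
  dH₀ : ∀ L l, (H₀ L l).totalDegree ≤ Dc
  pH₀ : ∀ L l, DepC c l (H₀ L l)
  dH₁ : ∀ L, (H₁ L).totalDegree ≤ Dc
  pH₁ : ∀ L, DepC c d (H₁ L)
  dG₂ : ∀ y, (G₂ y).totalDegree ≤ Dc
  pG₂ : ∀ y, DepC c d (G₂ y)
  dH₂ : ∀ L, (H₂ L).totalDegree ≤ Dc
  pH₂ : ∀ L, DepC c d (H₂ L)
  top : ChOK F c d (fun _ => Dc) (w + Q) (w - q₀) e gc A (Gf F c G₀) (Hf F c H₀)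
  gcs : ∀ l < d, Q + s l ≤ gc l + X
  own : ∀ ω, A ω → ∀ u : ℝ, |u| ≤ 2 → ∀ i : Fin d,
    |2 ^ Q * (hL c s d w (frH F d q₀ H₀ (slam F w ω)) (slam F w ω) (some i)).eval u -
      (z₀ (slam F w ω) i + z₁ (slam F w ω) i * u)| ≤ 2

/-- **The facts on the lines of an event**: frame of the window `w - q₀`, re-centred at the radius
`w + Q`; chart of the ball of the target, closed on the window `w + Q`; closed chart `H₁` of the
target on the window `w`; centre `z₀ + z₁ u` of the tube. -/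
structure EH (F : Fam m J) (c : ℕ → Fin m) (s gc : ℕ → ℕ) (d Dc w q₀ Q e X p : ℕ)
    (A : F.Ω → Prop) (G₀ : PtT F → ℕ → MvPolynomial (Option (Fin m)) ℝ)
    (G₂ : PtT F → MvPolynomial (Option (Fin m)) ℝ)
    (H₀ : LnT F → ℕ → MvPolynomial (Option (Fin m)) ℝ)
    (H₁ H₂ : LnT F → MvPolynomial (Option (Fin m)) ℝ) (z₀ z₁ : LnT F → Fin d → ℝ) : Prop where
  inj : Set.InjOn c (Set.Iio d)
  Dc1 : 1 ≤ Dc
  wQ : w + Q ≤ J
  qw : q₀ ≤ w
  cl : ∀ ω, A ω → G₂ (ptr F J ω) = H₂ (slam F (w + Q) ω)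
  dG₀ : ∀ y l, (G₀ y l).totalDegree ≤ Dc
  dH₀ : ∀ L l, (H₀ L l).totalDegree ≤ Dc
  pH₀ : ∀ L l, DepC c l (H₀ L l)
  dH₁ : ∀ L, (H₁ L).totalDegree ≤ Dc
  pH₁ : ∀ L, DepC c d (H₁ L)
  dG₂ : ∀ y, (G₂ y).totalDegree ≤ Dc
  pG₂ : ∀ y, DepC c d (G₂ y)
  dH₂ : ∀ L, (H₂ L).totalDegree ≤ Dc
  pH₂ : ∀ L, DepC c d (H₂ L)
  pos : ∀ ω, A ω → |F.x ω (c d) - eval (bt F ω) (G₂ (ptr F J ω))| ≤ 1 / 2 ^ p
  top : ChOK F c d (fun _ => Dc) (w + Q) (w - q₀) e gc A (Gf F c G₀) (Hf F c H₀)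
  gcs : ∀ l < d, Q + s l ≤ gc l + X
  own : ∀ ω, A ω → ∀ u : ℝ, |u| ≤ 2 → ∀ i : Fin d,
    |2 ^ Q * (hL c s d w (frH F d q₀ H₀ (slam F w ω)) (slam F w ω) (some i)).eval u -
      (z₀ (slam F w ω) i + z₁ (slam F w ω) i * u)| ≤ 2
  grd : ∀ ω, A ω → ∀ b, NBx c (Gf F c G₀ (ptr F J ω)) gc (w + Q) (F.t ω) d b → ∀ l < d,
    |eval b (pderiv (some (c l)) (H₁ (slam F w ω)))| ≤
      2 ^ (e + nlp (fun j => if j < d then gc j else p) l d)

theorem EH.en {F : Fam m J} {c : ℕ → Fin m} {s gc : ℕ → ℕ} {d Dc w q₀ Q e X p : ℕ}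
    {A : F.Ω → Prop} {G₀ : PtT F → ℕ → MvPolynomial (Option (Fin m)) ℝ}
    {G₂ : PtT F → MvPolynomial (Option (Fin m)) ℝ}
    {H₀ : LnT F → ℕ → MvPolynomial (Option (Fin m)) ℝ}
    {H₁ H₂ : LnT F → MvPolynomial (Option (Fin m)) ℝ} {z₀ z₁ : LnT F → Fin d → ℝ}
    (h : EH F c s gc d Dc w q₀ Q e X p A G₀ G₂ H₀ H₁ H₂ z₀ z₁) :
    EN F c s gc d Dc w q₀ Q e X A G₀ G₂ H₀ H₁ H₂ z₀ z₁ :=
  ⟨h.inj, h.Dc1, h.wQ, h.qw, h.cl, h.dG₀, h.dH₀, h.pH₀, h.dH₁, h.pH₁, h.dG₂, h.pG₂, h.dH₂, h.pH₂,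
    h.top, h.gcs, h.own⟩

/-- The label of the line. -/
noncomputable def Ht (F : Fam m J) (c : ℕ → Fin m) (s : ℕ → ℕ) (K d w q₀ Q : ℕ)
    (H₀ : LnT F → ℕ → MvPolynomial (Option (Fin m)) ℝ)
    (H₁ : LnT F → MvPolynomial (Option (Fin m)) ℝ) (z₀ z₁ : LnT F → Fin d → ℝ)
    (Pt : LnT F → Gr K d → Polynomial ℝ) (L : LnT F) : MvPolynomial (Option (Fin m)) ℝ :=
  enH c s K d w Q (frH F d q₀ H₀ L) (H₁ L) (z₀ L) (z₁ L) L.2.2 (Pt L)

/-- The difference at a node, a polynomial of the line in the window of the ball. -/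
noncomputable def Rt (F : Fam m J) (c : ℕ → Fin m) (s : ℕ → ℕ) (K d w q₀ Q : ℕ)
    (H₀ : LnT F → ℕ → MvPolynomial (Option (Fin m)) ℝ)
    (H₁ H₂ : LnT F → MvPolynomial (Option (Fin m)) ℝ) (z₀ z₁ : LnT F → Fin d → ℝ)
    (Pt : LnT F → Gr K d → Polynomial ℝ) (β : Gr K d) (L' : LnT F) : Polynomial ℝ :=
  enR c s K d Q (w + Q) L'.2.2 ((L'.2.2 : ℝ) / 2 ^ Q - ((co Q L').2.2 : ℝ)) (z₀ (co Q L'))
    (z₁ (co Q L')) (frH F d q₀ H₀ (co Q L')) (H₂ L' - H₁ (co Q L')) (Pt (co Q L')) β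

section det

variable {F : Fam m J} {c : ℕ → Fin m} {s gc : ℕ → ℕ} {K d Dc w q₀ Q e X p : ℕ}
  {A : F.Ω → Prop} {G₀ : PtT F → ℕ → MvPolynomial (Option (Fin m)) ℝ}
  {G₂ : PtT F → MvPolynomial (Option (Fin m)) ℝ}
  {H₀ : LnT F → ℕ → MvPolynomial (Option (Fin m)) ℝ}
  {H₁ H₂ : LnT F → MvPolynomial (Option (Fin m)) ℝ} {z₀ z₁ : LnT F → Fin d → ℝ}

/-- The heights in the tube of the points of the box. -/
theorem EN.enx_bd (h : EN F c s gc d Dc w q₀ Q e X A G₀ G₂ H₀ H₁ H₂ z₀ z₁) {ω : F.Ω}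
    (hω : A ω) {b : Option (Fin m) → ℝ}
    (hb : NBx c (Gf F c G₀ (ptr F J ω)) gc (w + Q) (F.t ω) d b) (i : Fin d) :
    |enx c s d w Q (frH F d q₀ H₀ (slam F w ω)) (z₀ (slam F w ω)) (z₁ (slam F w ω))
      (slam F w ω).2.2 b i| ≤ 2 ^ (X + 2) := by
  have hwJ : w ≤ J := (Nat.le_add_right w Q).trans h.wQ
  have hco : co q₀ (slam F w ω) = slam F (w - q₀) ω := by
    have := co_slam F (Nat.sub_le w q₀) hwJ ω
    rwa [Nat.sub_sub_self h.qw] at this
  obtain ⟨u, hu⟩ : ∃ u : ℝ, u = 2 ^ w * b none - ((slam F w ω).2.2 : ℝ) := ⟨_, rfl⟩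
  have hu1 : u = rt F w ω + 2 ^ w * (b none - F.t ω) := by
    have h1 := t_rt F hwJ ω
    have h2 : (2 : ℝ) ^ w * F.t ω = ((slam F w ω).2.2 : ℝ) + rt F w ω := by
      rw [h1]
      field_simp
    rw [hu]
    linarith
  have hu2 : |u| ≤ 2 := by
    rw [hu1]
    refine (abs_add_le _ _).trans ?_
    have h1 := rt_mem F w ω
    rw [abs_of_nonneg h1.1, abs_mul, abs_of_pos (show (0 : ℝ) < 2 ^ w by positivity)]
    have h2 : (2 : ℝ) ^ w * |b none - F.t ω| ≤ 2 ^ w * (1 / 2 ^ (w + Q)) :=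
      mul_le_mul_of_nonneg_left hb.1 (by positivity)
    have h3 : (2 : ℝ) ^ w * (1 / 2 ^ (w + Q)) ≤ 1 := by
      rw [mul_one_div, div_le_one (by positivity)]
      exact pow_le_pow_right₀ (by norm_num) (Nat.le_add_right _ _)
    linarith [h1.2]
  -- the height of the line
  have hfr : frH F d q₀ H₀ (slam F w ω) i = H₀ (co q₀ (slam F w ω)) i := trn_lt _ i.isLt
  have hown := h.own ω hω u hu2 i
  have hLe : (hL c s d w (frH F d q₀ H₀ (slam F w ω)) (slam F w ω) (some i)).eval u =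
      2 ^ s i * eso (c i) (fun s => H₀ s i) (co q₀ (slam F w ω)) (b none) := by
    show ((hcur c s (frH F d q₀ H₀ (slam F w ω)) d (lc w (slam F w ω))) (some i)).eval u = _
    unfold hcur
    rw [Polynomial.eval_mul, Polynomial.eval_C, Polynomial.eval_sub, eval_aev, hfr]
    have e1 : ((slam F w ω).2.2 : ℝ) + u = 2 ^ w * b none := by rw [hu]; ring
    have e2 : ∀ o, (lc w (slam F w ω) o).eval u = blo (slam F w ω) (b none) o := by
      intro o
      rw [eval_lc', e1]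
      congr 1
      field_simp
    rw [e2, funext e2]
    rfl
  -- the three differences
  have hi : (i : ℕ) < d := i.isLt
  have h1 := hb.2 i hi
  have h2 := h.top.agr ω hω i hi b (hb.mono le_rfl hi.le)
  have h3 : eval b (Hf F c H₀ (slam F (w - q₀) ω) i) = eval b (H₀ (co q₀ (slam F w ω)) i) +
      eso (c i) (fun s => H₀ s i) (co q₀ (slam F w ω)) (b none) := by
    rw [hco]
    exact eval_Hno _ _ _ _
  have e3 : enx c s d w Q (frH F d q₀ H₀ (slam F w ω)) (z₀ (slam F w ω)) (z₁ (slam F w ω))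
      (slam F w ω).2.2 b i = (2 ^ Q *
        (hL c s d w (frH F d q₀ H₀ (slam F w ω)) (slam F w ω) (some i)).eval u -
        (z₀ (slam F w ω) i + z₁ (slam F w ω) i * u)) + 2 ^ (Q + s i) *
      ((b (some (c i)) - eval b (Gf F c G₀ (ptr F J ω) i)) +
        (eval b (Gf F c G₀ (ptr F J ω) i) - eval b (Hf F c H₀ (slam F (w - q₀) ω) i))) := by
    unfold enx
    rw [hLe, hfr, h3, hu, pow_add]
    ring
  rw [e3]
  refine (abs_add_le _ _).trans ?_
  have h4 : |2 ^ (Q + s i) * ((b (some (c i)) - eval b (Gf F c G₀ (ptr F J ω) i)) +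
        (eval b (Gf F c G₀ (ptr F J ω) i) - eval b (Hf F c H₀ (slam F (w - q₀) ω) i)))| ≤
      2 * 2 ^ X := by
    rw [abs_mul, abs_of_pos (show (0 : ℝ) < 2 ^ (Q + s i) by positivity)]
    have h5 := (abs_add_le (b (some (c i)) - eval b (Gf F c G₀ (ptr F J ω) i))
      (eval b (Gf F c G₀ (ptr F J ω) i) - eval b (Hf F c H₀ (slam F (w - q₀) ω) i))).trans
      (add_le_add h1 h2)
    refine (mul_le_mul_of_nonneg_left h5 (by positivity)).trans ?_
    have h6 : (2 : ℝ) ^ (Q + s i) * (1 / 2 ^ gc i + 1 / 2 ^ gc i) =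
        2 * (2 ^ (Q + s i) / 2 ^ gc i) := by ring
    rw [h6]
    refine mul_le_mul_of_nonneg_left ?_ (by norm_num)
    rw [div_le_iff₀ (by positivity), ← pow_add]
    refine pow_le_pow_right₀ (by norm_num) ?_
    have := h.gcs i hi
    omega
  have h7 : (1 : ℝ) ≤ 2 ^ X := one_le_pow₀ (by norm_num)
  have h8 : (2 : ℝ) ^ (X + 2) = 2 ^ X * 4 := by ring
  rw [h8]
  linarith

/-- The constant. -/
noncomputable def cE (K d D : ℕ) : ℝ :=
  ((K + 1) ^ d : ℕ) * ((2 * (K + 1) * 4) ^ K) ^ d * (((max K D : ℕ) + 1) * 2 ^ (max K D))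

theorem one_le_cE (K d D : ℕ) : 1 ≤ cE K d D := by
  have h0 : (0 : ℝ) ≤ K := Nat.cast_nonneg K
  have h1 : (1 : ℝ) ≤ ((K + 1) ^ d : ℕ) := by exact_mod_cast Nat.one_le_pow _ _ (Nat.succ_pos K)
  have h2 : (1 : ℝ) ≤ ((2 * ((K : ℝ) + 1) * 4) ^ K) ^ d :=
    one_le_pow₀ (one_le_pow₀ (by linarith))
  have h3 : (1 : ℝ) ≤ (((max K D : ℕ) : ℝ) + 1) * 2 ^ (max K D) := by
    have h4 : (1 : ℝ) ≤ ((max K D : ℕ) : ℝ) + 1 := by
      have : (0 : ℝ) ≤ ((max K D : ℕ) : ℝ) := Nat.cast_nonneg _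
      linarith
    exact one_le_mul_of_one_le_of_one_le h4 (one_le_pow₀ (by norm_num))
  unfold cE
  exact one_le_mul_of_one_le_of_one_le (one_le_mul_of_one_le_of_one_le h1 h2) h3

theorem ell_X {β : Gr K d} {x : Fin d → ℝ} (hx : ∀ i, |x i| ≤ 2 ^ (X + 2)) :
    |ell K β x| ≤ ((2 * (K + 1) * 4) ^ K) ^ d * 2 ^ (X * K * d) := by
  refine (ell_grow β (one_le_pow₀ (by norm_num)) hx).trans (le_of_eq ?_)
  have e1 : 2 * ((K : ℝ) + 1) * 2 ^ (X + 2) = 2 * (K + 1) * 4 * 2 ^ X := by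
    rw [pow_add]
    ring
  have e2 : (2 : ℝ) ^ (X * K * d) = ((2 ^ X) ^ K) ^ d := by rw [pow_mul, pow_mul]
  rw [e1, mul_pow _ ((2 : ℝ) ^ X), mul_pow _ (((2 : ℝ) ^ X) ^ K), e2]

/-- The line in the window of the ball, and its window. -/
theorem EN.sl (h : EN F c s gc d Dc w q₀ Q e X A G₀ G₂ H₀ H₁ H₂ z₀ z₁) (ω : F.Ω) :
    co Q (slam F (w + Q) ω) = slam F w ω := by
  have := co_slam F (Nat.le_add_right w Q) h.wQ ω
  rwa [Nat.add_sub_cancel_left] at this

/-- **The chart of the ball and the label of the line** on the natural box. -/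
theorem EN.agr (h : EN F c s gc d Dc w q₀ Q e X A G₀ G₂ H₀ H₁ H₂ z₀ z₁) {D : ℕ} (hK : 1 ≤ K)
    (hDK : (Dc * (Dc + 1) ^ d) ≤ K) {Pt : LnT F → Gr K d → Polynomial ℝ}
    (hPt : ∀ L β, (Pt L β).natDegree ≤ D) {ω : F.Ω} (hω : A ω) {μ : ℝ}
    (hμ : ∀ β, ∀ j ≤ max K D,
      |(Rt F c s K d w q₀ Q H₀ H₁ H₂ z₀ z₁ Pt β (slam F (w + Q) ω)).coeff j| ≤ μ)
    {b : Option (Fin m) → ℝ}
    (hb : NBx c (Gf F c G₀ (ptr F J ω)) gc (w + Q) (F.t ω) d b) :
    |eval b (G₂ (ptr F J ω)) - eval b (Ht F c s K d w q₀ Q H₀ H₁ z₀ z₁ Pt (slam F w ω))| ≤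
      cE K d D * 2 ^ (X * K * d) * μ / 2 ^ s d := by
  have hμ0 : 0 ≤ μ := (abs_nonneg _).trans (hμ (fun _ => 0) 0 (Nat.zero_le _))
  have hx := h.enx_bd hω hb
  obtain ⟨τ, hτ⟩ : ∃ τ : ℝ, τ = 2 ^ (w + Q) * b none - ((slam F (w + Q) ω).2.2 : ℝ) := ⟨_, rfl⟩
  have hτ' : b none = (((slam F (w + Q) ω).2.2 : ℝ) + τ) / 2 ^ (w + Q) := by
    rw [hτ]
    field_simp
    ring
  have hτ2 : |τ| ≤ 2 := by
    have h1 := t_rt F h.wQ ω
    have h2 : (2 : ℝ) ^ (w + Q) * F.t ω = ((slam F (w + Q) ω).2.2 : ℝ) + rt F (w + Q) ω := by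
      rw [h1]
      field_simp
    have h3 : τ = rt F (w + Q) ω + 2 ^ (w + Q) * (b none - F.t ω) := by
      rw [hτ]
      linarith
    rw [h3]
    refine (abs_add_le _ _).trans ?_
    have h4 := rt_mem F (w + Q) ω
    rw [abs_of_nonneg h4.1, abs_mul, abs_of_pos (show (0 : ℝ) < 2 ^ (w + Q) by positivity)]
    have h5 : (2 : ℝ) ^ (w + Q) * |b none - F.t ω| ≤ 2 ^ (w + Q) * (1 / 2 ^ (w + Q)) :=
      mul_le_mul_of_nonneg_left hb.1 (by positivity)
    have h6 : (2 : ℝ) ^ (w + Q) * (1 / 2 ^ (w + Q)) = 1 := by field_simp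
    linarith [h4.2]
  have hP : ∀ l, (frH F d q₀ H₀ (slam F w ω) l).totalDegree ≤ Dc := deg_trn (h.dH₀ _)
  have hPd : ∀ l, DepC c l (frH F d q₀ H₀ (slam F w ω) l) := dep_trn (h.pH₀ _)
  have hsub : DepC c d (H₂ (slam F (w + Q) ω) - H₁ (slam F w ω)) := by
    intro b b' hn hb'
    rw [map_sub, map_sub, h.pH₂ _ b b' hn hb', h.pH₁ _ b b' hn hb']
  have hdeg : (H₂ (slam F (w + Q) ω) - H₁ (slam F w ω)).totalDegree ≤ Dc :=
    (totalDegree_sub _ _).trans (max_le (h.dH₂ _) (h.dH₁ _))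
  have key := enH_sub (w := w) (Q := Q) (s := s) hK h.inj hPd hsub
    ((deg_pull hP hdeg).trans hDK) (slam F w ω).2.2 (slam F (w + Q) ω).2.2 (z₀ (slam F w ω))
    (z₁ (slam F w ω)) (Pt (slam F w ω)) b hτ'
  have e1 : ∀ β, enR c s K d Q (w + Q) (slam F (w + Q) ω).2.2
      (((slam F (w + Q) ω).2.2 : ℝ) / 2 ^ Q - ((slam F w ω).2.2 : ℝ)) (z₀ (slam F w ω))
      (z₁ (slam F w ω)) (frH F d q₀ H₀ (slam F w ω))
      (H₂ (slam F (w + Q) ω) - H₁ (slam F w ω)) (Pt (slam F w ω)) β =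
      Rt F c s K d w q₀ Q H₀ H₁ H₂ z₀ z₁ Pt β (slam F (w + Q) ω) := by
    intro β
    unfold Rt
    rw [h.sl ω]
  simp only [e1] at key
  have hRd : ∀ β, (Rt F c s K d w q₀ Q H₀ H₁ H₂ z₀ z₁ Pt β (slam F (w + Q) ω)).natDegree ≤
      max K D := by
    intro β
    rw [← e1]
    exact deg_enR _ _ _ _ _ ((deg_pull hP hdeg).trans hDK) (hPt _) β
  have h5 : |2 ^ s d * (eval b (G₂ (ptr F J ω)) -
      eval b (Ht F c s K d w q₀ Q H₀ H₁ z₀ z₁ Pt (slam F w ω)))| ≤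
      cE K d D * 2 ^ (X * K * d) * μ := by
    rw [h.cl ω hω]
    unfold Ht
    rw [key]
    refine (Finset.abs_sum_le_sum_abs _ _).trans ?_
    have h6 : ∀ β ∈ (univ : Finset (Gr K d)), |ell K β (enx c s d w Q
        (frH F d q₀ H₀ (slam F w ω)) (z₀ (slam F w ω)) (z₁ (slam F w ω)) (slam F w ω).2.2 b) *
        (Rt F c s K d w q₀ Q H₀ H₁ H₂ z₀ z₁ Pt β (slam F (w + Q) ω)).eval τ| ≤
        ((2 * (K + 1) * 4) ^ K) ^ d * 2 ^ (X * K * d) *
          (((max K D : ℕ) + 1) * 2 ^ (max K D) * μ) := by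
      intro β _
      rw [abs_mul]
      exact mul_le_mul (ell_X hx) (eval_coef (hRd β) (hμ β) hτ2) (abs_nonneg _) (by positivity)
    refine (Finset.sum_le_card_nsmul _ _ _ h6).trans (le_of_eq ?_)
    rw [Finset.card_univ, card_grid, nsmul_eq_mul]
    unfold cE
    ring
  rw [abs_mul, abs_of_pos (show (0 : ℝ) < 2 ^ s d by positivity)] at h5
  rw [le_div_iff₀ (by positivity)]
  linarith

/-- The label of the line and the closed chart on the natural box. -/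
theorem EN.near (h : EN F c s gc d Dc w q₀ Q e X A G₀ G₂ H₀ H₁ H₂ z₀ z₁) {D : ℕ}
    {Pt : LnT F → Gr K d → Polynomial ℝ} (hPt : ∀ L β, (Pt L β).natDegree ≤ D) {ω : F.Ω}
    (hω : A ω) {μ : ℝ} (hμ : ∀ β, ∀ j ≤ max K D, |(Pt (slam F w ω) β).coeff j| ≤ μ)
    {b : Option (Fin m) → ℝ}
    (hb : NBx c (Gf F c G₀ (ptr F J ω)) gc (w + Q) (F.t ω) d b) :
    |eval b (Ht F c s K d w q₀ Q H₀ H₁ z₀ z₁ Pt (slam F w ω)) - eval b (H₁ (slam F w ω))| ≤
      cE K d D * 2 ^ (X * K * d) * μ / 2 ^ s d := by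
  have hμ0 : 0 ≤ μ := (abs_nonneg _).trans (hμ (fun _ => 0) 0 (Nat.zero_le _))
  have hwJ : w ≤ J := (Nat.le_add_right w Q).trans h.wQ
  have hx := h.enx_bd hω hb
  have hu2 : |2 ^ w * b none - ((slam F w ω).2.2 : ℝ)| ≤ 2 := by
    have h1 := t_rt F hwJ ω
    have h2 : (2 : ℝ) ^ w * F.t ω = ((slam F w ω).2.2 : ℝ) + rt F w ω := by
      rw [h1]
      field_simp
    have h3 : 2 ^ w * b none - ((slam F w ω).2.2 : ℝ) =
        rt F w ω + 2 ^ w * (b none - F.t ω) := by linarith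
    rw [h3]
    refine (abs_add_le _ _).trans ?_
    have h4 := rt_mem F w ω
    rw [abs_of_nonneg h4.1, abs_mul, abs_of_pos (show (0 : ℝ) < 2 ^ w by positivity)]
    have h5 : (2 : ℝ) ^ w * |b none - F.t ω| ≤ 2 ^ w * (1 / 2 ^ (w + Q)) :=
      mul_le_mul_of_nonneg_left hb.1 (by positivity)
    have h6 : (2 : ℝ) ^ w * (1 / 2 ^ (w + Q)) ≤ 1 := by
      rw [mul_one_div, div_le_one (by positivity)]
      exact pow_le_pow_right₀ (by norm_num) (Nat.le_add_right _ _)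
    linarith [h4.2]
  unfold Ht
  rw [eval_enH, add_sub_cancel_left, abs_mul, abs_of_pos (show (0 : ℝ) < 1 / 2 ^ s d by positivity)]
  have h5 : |∑ β, ell K β (enx c s d w Q (frH F d q₀ H₀ (slam F w ω)) (z₀ (slam F w ω))
      (z₁ (slam F w ω)) (slam F w ω).2.2 b) *
      (Pt (slam F w ω) β).eval (2 ^ w * b none - ((slam F w ω).2.2 : ℝ))| ≤
      cE K d D * 2 ^ (X * K * d) * μ := by
    refine (Finset.abs_sum_le_sum_abs _ _).trans ?_
    have h6 : ∀ β ∈ (univ : Finset (Gr K d)), |ell K β (enx c s d w Q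
        (frH F d q₀ H₀ (slam F w ω)) (z₀ (slam F w ω)) (z₁ (slam F w ω)) (slam F w ω).2.2 b) *
        (Pt (slam F w ω) β).eval (2 ^ w * b none - ((slam F w ω).2.2 : ℝ))| ≤
        ((2 * (K + 1) * 4) ^ K) ^ d * 2 ^ (X * K * d) *
          (((max K D : ℕ) + 1) * 2 ^ (max K D) * μ) := by
      intro β _
      rw [abs_mul]
      exact mul_le_mul (ell_X hx) (eval_coef ((hPt _ β).trans (le_max_right _ _)) (hμ β) hu2)
        (abs_nonneg _) (by positivity)
    refine (Finset.sum_le_card_nsmul _ _ _ h6).trans (le_of_eq ?_)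
    rw [Finset.card_univ, card_grid, nsmul_eq_mul]
    unfold cE
    ring
  calc 1 / 2 ^ s d * _ ≤ 1 / 2 ^ s d * (cE K d D * 2 ^ (X * K * d) * μ) :=
        mul_le_mul_of_nonneg_left h5 (by positivity)
    _ = _ := by ring

/-- **The label of the target**: precision `p'`, gradient exponent `e'`. -/
theorem en_lab (d Dc K D : ℕ) (hd : 1 ≤ d) (hK : 1 ≤ K) (hDK : Dc * (Dc + 1) ^ d ≤ K) : ∃ C : ℝ,
    1 ≤ C ∧ ∀ {m J : ℕ} {F : Fam m J} {c : ℕ → Fin m} {s gc : ℕ → ℕ} {w q₀ Q e e' X p p' : ℕ}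
    {A B : F.Ω → Prop} {G₀ : PtT F → ℕ → MvPolynomial (Option (Fin m)) ℝ}
    {G₂ : PtT F → MvPolynomial (Option (Fin m)) ℝ}
    {H₀ : LnT F → ℕ → MvPolynomial (Option (Fin m)) ℝ}
    {H₁ H₂ : LnT F → MvPolynomial (Option (Fin m)) ℝ} {z₀ z₁ : LnT F → Fin d → ℝ}
    {Pt : LnT F → Gr K d → Polynomial ℝ} {μ ν : ℝ},
    EH F c s gc d Dc w q₀ Q e X p A G₀ G₂ H₀ H₁ H₂ z₀ z₁ → Sub B A →
    (∀ L β, (Pt L β).natDegree ≤ D) →
    (∀ ω, B ω → ∀ β, ∀ j ≤ max K D,
      |(Rt F c s K d w q₀ Q H₀ H₁ H₂ z₀ z₁ Pt β (slam F (w + Q) ω)).coeff j| ≤ μ) →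
    (∀ ω, B ω → ∀ β, ∀ j ≤ max K D, |(Pt (slam F w ω) β).coeff j| ≤ ν) →
    p' ≤ p → e + 1 ≤ e' → C * 2 ^ (X * K * d) * μ * 2 ^ p' ≤ 2 ^ s d →
    C * 2 ^ (X * K * d) * (μ + ν) * 2 ^ (e + p') ≤ 2 ^ e' * 2 ^ s d →
    ChOK F c d (fun _ => Dc) (w + Q + 1) w e' gc B (Gf F c G₀) (fun L l => Hf F c H₀ (co q₀ L) l) ∧
    Lab F c d (Dc + d * (K * Dc) + D) (w + Q + 1) w e' p' gc (Gf F c G₀) B G₂
      (Ht F c s K d w q₀ Q H₀ H₁ z₀ z₁ Pt) := by
  obtain ⟨C₀, hC₀, hgr⟩ := grad_box d Dc Dc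
  obtain ⟨C, hC⟩ : ∃ C : ℝ, C = 2 * C₀ * cE K d D := ⟨_, rfl⟩
  have hcE := one_le_cE K d D
  have hC1 : cE K d D ≤ C := by
    rw [hC]
    nlinarith
  refine ⟨C, hcE.trans hC1, ?_⟩
  intro m J F c s gc w q₀ Q e e' X p p' A B G₀ G₂ H₀ H₁ H₂ z₀ z₁ Pt μ ν h hB hPt hμ hν hp he h1 h2
  have hwJ : w ≤ J := (Nat.le_add_right w Q).trans h.wQ
  have hco : ∀ ω, co q₀ (slam F w ω) = slam F (w - q₀) ω := by
    intro ω
    have := co_slam F (Nat.sub_le w q₀) hwJ ω
    rwa [Nat.sub_sub_self h.qw] at this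
  have hX0 : (0 : ℝ) < 2 ^ (X * K * d) := by positivity
  constructor
  · have h3 := h.top
    refine ⟨h3.degG, fun L i => h3.degH _ i, h3.depG, fun L i => h3.depH _ i,
      fun ω hω => h3.pos ω (hB ω hω), fun ω hω i hi b hb => ?_, fun ω hω i hi b hb l hl => ?_⟩
    · rw [hco]
      exact h3.agr ω (hB ω hω) i hi b (hb.mono (by omega) le_rfl)
    · exact (h3.lip ω (hB ω hω) i hi b (hb.mono (by omega) le_rfl) l hl).trans
        (pow_le_pow_right₀ (by norm_num) (by omega))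
  · refine ⟨fun y => (h.dG₂ y).trans (by omega), fun L => ?_, h.pG₂, fun L => ?_, fun ω hω =>
      (h.pos ω (hB ω hω)).trans (inv_mono hp), fun ω hω b hb => ?_, fun ω hω b hb l hl => ?_⟩
    · exact deg_enH h.Dc1 (deg_trn (h.dH₀ _)) (h.dH₁ L) _ _ _ (hPt L)
    · exact dep_enH (dep_trn (h.pH₀ _)) (h.pH₁ L) _ _ _ _
    · have hb' := hb.mono (a := w + Q) (by omega) le_rfl
      refine (h.en.agr hK hDK hPt (hB ω hω) (hμ ω hω) hb').trans ?_
      have hμ0 : 0 ≤ μ := (abs_nonneg _).trans (hμ ω hω (fun _ => 0) 0 (Nat.zero_le _))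
      rw [div_le_div_iff₀ (by positivity) (by positivity), one_mul]
      refine le_trans ?_ h1
      refine mul_le_mul_of_nonneg_right (mul_le_mul_of_nonneg_right
        (mul_le_mul_of_nonneg_right hC1 hX0.le) hμ0) (by positivity)
    · have hμ0 : 0 ≤ μ := (abs_nonneg _).trans (hμ ω hω (fun _ => 0) 0 (Nat.zero_le _))
      have hν0 : 0 ≤ ν := (abs_nonneg _).trans (hν ω hω (fun _ => 0) 0 (Nat.zero_le _))
      have hb' := hb.mono (a := w + Q) (by omega) le_rfl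
      obtain ⟨M, hM⟩ : ∃ M : ℝ, M = cE K d D * 2 ^ (X * K * d) * (μ + ν) / 2 ^ s d := ⟨_, rfl⟩
      have hM0 : 0 ≤ M := by rw [hM]; positivity
      -- the box around `b`
      have hbig : ∀ b', NBx c (Gf F c G₀ (ptr F J ω)) gc (w + Q + 1) (b none) d b' →
          NBx c (Gf F c G₀ (ptr F J ω)) gc (w + Q) (F.t ω) d b' := by
        intro b' hb2
        refine ⟨?_, hb2.2⟩
        have e1 : b' none - F.t ω = (b' none - b none) + (b none - F.t ω) := by ring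
        rw [e1]
        refine (abs_add_le _ _).trans ((add_le_add hb2.1 hb.1).trans (le_of_eq ?_))
        rw [pow_succ]
        field_simp
        ring
      have hsm : ∀ b', NBx c (Gf F c G₀ (ptr F J ω)) gc (w + Q + 1) (b none) d b' →
          |eval b' (G₂ (ptr F J ω) - H₁ (slam F w ω))| ≤ M := by
        intro b' hb2
        have hb3 := hbig b' hb2
        have a1 := h.en.agr hK hDK hPt (hB ω hω) (hμ ω hω) hb3
        have a2 := h.en.near hPt (hB ω hω) (hν ω hω) hb3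
        rw [map_sub, hM]
        have e1 : eval b' (G₂ (ptr F J ω)) - eval b' (H₁ (slam F w ω)) =
          (eval b' (G₂ (ptr F J ω)) -
            eval b' (Ht F c s K d w q₀ Q H₀ H₁ z₀ z₁ Pt (slam F w ω))) +
          (eval b' (Ht F c s K d w q₀ Q H₀ H₁ z₀ z₁ Pt (slam F w ω)) -
            eval b' (H₁ (slam F w ω))) := by ring
        rw [e1]
        refine (abs_add_le _ _).trans ((add_le_add a1 a2).trans (le_of_eq ?_))
        ring
      have hdep : DepC c d (G₂ (ptr F J ω) - H₁ (slam F w ω)) := by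
        intro b b' hn hb'
        rw [map_sub, map_sub, h.pG₂ _ b b' hn hb', h.pH₁ _ b b' hn hb']
      have hdeg : (G₂ (ptr F J ω) - H₁ (slam F w ω)).totalDegree ≤ Dc :=
        (totalDegree_sub _ _).trans (max_le (h.dG₂ _) (h.dH₁ _))
      have g1 := hgr (e := e) h.inj (h.top.degG _) (h.top.depG _) hdep hdeg hM0 hsm hb.2
        (fun i hi k hk => h.top.lip ω (hB ω hω) i hi b (hb'.mono le_rfl hi.le) k hk) l hl
      have g2 := h.grd ω (hB ω hω) b hb' l hl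
      obtain ⟨S, hS⟩ : ∃ S, S = (Finset.Icc l (d - 1)).sup gc := ⟨_, rfl⟩
      rw [← hS] at g1
      have hn : ∀ x : ℕ, nlp (fun j => if j < d then gc j else x) l d = max S x - x := by
        intro x
        unfold nlp
        have e1 : (Finset.Icc l d).sup (fun j => if j < d then gc j else x) = max S x := by
          apply le_antisymm
          · refine Finset.sup_le fun j hj => ?_
            rw [Finset.mem_Icc] at hj
            show (if j < d then gc j else x) ≤ _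
            split_ifs with hjd
            · refine le_trans ?_ (le_max_left _ _)
              rw [hS]
              exact Finset.le_sup (f := gc) (Finset.mem_Icc.2 ⟨hj.1, by omega⟩)
            · exact le_max_right _ _
          · refine max_le ?_ ?_
            · rw [hS]
              refine Finset.sup_le fun j hj => ?_
              rw [Finset.mem_Icc] at hj
              have := Finset.le_sup (f := fun j => if j < d then gc j else x)
                (Finset.mem_Icc.2 ⟨hj.1, show j ≤ d by omega⟩)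
              simp only [if_pos (show j < d by omega)] at this
              exact this
            · have := Finset.le_sup (f := fun j => if j < d then gc j else x)
                (Finset.mem_Icc.2 ⟨hl.le, le_refl d⟩)
              simp only [if_neg (lt_irrefl d)] at this
              exact this
        simp only [e1, if_neg (lt_irrefl d)]
      rw [hn p] at g2
      rw [hn p']
      have e1 : pderiv (some (c l)) (G₂ (ptr F J ω)) =
          pderiv (some (c l)) (G₂ (ptr F J ω) - H₁ (slam F w ω)) +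
            pderiv (some (c l)) (H₁ (slam F w ω)) := by
        rw [map_sub]
        ring
      rw [e1, map_add]
      refine (abs_add_le _ _).trans ((add_le_add g1 g2).trans ?_)
      obtain ⟨v, hv⟩ : ∃ v, v = max S p' - p' := ⟨_, rfl⟩
      rw [← hv]
      have k1 : (2 : ℝ) ^ (e + (max S p - p)) ≤ 2 ^ (e' + v) / 2 := by
        rw [le_div_iff₀ (by norm_num), ← pow_succ]
        refine pow_le_pow_right₀ (by norm_num) ?_
        omega
      have k2 : C₀ * M * 2 ^ (e + S) ≤ 2 ^ (e' + v) / 2 := by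
        have k3 : C * 2 ^ (X * K * d) * (μ + ν) * 2 ^ (e + p') =
            2 * (C₀ * M * 2 ^ e) * 2 ^ p' * 2 ^ s d := by
          rw [hM, hC, pow_add]
          field_simp
        rw [k3] at h2
        have k4 : 2 * (C₀ * M * 2 ^ e) * 2 ^ p' ≤ 2 ^ e' :=
          le_of_mul_le_mul_right h2 (by positivity)
        have k5 : (2 : ℝ) ^ S ≤ 2 ^ p' * 2 ^ v := by
          rw [← pow_add]
          refine pow_le_pow_right₀ (by norm_num) ?_
          omega
        have k6 : 0 ≤ C₀ * M * 2 ^ e := by positivity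
        calc C₀ * M * 2 ^ (e + S) = C₀ * M * 2 ^ e * 2 ^ S := by rw [pow_add]; ring
          _ ≤ C₀ * M * 2 ^ e * (2 ^ p' * 2 ^ v) := mul_le_mul_of_nonneg_left k5 k6
          _ = 2 * (C₀ * M * 2 ^ e) * 2 ^ p' * (2 ^ v / 2) := by ring
          _ ≤ 2 ^ e' * (2 ^ v / 2) := mul_le_mul_of_nonneg_right k4 (by positivity)
          _ = 2 ^ (e' + v) / 2 := by rw [pow_add]; ring
      linarith

end det

end Pool.END18
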