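import Pool.Agent.H73.D2.Tlf
import Pool.Agent.H92.D2.Imc

/-!
# The label of the tube

`enH`: the label of a line from the values of the tube labels at the nodes, as a polynomial in the
time and in the coordinates. `ellP`: the basis of the interpolation, as polynomials.
-/

set_option autoImplicit false

namespace Pool.END18

open Finset Real MvPolynomial
open Pool.GEN Pool.CHT Pool.D2R Pool.D2G30 Pool.V1E

/-! ### The basis -/

/-- The Lagrange basis, composed with polynomials. -/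
noncomputable def ellP (K : ℕ) {d : ℕ} {σ : Type} (β : Fin d → Fin (K + 1))
    (f : Fin d → MvPolynomial σ ℝ) : MvPolynomial σ ℝ :=
  ∏ i, ∏ j ∈ univ.erase (β i), (C (K : ℝ) * f i - C ((j : ℕ) : ℝ)) *
    C (1 / ((((β i : Fin (K + 1)) : ℕ) : ℝ) - (j : ℕ)))

theorem eval_ellP {K d : ℕ} {σ : Type} (β : Fin d → Fin (K + 1)) (f : Fin d → MvPolynomial σ ℝ)
    (y : σ → ℝ) : eval y (ellP K β f) = ell K β (fun i => eval y (f i)) := by
  unfold ellP ell lg
  rw [map_prod]
  refine Finset.prod_congr rfl fun i _ => ?_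
  rw [map_prod]
  refine Finset.prod_congr rfl fun j _ => ?_
  rw [map_mul, map_sub, map_mul, eval_C, eval_C, eval_C, mul_one_div]

theorem deg_ellP {K d D : ℕ} {σ : Type} (β : Fin d → Fin (K + 1)) {f : Fin d → MvPolynomial σ ℝ}
    (hf : ∀ i, (f i).totalDegree ≤ D) : (ellP K β f).totalDegree ≤ d * (K * D) := by
  unfold ellP
  refine (totalDegree_finsetProd _ _).trans ?_
  refine (Finset.sum_le_card_nsmul _ _ (K * D) fun i _ => ?_).trans ?_
  · refine (totalDegree_finsetProd _ _).trans ?_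
    refine (Finset.sum_le_card_nsmul _ _ D fun j _ => ?_).trans ?_
    · refine (totalDegree_mul _ _).trans ?_
      rw [totalDegree_C, add_zero]
      refine (totalDegree_sub _ _).trans (max_le ?_ ?_)
      · refine (totalDegree_mul _ _).trans ?_
        rw [totalDegree_C, zero_add]
        exact hf i
      · rw [totalDegree_C]
        exact Nat.zero_le _
    · rw [card_er, smul_eq_mul]
  · rw [Finset.card_univ, Fintype.card_fin, smul_eq_mul]

/-- The basis is bounded on cubes. -/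
theorem ell_grow {K d : ℕ} (β : Fin d → Fin (K + 1)) {x : Fin d → ℝ} {M : ℝ} (hM : 1 ≤ M)
    (hx : ∀ i, |x i| ≤ M) : |ell K β x| ≤ ((2 * (K + 1) * M) ^ K) ^ d := by
  have hb : (1 : ℝ) ≤ 2 * (K + 1) * M := by
    have : (0 : ℝ) ≤ K := Nat.cast_nonneg K
    nlinarith
  unfold ell
  rw [Finset.abs_prod]
  refine (Finset.prod_le_prod (fun _ _ => abs_nonneg _) (g := fun _ => (2 * (K + 1) * M) ^ K)
    fun i _ => ?_).trans (le_of_eq ?_)
  · unfold lg
    rw [Finset.abs_prod]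
    refine (Finset.prod_le_prod (fun _ _ => abs_nonneg _) (g := fun _ => 2 * (K + 1) * M)
      fun j hj => ?_).trans (le_of_eq ?_)
    · have hne : (β i) ≠ j := (Finset.ne_of_mem_erase hj).symm
      have h1 : (1 : ℝ) ≤ |(((β i : Fin (K + 1)) : ℕ) : ℝ) - (j : ℕ)| := by
        have h2 : (((β i : Fin (K + 1)) : ℕ) : ℤ) - ((j : ℕ) : ℤ) ≠ 0 := by
          intro h
          apply hne
          exact Fin.ext (by omega)
        have h3 := Int.one_le_abs h2
        have h4 : ((|(((β i : Fin (K + 1)) : ℕ) : ℤ) - ((j : ℕ) : ℤ)| : ℤ) : ℝ) =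
            |(((β i : Fin (K + 1)) : ℕ) : ℝ) - (j : ℕ)| := by
          rw [Int.cast_abs]
          push_cast
          rfl
        rw [← h4]
        exact_mod_cast h3
      rw [abs_div, div_le_iff₀ (by linarith)]
      have h5 : |(K : ℝ) * x i - (j : ℕ)| ≤ 2 * (K + 1) * M := by
        refine (abs_sub _ _).trans ?_
        rw [abs_mul, abs_of_nonneg (show (0 : ℝ) ≤ K from Nat.cast_nonneg K),
          abs_of_nonneg (show (0 : ℝ) ≤ (j : ℕ) from Nat.cast_nonneg _)]
        have h6 : ((j : ℕ) : ℝ) ≤ K := by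
          have := j.isLt
          exact_mod_cast Nat.lt_succ_iff.1 this
        have h7 : (K : ℝ) * |x i| ≤ K * M :=
          mul_le_mul_of_nonneg_left (hx i) (Nat.cast_nonneg K)
        have h8 : (0 : ℝ) ≤ K := Nat.cast_nonneg K
        nlinarith
      calc |(K : ℝ) * x i - (j : ℕ)| ≤ 2 * (K + 1) * M * 1 := by linarith
        _ ≤ _ := mul_le_mul_of_nonneg_left h1 (by linarith)
    · rw [Finset.prod_const, card_er]
  · rw [Finset.prod_const, Finset.card_univ, Fintype.card_fin]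

/-- A polynomial is Lipschitz on cubes. -/
theorem poly_lip {d : ℕ} (p : MvPolynomial (Fin d) ℝ) : ∃ C : ℝ, 0 ≤ C ∧
    ∀ (x y : Fin d → ℝ) (δ : ℝ), 0 ≤ δ → (∀ i, |x i| ≤ 3) → (∀ i, |y i| ≤ 3) →
      (∀ i, |x i - y i| ≤ δ) → |eval x p| ≤ C ∧ |eval y p| ≤ C ∧ |eval x p - eval y p| ≤ C * δ := by
  induction p using MvPolynomial.induction_on with
  | C r =>
    refine ⟨|r|, abs_nonneg _, fun x y δ hδ _ _ _ => ?_⟩
    simp only [eval_C, sub_self, abs_zero]
    exact ⟨le_rfl, le_rfl, by positivity⟩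
  | add p q hp hq =>
    obtain ⟨C₁, h1, k1⟩ := hp
    obtain ⟨C₂, h2, k2⟩ := hq
    refine ⟨C₁ + C₂, by positivity, fun x y δ hδ hx hy hxy => ?_⟩
    obtain ⟨a1, a2, a3⟩ := k1 x y δ hδ hx hy hxy
    obtain ⟨b1, b2, b3⟩ := k2 x y δ hδ hx hy hxy
    rw [map_add, map_add]
    refine ⟨(abs_add_le _ _).trans (add_le_add a1 b1), (abs_add_le _ _).trans (add_le_add a2 b2), ?_⟩
    have e : eval x p + eval x q - (eval y p + eval y q) = (eval x p - eval y p) +
        (eval x q - eval y q) := by ring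
    rw [e]
    refine (abs_add_le _ _).trans ((add_le_add a3 b3).trans (le_of_eq (by ring)))
  | mul_X p j hp =>
    obtain ⟨C₁, h1, k1⟩ := hp
    refine ⟨4 * C₁, by positivity, fun x y δ hδ hx hy hxy => ?_⟩
    obtain ⟨a1, a2, a3⟩ := k1 x y δ hδ hx hy hxy
    rw [map_mul, map_mul, eval_X, eval_X, abs_mul, abs_mul]
    refine ⟨?_, ?_, ?_⟩
    · calc |eval x p| * |x j| ≤ C₁ * 3 := mul_le_mul a1 (hx j) (abs_nonneg _) h1
        _ ≤ _ := by linarith
    · calc |eval y p| * |y j| ≤ C₁ * 3 := mul_le_mul a2 (hy j) (abs_nonneg _) h1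
        _ ≤ _ := by linarith
    · have e : eval x p * x j - eval y p * y j = (eval x p - eval y p) * x j +
          eval y p * (x j - y j) := by ring
      rw [e]
      refine (abs_add_le _ _).trans ?_
      rw [abs_mul, abs_mul]
      have c1 : |eval x p - eval y p| * |x j| ≤ C₁ * δ * 3 :=
        mul_le_mul a3 (hx j) (abs_nonneg _) (by positivity)
      have c2 : |eval y p| * |x j - y j| ≤ C₁ * δ := mul_le_mul a2 (hxy j) (abs_nonneg _) h1
      linarith

/-- The basis is Lipschitz. -/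
theorem ell_lip3 (K d : ℕ) : ∃ C : ℝ, 1 ≤ C ∧ ∀ (β : Fin d → Fin (K + 1)) (x y : Fin d → ℝ)
    (δ : ℝ), 0 ≤ δ → (∀ i, |x i| ≤ 3) → (∀ i, |y i| ≤ 3) → (∀ i, |x i - y i| ≤ δ) →
      |ell K β x - ell K β y| ≤ C * δ := by
  classical
  choose C hC0 hC using fun β : Fin d → Fin (K + 1) =>
    poly_lip (ellP K β (fun i => (X i : MvPolynomial (Fin d) ℝ)))
  refine ⟨1 + ∑ β, C β, ?_, ?_⟩
  · have : 0 ≤ ∑ β, C β := Finset.sum_nonneg fun β _ => hC0 β
    linarith
  · intro β x y δ hδ hx hy hxy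
    have h := (hC β x y δ hδ hx hy hxy).2.2
    rw [eval_ellP, eval_ellP] at h
    simp only [eval_X] at h
    refine h.trans (mul_le_mul_of_nonneg_right ?_ hδ)
    have := Finset.single_le_sum (fun γ _ => hC0 γ) (Finset.mem_univ β) (f := C)
    linarith

/-- A polynomial with small values at the nodes is Lipschitz with a small constant. -/
theorem val_lip (K d : ℕ) (hK : 1 ≤ K) : ∃ C : ℝ, 1 ≤ C ∧ ∀ (P : MvPolynomial (Fin d) ℝ),
    P.totalDegree ≤ K → ∀ (M : ℝ), (∀ β : Fin d → Fin (K + 1), |eval (nd K β) P| ≤ M) →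
    ∀ (x y : Fin d → ℝ) (δ : ℝ), 0 ≤ δ → (∀ i, |x i| ≤ 3) → (∀ i, |y i| ≤ 3) →
    (∀ i, |x i - y i| ≤ δ) → |eval x P - eval y P| ≤ C * M * δ := by
  obtain ⟨C, hC, h⟩ := ell_lip3 K d
  refine ⟨((K + 1) ^ d : ℕ) * C, ?_, ?_⟩
  · have : (1 : ℝ) ≤ ((K + 1) ^ d : ℕ) := by exact_mod_cast Nat.one_le_pow _ _ (Nat.succ_pos K)
    nlinarith
  · intro P hP M hM x y δ hδ hx hy hxy
    have hM0 : 0 ≤ M := (abs_nonneg _).trans (hM fun _ => 0)
    rw [ell_interp hK P hP x, ell_interp hK P hP y, ← Finset.sum_sub_distrib]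
    refine (Finset.abs_sum_le_sum_abs _ _).trans ?_
    have h1 : ∀ β ∈ (univ : Finset (Fin d → Fin (K + 1))),
        |ell K β x * eval (nd K β) P - ell K β y * eval (nd K β) P| ≤ C * δ * M := by
      intro β _
      rw [← sub_mul, abs_mul]
      exact mul_le_mul (h β x y δ hδ hx hy hxy) (hM β) (abs_nonneg _) (by positivity)
    refine (Finset.sum_le_card_nsmul _ _ _ h1).trans (le_of_eq ?_)
    rw [Finset.card_univ, card_grid, nsmul_eq_mul]
    ring

/-! ### The label -/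

section label

variable {m : ℕ} (c : ℕ → Fin m) (s : ℕ → ℕ) (K d w Q : ℕ)

/-- The relative time, as a polynomial. -/
noncomputable def enU (n : ℕ) : MvPolynomial (Option (Fin m)) ℝ :=
  C (2 ^ w) * X none - C (n : ℝ)

/-- The position in the tube, as polynomials. -/
noncomputable def enA (P : ℕ → MvPolynomial (Option (Fin m)) ℝ) (z₀ z₁ : Fin d → ℝ) (n : ℕ)
    (i : Fin d) : MvPolynomial (Option (Fin m)) ℝ :=
  C (2 ^ Q * 2 ^ s i) * (X (some (c i)) - P i) - C (z₀ i) - C (z₁ i) * enU w n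

/-- **The label of the tube.** -/
noncomputable def enH (P : ℕ → MvPolynomial (Option (Fin m)) ℝ)
    (R : MvPolynomial (Option (Fin m)) ℝ) (z₀ z₁ : Fin d → ℝ) (n : ℕ)
    (Pt : Gr K d → Polynomial ℝ) : MvPolynomial (Option (Fin m)) ℝ :=
  R + C (1 / 2 ^ s d) * ∑ β, ellP K β (enA c s d w Q P z₀ z₁ n) *
    Polynomial.aeval (enU w n) (Pt β)

/-- The position in the tube. -/
noncomputable def enx (P : ℕ → MvPolynomial (Option (Fin m)) ℝ) (z₀ z₁ : Fin d → ℝ) (n : ℕ)
    (b : Option (Fin m) → ℝ) : Fin d → ℝ :=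
  fun i => 2 ^ Q * (2 ^ s i * (b (some (c i)) - eval b (P i))) - z₀ i -
    z₁ i * (2 ^ w * b none - n)

variable {c s K d w Q}

theorem eval_enU (n : ℕ) (b : Option (Fin m) → ℝ) :
    eval b (enU w n) = 2 ^ w * b none - n := by
  unfold enU
  rw [map_sub, map_mul, eval_C, eval_X, eval_C]

theorem eval_enA (P : ℕ → MvPolynomial (Option (Fin m)) ℝ) (z₀ z₁ : Fin d → ℝ) (n : ℕ)
    (b : Option (Fin m) → ℝ) : (fun i => eval b (enA c s d w Q P z₀ z₁ n i)) =
      enx c s d w Q P z₀ z₁ n b := by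
  funext i
  unfold enA enx
  simp only [map_sub, map_mul, eval_C, eval_X, eval_enU]
  ring

theorem eval_aevMv {σ : Type} (p : Polynomial ℝ) (u : MvPolynomial σ ℝ) (b : σ → ℝ) :
    eval b (Polynomial.aeval u p) = p.eval (eval b u) := by
  induction p using Polynomial.induction_on' with
  | add p q hp hq => rw [map_add, map_add, hp, hq, Polynomial.eval_add]
  | monomial n a =>
    rw [Polynomial.aeval_monomial, map_mul, map_pow, Polynomial.eval_monomial]
    congr 1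
    exact eval_C a

theorem eval_enH (P : ℕ → MvPolynomial (Option (Fin m)) ℝ)
    (R : MvPolynomial (Option (Fin m)) ℝ) (z₀ z₁ : Fin d → ℝ) (n : ℕ)
    (Pt : Gr K d → Polynomial ℝ) (b : Option (Fin m) → ℝ) :
    eval b (enH c s K d w Q P R z₀ z₁ n Pt) = eval b R + 1 / 2 ^ s d *
      ∑ β, ell K β (enx c s d w Q P z₀ z₁ n b) * (Pt β).eval (2 ^ w * b none - n) := by
  unfold enH
  rw [map_add, map_mul, eval_C, map_sum]
  congr 2
  refine Finset.sum_congr rfl fun β _ => ?_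
  rw [map_mul, eval_ellP, eval_enA, eval_aevMv, eval_enU]

theorem deg_enU (n : ℕ) : (enU w n : MvPolynomial (Option (Fin m)) ℝ).totalDegree ≤ 1 := by
  unfold enU
  refine (totalDegree_sub _ _).trans (max_le ?_ ?_)
  · refine (totalDegree_mul _ _).trans ?_
    rw [totalDegree_C, totalDegree_X]
  · rw [totalDegree_C]
    exact Nat.zero_le _

theorem deg_enA {P : ℕ → MvPolynomial (Option (Fin m)) ℝ} {Dc : ℕ} (hDc : 1 ≤ Dc)
    (hP : ∀ l, (P l).totalDegree ≤ Dc) (z₀ z₁ : Fin d → ℝ) (n : ℕ) (i : Fin d) :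
    (enA c s d w Q P z₀ z₁ n i).totalDegree ≤ Dc := by
  unfold enA
  refine (totalDegree_sub _ _).trans (max_le ((totalDegree_sub _ _).trans (max_le ?_ ?_)) ?_)
  · refine (totalDegree_mul _ _).trans ?_
    rw [totalDegree_C, zero_add]
    refine (totalDegree_sub _ _).trans (max_le ?_ (hP _))
    rw [totalDegree_X]
    exact hDc
  · rw [totalDegree_C]
    exact Nat.zero_le _
  · refine (totalDegree_mul _ _).trans ?_
    rw [totalDegree_C, zero_add]
    exact (deg_enU n).trans hDc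

theorem deg_aevMv {σ : Type} {p : Polynomial ℝ} {D : ℕ} (hp : p.natDegree ≤ D)
    {u : MvPolynomial σ ℝ} (hu : u.totalDegree ≤ 1) :
    (Polynomial.aeval u p).totalDegree ≤ D := by
  rw [Polynomial.aeval_eq_sum_range]
  refine (totalDegree_finsetSum _ _).trans (Finset.sup_le fun j hj => ?_)
  rw [Finset.mem_range] at hj
  refine (totalDegree_smul_le _ _).trans ((totalDegree_pow _ _).trans ?_)
  calc j * u.totalDegree ≤ j * 1 := Nat.mul_le_mul_left _ hu
    _ ≤ D := by omega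

theorem deg_enH {P : ℕ → MvPolynomial (Option (Fin m)) ℝ} {R : MvPolynomial (Option (Fin m)) ℝ}
    {Dc D : ℕ} (hDc : 1 ≤ Dc) (hP : ∀ l, (P l).totalDegree ≤ Dc) (hR : R.totalDegree ≤ Dc)
    (z₀ z₁ : Fin d → ℝ) (n : ℕ) {Pt : Gr K d → Polynomial ℝ} (hPt : ∀ β, (Pt β).natDegree ≤ D) :
    (enH c s K d w Q P R z₀ z₁ n Pt).totalDegree ≤ Dc + d * (K * Dc) + D := by
  unfold enH
  refine (totalDegree_add _ _).trans (max_le (by omega) ?_)
  refine (totalDegree_mul _ _).trans ?_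
  rw [totalDegree_C, zero_add]
  refine (totalDegree_finsetSum _ _).trans (Finset.sup_le fun β _ => ?_)
  refine (totalDegree_mul _ _).trans ?_
  have h1 := deg_ellP β (deg_enA (c := c) (s := s) (w := w) (Q := Q) hDc hP z₀ z₁ n)
  have h2 := deg_aevMv (hPt β) (deg_enU (m := m) (w := w) n)
  omega

theorem dep_enH {P : ℕ → MvPolynomial (Option (Fin m)) ℝ} {R : MvPolynomial (Option (Fin m)) ℝ}
    (hP : ∀ l, DepC c l (P l)) (hR : DepC c d R) (z₀ z₁ : Fin d → ℝ) (n : ℕ)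
    (Pt : Gr K d → Polynomial ℝ) : DepC c d (enH c s K d w Q P R z₀ z₁ n Pt) := by
  intro b b' hn hb
  rw [eval_enH, eval_enH, hR b b' hn hb, hn]
  have e : enx c s d w Q P z₀ z₁ n b = enx c s d w Q P z₀ z₁ n b' := by
    funext i
    unfold enx
    rw [hn, hb i i.isLt, hP i b b' hn fun l hl => hb l (hl.trans i.isLt)]
  rw [e]

end label

/-! ### The values at the nodes, as polynomials in the time -/

section node

variable {m : ℕ} (c : ℕ → Fin m) (s : ℕ → ℕ) (K d Q : ℕ)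

/-- The points of the tube, as polynomials in the relative time `τ` of a shorter window: the time is
`(n' + τ) / 2 ^ a`, the time in the window `e + τ / 2 ^ Q`. -/
noncomputable def enY (a n' : ℕ) (e : ℝ) (z₀ z₁ : Fin d → ℝ) (x : Fin d → ℝ) :
    Option (Fin d) → Polynomial ℝ
  | none => Polynomial.C ((n' : ℝ) / 2 ^ a) + Polynomial.C (1 / 2 ^ a) * Polynomial.X
  | some i => Polynomial.C (1 / 2 ^ Q) * (Polynomial.C (z₀ i + x i + z₁ i * e) +
      Polynomial.C (z₁ i / 2 ^ Q) * Polynomial.X)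

/-- The difference of the values at a node. -/
noncomputable def enR (a n' : ℕ) (e : ℝ) (z₀ z₁ : Fin d → ℝ)
    (P : ℕ → MvPolynomial (Option (Fin m)) ℝ) (F : MvPolynomial (Option (Fin m)) ℝ)
    (Pt : Gr K d → Polynomial ℝ) (β : Gr K d) : Polynomial ℝ :=
  Polynomial.C (2 ^ s d) * MvPolynomial.aeval (enY d Q a n' e z₀ z₁ (nd K β)) (pull c s P d F) -
    (Pt β).comp (Polynomial.C e + Polynomial.C (1 / 2 ^ Q) * Polynomial.X)

variable {c s K d Q}

theorem eval_enY (a n' : ℕ) (e : ℝ) (z₀ z₁ x : Fin d → ℝ) (τ : ℝ) :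
    (fun o => (enY d Q a n' e z₀ z₁ x o).eval τ) = tpt ((n' + τ) / 2 ^ a)
      (fun i => (z₀ i + z₁ i * (e + τ / 2 ^ Q)) / 2 ^ Q) (1 / 2 ^ Q) x := by
  funext o
  cases o with
  | none =>
    simp only [enY, tpt, Polynomial.eval_add, Polynomial.eval_mul, Polynomial.eval_C,
      Polynomial.eval_X]
    ring
  | some i =>
    simp only [enY, tpt, Polynomial.eval_add, Polynomial.eval_mul, Polynomial.eval_C,
      Polynomial.eval_X]
    ring

theorem eval_enR (a n' : ℕ) (e : ℝ) (z₀ z₁ : Fin d → ℝ)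
    (P : ℕ → MvPolynomial (Option (Fin m)) ℝ) (F : MvPolynomial (Option (Fin m)) ℝ)
    (Pt : Gr K d → Polynomial ℝ) (β : Gr K d) (τ : ℝ) :
    (enR c s K d Q a n' e z₀ z₁ P F Pt β).eval τ = 2 ^ s d *
      eval (tpt ((n' + τ) / 2 ^ a) (fun i => (z₀ i + z₁ i * (e + τ / 2 ^ Q)) / 2 ^ Q) (1 / 2 ^ Q)
        (nd K β)) (pull c s P d F) - (Pt β).eval (e + τ / 2 ^ Q) := by
  unfold enR
  rw [Polynomial.eval_sub, Polynomial.eval_mul, Polynomial.eval_C, eval_aev, eval_enY,
    Polynomial.eval_comp]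
  congr 2
  simp only [Polynomial.eval_add, Polynomial.eval_mul, Polynomial.eval_C, Polynomial.eval_X]
  ring

theorem deg_enY (a n' : ℕ) (e : ℝ) (z₀ z₁ x : Fin d → ℝ) (o : Option (Fin d)) :
    (enY d Q a n' e z₀ z₁ x o).natDegree ≤ 1 := by
  have h1 : ∀ p q : ℝ, (Polynomial.C p + Polynomial.C q * Polynomial.X).natDegree ≤ 1 := by
    intro p q
    rw [add_comm]
    exact Polynomial.natDegree_linear_le
  cases o with
  | none => exact h1 _ _
  | some i => exact (Polynomial.natDegree_C_mul_le _ _).trans (h1 _ _)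

theorem deg_enR {D Kp : ℕ} (a n' : ℕ) (e : ℝ) (z₀ z₁ : Fin d → ℝ)
    {P : ℕ → MvPolynomial (Option (Fin m)) ℝ} {F : MvPolynomial (Option (Fin m)) ℝ}
    (hF : (pull c s P d F).totalDegree ≤ Kp)
    {Pt : Gr K d → Polynomial ℝ} (hPt : ∀ β, (Pt β).natDegree ≤ D) (β : Gr K d) :
    (enR c s K d Q a n' e z₀ z₁ P F Pt β).natDegree ≤ max Kp D := by
  unfold enR
  refine (Polynomial.natDegree_sub_le _ _).trans (max_le_max ?_ ?_)
  · refine (Polynomial.natDegree_C_mul_le _ _).trans ?_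
    exact Pool.KBX.natDegree_aeval_le _ _ (deg_enY a n' e z₀ z₁ _) hF
  · refine Polynomial.natDegree_comp_le.trans ?_
    have h1 : (Polynomial.C e + Polynomial.C (1 / 2 ^ Q) * Polynomial.X).natDegree ≤ 1 := by
      rw [add_comm]
      exact Polynomial.natDegree_linear_le
    calc _ ≤ D * 1 := Nat.mul_le_mul (hPt β) h1
      _ = D := mul_one D

theorem hpt_congr {g : ℕ → MvPolynomial (Option (Fin m)) ℝ} {t : ℝ} {h h' : ℕ → ℝ} : ∀ {n : ℕ},
    (∀ i < n, h i = h' i) → hpt c s g t h n = hpt c s g t h' n := by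
  intro n
  induction n with
  | zero => intro _; rfl
  | succ n ih =>
    intro hh
    have e := ih fun i hi => hh i (by omega)
    funext o
    show (if o = some (c n) then eval (hpt c s g t h n) (g n) + h n / 2 ^ s n
      else hpt c s g t h n o) = (if o = some (c n) then eval (hpt c s g t h' n) (g n) +
        h' n / 2 ^ s n else hpt c s g t h' n o)
    rw [e, hh n (Nat.lt_succ_self n)]

/-- **The difference of a polynomial and the label**, from the differences at the nodes. -/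
theorem enH_sub {w : ℕ} (hK : 1 ≤ K) (hc : Set.InjOn c (Set.Iio d))
    {P : ℕ → MvPolynomial (Option (Fin m)) ℝ} (hP : ∀ l, DepC c l (P l))
    {F R : MvPolynomial (Option (Fin m)) ℝ} (hF : DepC c d (F - R))
    (hdeg : (pull c s P d (F - R)).totalDegree ≤ K) (n n' : ℕ) (z₀ z₁ : Fin d → ℝ)
    (Pt : Gr K d → Polynomial ℝ) (b : Option (Fin m) → ℝ) {τ : ℝ}
    (hτ : b none = (n' + τ) / 2 ^ (w + Q)) :
    2 ^ s d * (eval b F - eval b (enH c s K d w Q P R z₀ z₁ n Pt)) =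
      ∑ β, ell K β (enx c s d w Q P z₀ z₁ n b) *
        (enR c s K d Q (w + Q) n' ((n' : ℝ) / 2 ^ Q - n) z₀ z₁ P (F - R) Pt β).eval τ := by
  have hu : 2 ^ w * b none - n = (n' : ℝ) / 2 ^ Q - n + τ / 2 ^ Q := by
    rw [hτ, pow_add]
    field_simp
    ring
  -- the heights
  obtain ⟨h, hh⟩ : ∃ h : ℕ → ℝ, h = fun i => 2 ^ s i * (b (some (c i)) - eval b (P i)) :=
    ⟨_, rfl⟩
  have e1 : eval b (F - R) = eval (tpt ((n' + τ) / 2 ^ (w + Q))
      (fun i => (z₀ i + z₁ i * ((n' : ℝ) / 2 ^ Q - n + τ / 2 ^ Q)) / 2 ^ Q) (1 / 2 ^ Q)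
        (enx c s d w Q P z₀ z₁ n b)) (pull c s P d (F - R)) := by
    rw [eval_pull]
    have e2 := eval_self b (h := h) hc hP (fun i _ => by rw [hh]) hF
    rw [← e2]
    unfold hp
    have e3 : (tpt ((n' + τ) / 2 ^ (w + Q))
      (fun i => (z₀ i + z₁ i * ((n' : ℝ) / 2 ^ Q - n + τ / 2 ^ Q)) / 2 ^ Q) (1 / 2 ^ Q)
        (enx c s d w Q P z₀ z₁ n b)) none = b none := by
      show ((n' : ℝ) + τ) / 2 ^ (w + Q) = b none
      rw [hτ]
    rw [e3]
    refine hF _ _ (by rw [hpt_none, hpt_none]) fun l hl => ?_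
    rw [hpt_congr (c := c) (s := s) (g := P) (t := b none) (h := h) (h' := ext (tpt
      ((n' + τ) / 2 ^ (w + Q)) (fun i => (z₀ i + z₁ i * ((n' : ℝ) / 2 ^ Q - n + τ / 2 ^ Q)) / 2 ^ Q)
      (1 / 2 ^ Q) (enx c s d w Q P z₀ z₁ n b))) fun i hi => ?_]
    unfold D2G30.ext
    rw [dif_pos hi, hh]
    show _ = (z₀ ⟨i, hi⟩ + z₁ ⟨i, hi⟩ * ((n' : ℝ) / 2 ^ Q - n + τ / 2 ^ Q)) / 2 ^ Q +
      1 / 2 ^ Q * enx c s d w Q P z₀ z₁ n b ⟨i, hi⟩
    unfold enx
    rw [hu]
    field_simp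
    ring
  have e5 : 2 ^ s d * eval b (F - R) = ∑ β, ell K β (enx c s d w Q P z₀ z₁ n b) *
      (2 ^ s d * eval (tpt ((n' + τ) / 2 ^ (w + Q))
        (fun i => (z₀ i + z₁ i * ((n' : ℝ) / 2 ^ Q - n + τ / 2 ^ Q)) / 2 ^ Q) (1 / 2 ^ Q)
        (nd K β)) (pull c s P d (F - R))) := by
    rw [e1, ← eval_tub]
    rw [ell_interp hK _ ((deg_tub _ _ _ _).trans hdeg), Finset.mul_sum]
    refine Finset.sum_congr rfl fun β _ => ?_
    rw [eval_tub]
    ring
  rw [eval_enH, hu]
  have e6 : 2 ^ s d * (eval b F - (eval b R + 1 / 2 ^ s d *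
      ∑ β, ell K β (enx c s d w Q P z₀ z₁ n b) *
        (Pt β).eval ((n' : ℝ) / 2 ^ Q - n + τ / 2 ^ Q))) = 2 ^ s d * eval b (F - R) -
      ∑ β, ell K β (enx c s d w Q P z₀ z₁ n b) *
        (Pt β).eval ((n' : ℝ) / 2 ^ Q - n + τ / 2 ^ Q) := by
    rw [map_sub]
    field_simp
    ring
  rw [e6, e5, ← Finset.sum_sub_distrib]
  refine Finset.sum_congr rfl fun β _ => ?_
  rw [eval_enR]
  ring

end node

end Pool.END18
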