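import Pool.Agent.H18.D2.Enu

/-!
# Another target over the same frame

`EN.tgt`: the facts `EN` for another target (and other digits `s d` of the target).
-/

set_option autoImplicit false

namespace Pool.END18

open Finset Real MvPolynomial
open Pool.Agent.H49.Ent Pool.Agent.H32.Dense Pool.STK Pool.KA Pool.KSAT Pool.K2S Pool.PB Pool.S6C
open Pool.GEN Pool.CHT Pool.D2R Pool.D2G30 Pool.V1E Pool.ISO

variable {m J : ℕ}

theorem hL_congr {c : ℕ → Fin m} {s s' : ℕ → ℕ} {d w : ℕ} (hs : ∀ l < d, s' l = s l) {ζ : Type}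
    (P : ℕ → MvPolynomial (Option (Fin m)) ℝ)
    (L : ((Fin m → ℝ) × (Fin m → ℝ)) × ζ × ℕ) (i : Fin d) :
    hL c s' d w P L (some i) = hL c s d w P L (some i) := by
  show Polynomial.C (2 ^ s' i) * _ = Polynomial.C (2 ^ s i) * _
  rw [hs i i.isLt]

/-- **Another target.** -/
theorem EN.tgt {F : Fam m J} {c : ℕ → Fin m} {s s' gc : ℕ → ℕ} {d Dc Dc' w q₀ Q e X : ℕ}
    {A : F.Ω → Prop} {G₀ : PtT F → ℕ → MvPolynomial (Option (Fin m)) ℝ}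
    {G₂ G₂' : PtT F → MvPolynomial (Option (Fin m)) ℝ}
    {H₀ : LnT F → ℕ → MvPolynomial (Option (Fin m)) ℝ}
    {H₁ H₂ H₁' H₂' : LnT F → MvPolynomial (Option (Fin m)) ℝ} {z₀ z₁ : LnT F → Fin d → ℝ}
    (h : EN F c s gc d Dc w q₀ Q e X A G₀ G₂ H₀ H₁ H₂ z₀ z₁) (hs : ∀ l < d, s' l = s l)
    (hD : Dc ≤ Dc') (cl : ∀ ω, A ω → G₂' (ptr F J ω) = H₂' (slam F (w + Q) ω))
    (dH₁ : ∀ L, (H₁' L).totalDegree ≤ Dc') (pH₁ : ∀ L, DepC c d (H₁' L))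
    (dG₂ : ∀ y, (G₂' y).totalDegree ≤ Dc') (pG₂ : ∀ y, DepC c d (G₂' y))
    (dH₂ : ∀ L, (H₂' L).totalDegree ≤ Dc') (pH₂ : ∀ L, DepC c d (H₂' L)) :
    EN F c s' gc d Dc' w q₀ Q e X A G₀ G₂' H₀ H₁' H₂' z₀ z₁ := by
  refine ⟨h.inj, h.Dc1.trans hD, h.wQ, h.qw, cl, fun y l => (h.dG₀ y l).trans hD,
    fun L l => (h.dH₀ L l).trans hD, h.pH₀, dH₁, pH₁, dG₂, pG₂, dH₂, pH₂,
    h.top.mono le_rfl (fun _ => hD) le_rfl le_rfl, fun l hl => by rw [hs l hl]; exact h.gcs l hl,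
    fun ω hω u hu i => ?_⟩
  rw [hL_congr hs]
  exact h.own ω hω u hu i

end Pool.END18
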