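import Pool.Agent.H18.D2.Enf

/-!
# The end over one more coordinate

`lab_gen`: a label from a chart of the ball which agrees with a closed label, and is near a closed chart
with natural gradient. `en_labU`, `end_u`: the label of `N = c (d + 1)` over the chain `V0`,
`u = c d`: the label of the tube for `N - C (p) (u - H_u (p))`, plus `C (p) (u - H_u (p))`.
-/

set_option autoImplicit false

namespace Pool.END18

open Finset Real MvPolynomial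
open Pool.Agent.H49.Ent Pool.Agent.H32.Dense Pool.STK Pool.KA Pool.KSAT Pool.K2S Pool.PB Pool.S6C
open Pool.GEN Pool.CHT Pool.D2R Pool.D2G30 Pool.V1E Pool.ISO
open Pool.PB.Trl (rt rt_mem t_rt)
open Pool.NLB46 (Lab chok_snoc)
open Pool.BFL (Pb)

variable {m J : ℕ}

/-- **A label**, from a chart of the ball. -/
theorem lab_gen (i Dc D₁ : ℕ) (hi : 1 ≤ i) : ∃ C₀ : ℝ, 1 ≤ C₀ ∧ ∀ {m J : ℕ} {F : Fam m J}
    {c : ℕ → Fin m} {gc : ℕ → ℕ} {a w w' e e' p p' D₂ : ℕ} {B : F.Ω → Prop}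
    {G : PtT F → ℕ → MvPolynomial (Option (Fin m)) ℝ}
    {H : LnT F → ℕ → MvPolynomial (Option (Fin m)) ℝ}
    {G₂ : PtT F → MvPolynomial (Option (Fin m)) ℝ}
    {H₁ Ht : LnT F → MvPolynomial (Option (Fin m)) ℝ} {α M : ℝ},
    Set.InjOn c (Set.Iio i) → ChOK F c i (fun _ => Dc) a w' e gc B G H →
    (∀ y, (G₂ y).totalDegree ≤ D₁) → (∀ y, DepC c i (G₂ y)) →
    (∀ L, (H₁ L).totalDegree ≤ D₁) → (∀ L, DepC c i (H₁ L)) →
    (∀ L, (Ht L).totalDegree ≤ D₂) → (∀ L, DepC c i (Ht L)) → D₁ ≤ D₂ →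
    (∀ ω, B ω → |F.x ω (c i) - eval (bt F ω) (G₂ (ptr F J ω))| ≤ 1 / 2 ^ p) →
    (∀ ω, B ω → ∀ b, NBx c (G (ptr F J ω)) gc a (F.t ω) i b →
      |eval b (G₂ (ptr F J ω)) - eval b (Ht (slam F w ω))| ≤ α) →
    (∀ ω, B ω → ∀ b, NBx c (G (ptr F J ω)) gc a (F.t ω) i b →
      |eval b (G₂ (ptr F J ω)) - eval b (H₁ (slam F w ω))| ≤ M) →
    (∀ ω, B ω → ∀ b, NBx c (G (ptr F J ω)) gc a (F.t ω) i b → ∀ l < i,
      |eval b (pderiv (some (c l)) (H₁ (slam F w ω)))| ≤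
        2 ^ (e + nlp (fun j => if j < i then gc j else p) l i)) →
    0 ≤ M → p' ≤ p → e + 1 ≤ e' → α ≤ 1 / 2 ^ p' → 2 * C₀ * M * 2 ^ (e + p') ≤ 2 ^ e' →
    Lab F c i D₂ (a + 1) w e' p' gc G B G₂ Ht := by
  obtain ⟨C₀, hC₀, hgr⟩ := grad_box i Dc D₁
  refine ⟨C₀, hC₀, ?_⟩
  intro m J F c gc a w w' e e' p p' D₂ B G H G₂ H₁ Ht α M hc htop dG pG dH pH dT pT hD hpos hagr hnr
    hgrd hM0 hp he h1 h2
  refine ⟨fun y => (dG y).trans hD, dT, pG, pT, fun ω hω => (hpos ω hω).trans (inv_mono hp),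
    fun ω hω b hb => (hagr ω hω b (hb.mono (by omega) le_rfl)).trans h1,
    fun ω hω b hb l hl => ?_⟩
  have hb' := hb.mono (a := a) (by omega) le_rfl
  -- the box around `b`
  have hbig : ∀ b', NBx c (G (ptr F J ω)) gc (a + 1) (b none) i b' →
      NBx c (G (ptr F J ω)) gc a (F.t ω) i b' := by
    intro b' hb2
    refine ⟨?_, hb2.2⟩
    have e1 : b' none - F.t ω = (b' none - b none) + (b none - F.t ω) := by ring
    rw [e1]
    refine (abs_add_le _ _).trans ((add_le_add hb2.1 hb.1).trans (le_of_eq ?_))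
    rw [pow_succ]
    field_simp
    ring
  have hsm : ∀ b', NBx c (G (ptr F J ω)) gc (a + 1) (b none) i b' →
      |eval b' (G₂ (ptr F J ω) - H₁ (slam F w ω))| ≤ M := by
    intro b' hb2
    rw [map_sub]
    exact hnr ω hω b' (hbig b' hb2)
  have hdep : DepC c i (G₂ (ptr F J ω) - H₁ (slam F w ω)) := by
    intro b b' hn hb'
    rw [map_sub, map_sub, pG _ b b' hn hb', pH _ b b' hn hb']
  have hdeg : (G₂ (ptr F J ω) - H₁ (slam F w ω)).totalDegree ≤ D₁ :=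
    (totalDegree_sub _ _).trans (max_le (dG _) (dH _))
  have g1 := hgr (e := e) hc (htop.degG _) (htop.depG _) hdep hdeg hM0 hsm hb.2
    (fun j hj k hk => htop.lip ω hω j hj b (hb'.mono le_rfl hj.le) k hk) l hl
  have g2 := hgrd ω hω b hb' l hl
  obtain ⟨S, hS⟩ : ∃ S, S = (Finset.Icc l (i - 1)).sup gc := ⟨_, rfl⟩
  rw [← hS] at g1
  have hn : ∀ x : ℕ, nlp (fun j => if j < i then gc j else x) l i = max S x - x := by
    intro x
    unfold nlp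
    have e1 : (Finset.Icc l i).sup (fun j => if j < i then gc j else x) = max S x := by
      apply le_antisymm
      · refine Finset.sup_le fun j hj => ?_
        rw [Finset.mem_Icc] at hj
        show (if j < i then gc j else x) ≤ _
        split_ifs with hjd
        · refine le_trans ?_ (le_max_left _ _)
          rw [hS]
          exact Finset.le_sup (f := gc) (Finset.mem_Icc.2 ⟨hj.1, by omega⟩)
        · exact le_max_right _ _
      · refine max_le ?_ ?_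
        · rw [hS]
          refine Finset.sup_le fun j hj => ?_
          rw [Finset.mem_Icc] at hj
          have := Finset.le_sup (f := fun j => if j < i then gc j else x)
            (Finset.mem_Icc.2 ⟨hj.1, show j ≤ i by omega⟩)
          simp only [if_pos (show j < i by omega)] at this
          exact this
        · have := Finset.le_sup (f := fun j => if j < i then gc j else x)
            (Finset.mem_Icc.2 ⟨hl.le, le_refl i⟩)
          simp only [if_neg (lt_irrefl i)] at this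
          exact this
    simp only [e1, if_neg (lt_irrefl i)]
  rw [hn p] at g2
  rw [hn p']
  have e1 : pderiv (some (c l)) (G₂ (ptr F J ω)) =
      pderiv (some (c l)) (G₂ (ptr F J ω) - H₁ (slam F w ω)) +
        pderiv (some (c l)) (H₁ (slam F w ω)) := by
    rw [map_sub]
    ring
  rw [e1, map_add]
  refine (abs_add_le _ _).trans ((add_le_add g1 g2).trans ?_)
  obtain ⟨v, hv⟩ : ∃ v, v = max S p' - p' := ⟨_, rfl⟩
  rw [← hv]
  have k1 : (2 : ℝ) ^ (e + (max S p - p)) ≤ 2 ^ (e' + v) / 2 := by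
    rw [le_div_iff₀ (by norm_num), ← pow_succ]
    refine pow_le_pow_right₀ (by norm_num) ?_
    omega
  have k2 : C₀ * M * 2 ^ (e + S) ≤ 2 ^ (e' + v) / 2 := by
    have k4 : 2 * (C₀ * M * 2 ^ e) * 2 ^ p' ≤ 2 ^ e' := by
      refine le_trans (le_of_eq ?_) h2
      rw [pow_add]
      ring
    have k5 : (2 : ℝ) ^ S ≤ 2 ^ p' * 2 ^ v := by
      rw [← pow_add]
      refine pow_le_pow_right₀ (by norm_num) ?_
      omega
    have k6 : 0 ≤ C₀ * M * 2 ^ e := by positivity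
    calc C₀ * M * 2 ^ (e + S) = C₀ * M * 2 ^ e * 2 ^ S := by rw [pow_add]; ring
      _ ≤ C₀ * M * 2 ^ e * (2 ^ p' * 2 ^ v) := mul_le_mul_of_nonneg_left k5 k6
      _ = 2 * (C₀ * M * 2 ^ e) * 2 ^ p' * (2 ^ v / 2) := by ring
      _ ≤ 2 ^ e' * (2 ^ v / 2) := mul_le_mul_of_nonneg_right k4 (by positivity)
      _ = 2 ^ (e' + v) / 2 := by rw [pow_add]; ring
  linarith


/-- The summand `C (p) (u - H_u (p))` added. -/
noncomputable def adU (c : ℕ → Fin m) (d : ℕ) {σ : Type} (Cp Gu G₂ : σ → MvPolynomial (Option (Fin m)) ℝ)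
    (y : σ) : MvPolynomial (Option (Fin m)) ℝ := G₂ y + Cp y * (X (some (c d)) - Gu y)

section adU

variable {c : ℕ → Fin m} {d Dc D₁ : ℕ} {σ : Type} {Cp Gu G₂ : σ → MvPolynomial (Option (Fin m)) ℝ}

theorem eval_adU (y : σ) (b : Option (Fin m) → ℝ) : eval b (adU c d Cp Gu G₂ y) =
    eval b (G₂ y) + eval b (Cp y) * (b (some (c d)) - eval b (Gu y)) := by
  unfold adU
  rw [map_add, map_mul, map_sub, eval_X]

theorem deg_adU (hDc : 1 ≤ Dc) (hC : ∀ y, (Cp y).totalDegree ≤ Dc)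
    (hu : ∀ y, (Gu y).totalDegree ≤ Dc) (h2 : ∀ y, (G₂ y).totalDegree ≤ D₁) (h : 2 * Dc ≤ D₁)
    (y : σ) : (adU c d Cp Gu G₂ y).totalDegree ≤ D₁ := by
  unfold adU
  refine (totalDegree_add _ _).trans (max_le (h2 y) ?_)
  refine (totalDegree_mul _ _).trans ?_
  have h3 : (X (some (c d)) - Gu y).totalDegree ≤ Dc := by
    refine (totalDegree_sub _ _).trans (max_le ?_ (hu y))
    rw [totalDegree_X]
    exact hDc
  have := hC y
  omega

theorem dep_adU (hC : ∀ y, DepC c d (Cp y)) (hu : ∀ y, DepC c d (Gu y))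
    (h2 : ∀ y, DepC c d (G₂ y)) (y : σ) : DepC c (d + 1) (adU c d Cp Gu G₂ y) := by
  intro b b' hn hb
  have hb' : ∀ l < d, b (some (c l)) = b' (some (c l)) := fun l hl => hb l (by omega)
  rw [eval_adU, eval_adU, h2 y b b' hn hb', hC y b b' hn hb', hu y b b' hn hb',
    hb d (Nat.lt_succ_self d)]

end adU

/-- The chain, closed on the window `w`. -/
theorem EN.chn {F : Fam m J} {c : ℕ → Fin m} {s gc : ℕ → ℕ} {d Dc w q₀ Q e X : ℕ}
    {A : F.Ω → Prop} {G₀ : PtT F → ℕ → MvPolynomial (Option (Fin m)) ℝ}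
    {G₂ : PtT F → MvPolynomial (Option (Fin m)) ℝ}
    {H₀ : LnT F → ℕ → MvPolynomial (Option (Fin m)) ℝ}
    {H₁ H₂ : LnT F → MvPolynomial (Option (Fin m)) ℝ} {z₀ z₁ : LnT F → Fin d → ℝ}
    (h : EN F c s gc d Dc w q₀ Q e X A G₀ G₂ H₀ H₁ H₂ z₀ z₁) :
    ChOK F c d (fun _ => Dc) (w + Q) w e gc A (Gf F c G₀) (fun L l => Hf F c H₀ (co q₀ L) l) := by
  have hwJ : w ≤ J := (Nat.le_add_right w Q).trans h.wQ
  have hco : ∀ ω, co q₀ (slam F w ω) = slam F (w - q₀) ω := by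
    intro ω
    have := co_slam F (Nat.sub_le w q₀) hwJ ω
    rwa [Nat.sub_sub_self h.qw] at this
  have h3 := h.top
  refine ⟨h3.degG, fun L i => h3.degH _ i, h3.depG, fun L i => h3.depH _ i, h3.pos,
    fun ω hω i hi b hb => ?_, h3.lip⟩
  rw [hco]
  exact h3.agr ω hω i hi b hb

theorem chok_rad {F : Fam m J} {c : ℕ → Fin m} {i a w e e' : ℕ} {Kv g : ℕ → ℕ} {A B : F.Ω → Prop}
    {G : PtT F → ℕ → MvPolynomial (Option (Fin m)) ℝ}
    {H : LnT F → ℕ → MvPolynomial (Option (Fin m)) ℝ} (h : ChOK F c i Kv a w e g A G H)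
    (hB : Sub B A) (he : e ≤ e') : ChOK F c i Kv (a + 1) w e' g B G H :=
  ⟨h.degG, h.degH, h.depG, h.depH, fun ω hω => h.pos ω (hB ω hω),
    fun ω hω i hi b hb => h.agr ω (hB ω hω) i hi b (hb.mono (by omega) le_rfl),
    fun ω hω i hi b hb l hl => (h.lip ω (hB ω hω) i hi b (hb.mono (by omega) le_rfl) l hl).trans
      (pow_le_pow_right₀ (by norm_num) (by omega))⟩

/-- **The label of the target over `V0` and `u`**: precision `p'`, gradient exponent `e'`. -/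
theorem en_labU (d Dc K D : ℕ) (hK : 1 ≤ K) (hDK : Dc * (Dc + 1) ^ d ≤ K) : ∃ C : ℝ,
    1 ≤ C ∧ ∀ {m J : ℕ} {F : Fam m J} {c : ℕ → Fin m} {s gc : ℕ → ℕ} {w q₀ Q e e' X p p' gu : ℕ}
    {A B : F.Ω → Prop} {G₀ : PtT F → ℕ → MvPolynomial (Option (Fin m)) ℝ}
    {G₂ Gu Cp : PtT F → MvPolynomial (Option (Fin m)) ℝ}
    {H₀ : LnT F → ℕ → MvPolynomial (Option (Fin m)) ℝ}
    {H₁ H₂ Hu CL HN : LnT F → MvPolynomial (Option (Fin m)) ℝ} {z₀ z₁ : LnT F → Fin d → ℝ}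
    {Pt : LnT F → Gr K d → Polynomial ℝ} {μ ν ν₁ : ℝ},
    Set.InjOn c (Set.Iio (d + 1)) →
    EN F c s gc d Dc w q₀ Q e X A G₀ G₂ H₀ H₁ H₂ z₀ z₁ → Sub B A →
    Lab F c d Dc (w + Q) w e gu gc (Gf F c G₀) A Gu Hu →
    (∀ ω, A ω → Gu (ptr F J ω) = Hu (slam F w ω)) →
    (∀ y, (Cp y).totalDegree ≤ Dc) → (∀ y, DepC c d (Cp y)) →
    (∀ L, (CL L).totalDegree ≤ Dc) → (∀ L, DepC c d (CL L)) →
    (∀ ω, A ω → Cp (ptr F J ω) = CL (slam F w ω)) →
    (∀ L, (HN L).totalDegree ≤ 2 * Dc) → (∀ L, DepC c (d + 1) (HN L)) →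
    (∀ ω, A ω → |F.x ω (c (d + 1)) - eval (bt F ω) (adU c d Cp Gu G₂ (ptr F J ω))| ≤
      1 / 2 ^ p) →
    (∀ ω, A ω → ∀ b, NBx c (fun j => if j < d then Gf F c G₀ (ptr F J ω) j else
        Gu (ptr F J ω)) (fun j => if j < d then gc j else gu) (w + Q) (F.t ω) (d + 1) b →
      |eval b (adU c d CL Hu H₁ (slam F w ω)) - eval b (HN (slam F w ω))| ≤ ν₁ / 2 ^ s d) →
    (∀ ω, A ω → ∀ b, NBx c (fun j => if j < d then Gf F c G₀ (ptr F J ω) j else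
        Gu (ptr F J ω)) (fun j => if j < d then gc j else gu) (w + Q) (F.t ω) (d + 1) b →
      ∀ l < d + 1, |eval b (pderiv (some (c l)) (HN (slam F w ω)))| ≤
        2 ^ (e + nlp (fun j => if j < d + 1 then (fun j => if j < d then gc j else gu) j else p)
          l (d + 1))) →
    (∀ L β, (Pt L β).natDegree ≤ D) →
    (∀ ω, B ω → ∀ β, ∀ j ≤ max K D,
      |(Rt F c s K d w q₀ Q H₀ H₁ H₂ z₀ z₁ Pt β (slam F (w + Q) ω)).coeff j| ≤ μ) →
    (∀ ω, B ω → ∀ β, ∀ j ≤ max K D, |(Pt (slam F w ω) β).coeff j| ≤ ν) → 0 ≤ μ → 0 ≤ ν →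
    0 ≤ ν₁ → p' ≤ p → e + 1 ≤ e' → C * 2 ^ (X * K * d) * μ * 2 ^ p' ≤ 2 ^ s d →
    C * (2 ^ (X * K * d) * (μ + ν) + ν₁) * 2 ^ (e + p') ≤ 2 ^ e' * 2 ^ s d →
    ChOK F c (d + 1) (fun _ => Dc) (w + Q + 1) w e' (fun j => if j < d then gc j else gu) B
      (fun y j => if j < d then Gf F c G₀ y j else Gu y)
      (fun L j => if j < d then Hf F c H₀ (co q₀ L) j else Hu L) ∧
    Lab F c (d + 1) (2 * Dc + d * (K * Dc) + D) (w + Q + 1) w e' p'
      (fun j => if j < d then gc j else gu)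
      (fun y j => if j < d then Gf F c G₀ y j else Gu y) B (adU c d Cp Gu G₂)
      (adU c d CL Hu (Ht F c s K d w q₀ Q H₀ H₁ z₀ z₁ Pt)) := by
  obtain ⟨C₀, hC₀, hlg⟩ := lab_gen (d + 1) Dc (2 * Dc) (Nat.succ_le_succ (Nat.zero_le d))
  obtain ⟨C, hC⟩ : ∃ C : ℝ, C = 2 * C₀ * cE K d D := ⟨_, rfl⟩
  have hcE := one_le_cE K d D
  have hC1 : cE K d D ≤ C := by
    rw [hC]
    nlinarith
  refine ⟨C, hcE.trans hC1, ?_⟩
  intro m J F c s gc w q₀ Q e e' X p p' gu A B G₀ G₂ Gu Cp H₀ H₁ H₂ Hu CL HN z₀ z₁ Pt μ ν ν₁ hc h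
    hB hU clu dC pC dCL pCL clC dN pN hpos hnr hgrd hPt hμ hν hμ0 hν0 hν10 hp he h1 h2
  have hDc := h.Dc1
  have hX0 : (0 : ℝ) < 2 ^ (X * K * d) := by positivity
  have hch := chok_snoc (fun _ => le_rfl) h.chn hU
  refine ⟨chok_rad hch hB (by omega), ?_⟩
  replace hch : ChOK F c (d + 1) (fun _ => Dc) (w + Q) w e (fun j => if j < d then gc j else gu) B
      (fun y j => if j < d then Gf F c G₀ y j else Gu y)
      (fun L j => if j < d then Hf F c H₀ (co q₀ L) j else Hu L) :=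
    ⟨hch.degG, hch.degH, hch.depG, hch.depH, fun ω hω => hch.pos ω (hB ω hω),
      fun ω hω => hch.agr ω (hB ω hω), fun ω hω => hch.lip ω (hB ω hω)⟩
  -- the box
  have bx : ∀ {ω : F.Ω} {b : Option (Fin m) → ℝ}, NBx c (fun j => if j < d then
      Gf F c G₀ (ptr F J ω) j else Gu (ptr F J ω)) (fun j => if j < d then gc j else gu) (w + Q)
      (F.t ω) (d + 1) b → NBx c (Gf F c G₀ (ptr F J ω)) gc (w + Q) (F.t ω) d b := by
    intro ω b hb
    refine ⟨hb.1, fun j hj => ?_⟩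
    have h1 := hb.2 j (by omega)
    simp only [if_pos hj] at h1
    exact h1
  have hdT : ∀ L, (Ht F c s K d w q₀ Q H₀ H₁ z₀ z₁ Pt L).totalDegree ≤
      2 * Dc + d * (K * Dc) + D := fun L =>
    (deg_enH h.Dc1 (deg_trn (h.dH₀ _)) (h.dH₁ L) _ _ _ (hPt L)).trans (by omega)
  have hpT : ∀ L, DepC c d (Ht F c s K d w q₀ Q H₀ H₁ z₀ z₁ Pt L) := fun L =>
    dep_enH (dep_trn (h.pH₀ _)) (h.pH₁ L) _ _ _ _
  have hagr : ∀ ω, B ω → ∀ b, NBx c (fun j => if j < d then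
      Gf F c G₀ (ptr F J ω) j else Gu (ptr F J ω)) (fun j => if j < d then gc j else gu) (w + Q)
      (F.t ω) (d + 1) b → |eval b (adU c d Cp Gu G₂ (ptr F J ω)) -
        eval b (adU c d CL Hu (Ht F c s K d w q₀ Q H₀ H₁ z₀ z₁ Pt) (slam F w ω))| ≤
        cE K d D * 2 ^ (X * K * d) * μ / 2 ^ s d := by
    intro ω hω b hb
    have e1 : eval b (adU c d Cp Gu G₂ (ptr F J ω)) -
        eval b (adU c d CL Hu (Ht F c s K d w q₀ Q H₀ H₁ z₀ z₁ Pt) (slam F w ω)) =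
        eval b (G₂ (ptr F J ω)) - eval b (Ht F c s K d w q₀ Q H₀ H₁ z₀ z₁ Pt (slam F w ω)) := by
      rw [eval_adU, eval_adU, clu ω (hB ω hω), clC ω (hB ω hω)]
      ring
    rw [e1]
    exact h.agr hK hDK hPt (hB ω hω) (hμ ω hω) (bx hb)
  have hnear : ∀ ω, B ω → ∀ b, NBx c (fun j => if j < d then
      Gf F c G₀ (ptr F J ω) j else Gu (ptr F J ω)) (fun j => if j < d then gc j else gu) (w + Q)
      (F.t ω) (d + 1) b → |eval b (adU c d Cp Gu G₂ (ptr F J ω)) - eval b (HN (slam F w ω))| ≤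
        (cE K d D * 2 ^ (X * K * d) * (μ + ν) + ν₁) / 2 ^ s d := by
    intro ω hω b hb
    have a1 := hagr ω hω b hb
    have a2 := h.near hPt (hB ω hω) (hν ω hω) (bx hb)
    have a3 := hnr ω (hB ω hω) b hb
    have e1 : eval b (adU c d Cp Gu G₂ (ptr F J ω)) - eval b (HN (slam F w ω)) =
        (eval b (adU c d Cp Gu G₂ (ptr F J ω)) -
          eval b (adU c d CL Hu (Ht F c s K d w q₀ Q H₀ H₁ z₀ z₁ Pt) (slam F w ω))) +
        (eval b (Ht F c s K d w q₀ Q H₀ H₁ z₀ z₁ Pt (slam F w ω)) -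
          eval b (H₁ (slam F w ω))) +
        (eval b (adU c d CL Hu H₁ (slam F w ω)) - eval b (HN (slam F w ω))) := by
      rw [eval_adU (G₂ := Ht F c s K d w q₀ Q H₀ H₁ z₀ z₁ Pt), eval_adU (G₂ := H₁)]
      ring
    rw [e1]
    refine (abs_add_le _ _).trans ((add_le_add ((abs_add_le _ _).trans (add_le_add a1 a2))
      a3).trans (le_of_eq ?_))
    ring
  have hM0 : 0 ≤ (cE K d D * 2 ^ (X * K * d) * (μ + ν) + ν₁) / 2 ^ s d := by positivity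
  refine hlg hc hch (fun y => deg_adU hDc dC hU.degG (fun y => (h.dG₂ y).trans (by omega)) le_rfl y)
    (fun y => dep_adU pC hU.depG h.pG₂ y) dN pN
    (fun L => deg_adU hDc dCL hU.degH hdT (by omega) L)
    (fun L => dep_adU pCL hU.depH hpT L) (by omega) (fun ω hω => hpos ω (hB ω hω)) hagr hnear
    (fun ω hω b hb l hl => hgrd ω (hB ω hω) b hb l hl) hM0 hp he ?_ ?_
  · rw [div_le_div_iff₀ (by positivity) (by positivity), one_mul]
    refine le_trans ?_ h1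
    exact mul_le_mul_of_nonneg_right (mul_le_mul_of_nonneg_right
      (mul_le_mul_of_nonneg_right hC1 hX0.le) hμ0) (by positivity)
  · have e1 : 2 * C₀ * ((cE K d D * 2 ^ (X * K * d) * (μ + ν) + ν₁) / 2 ^ s d) * 2 ^ (e + p') =
        2 * C₀ * (cE K d D * 2 ^ (X * K * d) * (μ + ν) + ν₁) * 2 ^ (e + p') / 2 ^ s d := by ring
    rw [e1, div_le_iff₀ (by positivity)]
    refine le_trans ?_ h2
    refine mul_le_mul_of_nonneg_right ?_ (by positivity)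
    rw [hC]
    have e2 : 2 * C₀ * cE K d D * (2 ^ (X * K * d) * (μ + ν) + ν₁) =
        2 * C₀ * (cE K d D * 2 ^ (X * K * d) * (μ + ν) + cE K d D * ν₁) := by ring
    rw [e2]
    refine mul_le_mul_of_nonneg_left ?_ (by positivity)
    have : ν₁ ≤ cE K d D * ν₁ := le_mul_of_one_le_left hν10 hcE
    linarith

/-- **The end over `V0` and `u`.** From tube labels for the number `N - C (p) (u - H_u (p))`, of the
precision of the balls, to a label of `N` over the chain `V0`, `u`. -/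
theorem end_u (d Dc K D : ℕ) (hK : 1 ≤ K) (hDK : Dc * (Dc + 1) ^ d ≤ K) {ε : ℝ} (hε : 0 < ε) :
    ∃ C₀ : ℕ, ∃ δ : ℝ, 0 < δ ∧ δ ≤ ε ∧ ∃ Q₀ : ℕ, ∀ {m J : ℕ} {F : Fam m J}
    {c : ℕ → Fin m} {s gc : ℕ → ℕ} {w q₀ Q e e' X p p' gu x₁ MB : ℕ} {A : F.Ω → Prop}
    {G₀ : PtT F → ℕ → MvPolynomial (Option (Fin m)) ℝ}
    {G₂ Gu Cp : PtT F → MvPolynomial (Option (Fin m)) ℝ}
    {H₀ : LnT F → ℕ → MvPolynomial (Option (Fin m)) ℝ}
    {H₁ H₂ Hu CL HN : LnT F → MvPolynomial (Option (Fin m)) ℝ} {z₀ z₁ : LnT F → Fin d → ℝ}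
    {ζ : Type} {Z : F.Ω → ζ} {Pf : ζ → MvPolynomial (Fin d) ℝ} {s' k : F.Ω → Fin d → ℝ}
    {ξ : LnT F → Fin d → ℝ} {n : LnT F → Polynomial ℝ} {Pt : LnT F → Gr K d → Polynomial ℝ},
    Q₀ ≤ Q → Q ≤ MB → w + 2 * Q ≤ J → 0 < Pe F.p A → Set.InjOn c (Set.Iio (d + 1)) →
    EN F c s gc d Dc w q₀ Q e X A G₀ G₂ H₀ H₁ H₂ z₀ z₁ →
    (∀ z, (Pf z).totalDegree ≤ K) →
    (∀ ω, A ω → 0 < F.p ω → ∀ β : Gr K d, |eval (nd K β) (Pf (Z ω))| ≤ 2 ^ (δ * Q)) →
    (∀ ω, A ω → 0 < F.p ω → ∀ i, |s' ω i| ≤ 1) →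
    (∀ ω, A ω → 0 < F.p ω → Pf (Z ω) = C (2 ^ s d) * tub (F.t ω) (fun i => k ω i / 2 ^ Q)
      (1 / 2 ^ Q) (pull c s (frH F d q₀ H₀ (slam F w ω)) d
        (H₂ (slam F (w + Q) ω) - H₁ (slam F w ω)))) →
    (∀ ω, A ω → 0 < F.p ω → ∀ i, |k ω i + s' ω i -
      (z₀ (slam F w ω) i + z₁ (slam F w ω) i * rt F w ω)| ≤ 2 ^ (δ * Q) / 2 ^ MB) →
    ImC K d D Q MB (2 ^ (J - w)) δ (Pool.Agent.H49.Ent.cond F.p A True) (slam F w) (twF F w) Z Pf
      s' ξ n Pt →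
    (J : ℝ) * Real.log 2 - δ * Q ≤ CH (Pool.Agent.H49.Ent.cond F.p A True) F.T
      (fun ω => (F.l ω, F.Z ω)) →
    Lab F c d Dc (w + Q) w e gu gc (Gf F c G₀) A Gu Hu →
    (∀ ω, A ω → Gu (ptr F J ω) = Hu (slam F w ω)) →
    (∀ y, (Cp y).totalDegree ≤ Dc) → (∀ y, DepC c d (Cp y)) →
    (∀ L, (CL L).totalDegree ≤ Dc) → (∀ L, DepC c d (CL L)) →
    (∀ ω, A ω → Cp (ptr F J ω) = CL (slam F w ω)) →
    (∀ L, (HN L).totalDegree ≤ 2 * Dc) → (∀ L, DepC c (d + 1) (HN L)) →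
    (∀ ω, A ω → |F.x ω (c (d + 1)) - eval (bt F ω) (adU c d Cp Gu G₂ (ptr F J ω))| ≤
      1 / 2 ^ p) →
    (∀ ω, A ω → ∀ b, NBx c (fun j => if j < d then Gf F c G₀ (ptr F J ω) j else
        Gu (ptr F J ω)) (fun j => if j < d then gc j else gu) (w + Q) (F.t ω) (d + 1) b →
      |eval b (adU c d CL Hu H₁ (slam F w ω)) - eval b (HN (slam F w ω))| ≤ 2 ^ x₁ / 2 ^ s d) →
    (∀ ω, A ω → ∀ b, NBx c (fun j => if j < d then Gf F c G₀ (ptr F J ω) j else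
        Gu (ptr F J ω)) (fun j => if j < d then gc j else gu) (w + Q) (F.t ω) (d + 1) b →
      ∀ l < d + 1, |eval b (pderiv (some (c l)) (HN (slam F w ω)))| ≤
        2 ^ (e + nlp (fun j => if j < d + 1 then (fun j => if j < d then gc j else gu) j else p)
          l (d + 1))) →
    p' ≤ p → e + 1 ≤ e' → (p' : ℝ) + (X * K * d + C₀ : ℕ) + ε * Q ≤ s d + MB →
    (e : ℝ) + p' + (X * K * d + C₀ + x₁ : ℕ) + ε * Q ≤ e' + s d →
    ∃ B : F.Ω → Prop, Sub B A ∧ Pe F.p A ≤ 2 * Pe F.p B ∧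
      ChOK F c (d + 1) (fun _ => Dc) (w + Q + 1) w e' (fun j => if j < d then gc j else gu) B
        (fun y j => if j < d then Gf F c G₀ y j else Gu y)
        (fun L j => if j < d then Hf F c H₀ (co q₀ L) j else Hu L) ∧
      Lab F c (d + 1) (2 * Dc + d * (K * Dc) + D) (w + Q + 1) w e' p'
        (fun j => if j < d then gc j else gu)
        (fun y j => if j < d then Gf F c G₀ y j else Gu y) B (adU c d Cp Gu G₂)
        (adU c d CL Hu (Ht F c s K d w q₀ Q H₀ H₁ z₀ z₁ Pt)) := by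
  obtain ⟨C₁, hC₁, hlab⟩ := en_labU d Dc K D hK hDK
  obtain ⟨δ, hδ0, hδε, Q₀, hcoef⟩ := en_coefN d Dc K D hK hDK hε
  obtain ⟨C₂, hC₂⟩ := pow_unbounded_of_one_lt (3 * C₁) (show (1 : ℝ) < 2 by norm_num)
  refine ⟨C₂, δ, hδ0, hδε, Q₀, ?_⟩
  intro m J F c s gc w q₀ Q e e' X p p' gu x₁ MB A G₀ G₂ Gu Cp H₀ H₁ H₂ Hu CL HN z₀ z₁ ζ Z Pf s' k
    ξ n Pt hQ hMB hwJ2 hA hc h hdgf hbdf hs1 hPf hks hIm htf hU clu dC pC dCL pCL clC dN pN hpos hnr
    hgrd hp he h1 h2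
  obtain ⟨B, b1, b2, b3, b4⟩ := hcoef hQ hMB hwJ2 hA h hdgf hbdf hs1 hPf hks hIm htf
  obtain ⟨μ, hμ⟩ : ∃ μ : ℝ, μ = 2 ^ (ε * Q) / 2 ^ MB := ⟨_, rfl⟩
  obtain ⟨ν, hν⟩ : ∃ ν : ℝ, ν = 2 ^ (ε * Q) := ⟨_, rfl⟩
  have hν0 : 0 < ν := by rw [hν]; positivity
  have hν1 : 1 ≤ ν := by
    rw [hν]
    exact Real.one_le_rpow (by norm_num) (by positivity)
  have hμ0 : 0 < μ := by rw [hμ]; positivity
  have hμν : μ ≤ ν := by
    rw [hμ, hν]
    exact div_le_self (by positivity) (one_le_pow₀ (by norm_num))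
  have key1 : C₁ * 2 ^ (X * K * d) * μ * 2 ^ p' ≤ 2 ^ s d := by
    have e1 : C₁ * 2 ^ (X * K * d) * μ * 2 ^ p' ≤
        2 ^ C₂ * 2 ^ (X * K * d) * μ * 2 ^ p' := by
      have : C₁ ≤ 2 ^ C₂ := by linarith
      exact mul_le_mul_of_nonneg_right (mul_le_mul_of_nonneg_right
        (mul_le_mul_of_nonneg_right this (by positivity)) hμ0.le) (by positivity)
    refine e1.trans ?_
    have e2 : (2 : ℝ) ^ C₂ * 2 ^ (X * K * d) * μ * 2 ^ p' =
        2 ^ (((p' : ℝ) + (X * K * d + C₂ : ℕ) + ε * Q) - MB) := by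
      rw [Real.rpow_sub (by norm_num), Real.rpow_add (by norm_num), Real.rpow_add (by norm_num),
        Real.rpow_natCast, Real.rpow_natCast, Real.rpow_natCast, hμ, pow_add]
      ring
    rw [e2, ← Real.rpow_natCast 2 (s d)]
    exact Real.rpow_le_rpow_of_exponent_le (by norm_num) (by linarith)
  have key2 : C₁ * (2 ^ (X * K * d) * (μ + ν) + 2 ^ x₁) * 2 ^ (e + p') ≤ 2 ^ e' * 2 ^ s d := by
    have e1 : C₁ * (2 ^ (X * K * d) * (μ + ν) + 2 ^ x₁) * 2 ^ (e + p') ≤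
        2 ^ C₂ * 2 ^ (X * K * d) * 2 ^ x₁ * ν * 2 ^ (e + p') := by
      refine mul_le_mul_of_nonneg_right ?_ (by positivity)
      have a1 : (1 : ℝ) ≤ 2 ^ x₁ := one_le_pow₀ (by norm_num)
      have a2 : (1 : ℝ) ≤ 2 ^ (X * K * d) := one_le_pow₀ (by norm_num)
      have a3 : (2 : ℝ) ^ (X * K * d) * (μ + ν) ≤ 2 * (2 ^ (X * K * d) * 2 ^ x₁ * ν) := by
        have a4 : μ + ν ≤ 2 * (2 ^ x₁ * ν) := by nlinarith
        calc (2 : ℝ) ^ (X * K * d) * (μ + ν) ≤ 2 ^ (X * K * d) * (2 * (2 ^ x₁ * ν)) :=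
              mul_le_mul_of_nonneg_left a4 (by positivity)
          _ = _ := by ring
      have a5 : (2 : ℝ) ^ x₁ ≤ 2 ^ (X * K * d) * 2 ^ x₁ * ν := by
        have a6 : (2 : ℝ) ^ x₁ * 1 ≤ 2 ^ x₁ * (2 ^ (X * K * d) * ν) :=
          mul_le_mul_of_nonneg_left (one_le_mul_of_one_le_of_one_le a2 hν1) (by positivity)
        calc (2 : ℝ) ^ x₁ = 2 ^ x₁ * 1 := (mul_one _).symm
          _ ≤ _ := a6
          _ = _ := by ring
      have a7 : (0 : ℝ) < 2 ^ (X * K * d) * 2 ^ x₁ * ν := by positivity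
      calc C₁ * (2 ^ (X * K * d) * (μ + ν) + 2 ^ x₁) ≤
            C₁ * (3 * (2 ^ (X * K * d) * 2 ^ x₁ * ν)) :=
              mul_le_mul_of_nonneg_left (by linarith) (by linarith)
        _ = 3 * C₁ * (2 ^ (X * K * d) * 2 ^ x₁ * ν) := by ring
        _ ≤ 2 ^ C₂ * (2 ^ (X * K * d) * 2 ^ x₁ * ν) :=
              mul_le_mul_of_nonneg_right hC₂.le a7.le
        _ = _ := by ring
    refine e1.trans ?_
    have e2 : (2 : ℝ) ^ C₂ * 2 ^ (X * K * d) * 2 ^ x₁ * ν * 2 ^ (e + p') =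
        2 ^ ((e : ℝ) + p' + (X * K * d + C₂ + x₁ : ℕ) + ε * Q) := by
      rw [Real.rpow_add (by norm_num), Real.rpow_add (by norm_num), Real.rpow_add (by norm_num),
        Real.rpow_natCast, Real.rpow_natCast, Real.rpow_natCast, hν, pow_add, pow_add, pow_add]
      ring
    have e3 : (2 : ℝ) ^ e' * 2 ^ s d = 2 ^ ((e' : ℝ) + s d) := by
      rw [Real.rpow_add (by norm_num), Real.rpow_natCast, Real.rpow_natCast]
    rw [e2, e3]
    exact Real.rpow_le_rpow_of_exponent_le (by norm_num) h2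
  obtain ⟨k1, k2⟩ := hlab hc h b1 hU clu dC pC dCL pCL clC dN pN hpos hnr hgrd hIm.deg
    (by rw [hμ]; exact b3) (by rw [hν]; exact b4) hμ0.le hν0.le (by positivity) hp he key1 key2
  exact ⟨B, b1, b2, k1, k2⟩

end Pool.END18
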