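import Pool.Agent.H18.D2.Enu

/-!
# The end over one more coordinate, curly form

`en_labW`, `end_w`: as `en_labU`, `end_u`, for the number `N - P (p, u)` with ANY closed polynomial
`P` of `V0`, `u` in the place of `C (p) (u - H_u (p))`. The label of `N` over the chain `V0`, `u` is the
label of the tube plus `P`.
-/

set_option autoImplicit false

namespace Pool.END18

open Finset Real MvPolynomial
open Pool.Agent.H49.Ent Pool.Agent.H32.Dense Pool.STK Pool.KA Pool.KSAT Pool.K2S Pool.PB Pool.S6C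
open Pool.GEN Pool.CHT Pool.D2R Pool.D2G30 Pool.V1E Pool.ISO
open Pool.PB.Trl (rt rt_mem t_rt)
open Pool.NLB46 (Lab chok_snoc)
open Pool.BFL (Pb)

variable {m J : ℕ}

/-- A polynomial added. -/
noncomputable def adW {σ : Type} (Cw G₂ : σ → MvPolynomial (Option (Fin m)) ℝ)
    (y : σ) : MvPolynomial (Option (Fin m)) ℝ := G₂ y + Cw y

section adW

variable {c : ℕ → Fin m} {d Dc D₁ : ℕ} {σ : Type} {Cw G₂ : σ → MvPolynomial (Option (Fin m)) ℝ}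

theorem eval_adW (y : σ) (b : Option (Fin m) → ℝ) : eval b (adW Cw G₂ y) =
    eval b (G₂ y) + eval b (Cw y) := by
  unfold adW
  rw [map_add]

theorem deg_adW (hC : ∀ y, (Cw y).totalDegree ≤ D₁) (h2 : ∀ y, (G₂ y).totalDegree ≤ D₁)
    (y : σ) : (adW Cw G₂ y).totalDegree ≤ D₁ := by
  unfold adW
  exact (totalDegree_add _ _).trans (max_le (h2 y) (hC y))

theorem dep_adW (hC : ∀ y, DepC c (d + 1) (Cw y)) (h2 : ∀ y, DepC c d (G₂ y)) (y : σ) :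
    DepC c (d + 1) (adW Cw G₂ y) := by
  intro b b' hn hb
  have hb' : ∀ l < d, b (some (c l)) = b' (some (c l)) := fun l hl => hb l (by omega)
  rw [eval_adW, eval_adW, h2 y b b' hn hb', hC y b b' hn hb]

end adW

/-- **The label of the target over `V0` and `u`**: precision `p'`, gradient exponent `e'`. -/
theorem en_labW (d Dc D₁ K D : ℕ) (hD₁ : Dc ≤ D₁) (hK : 1 ≤ K) (hDK : Dc * (Dc + 1) ^ d ≤ K) : ∃ C : ℝ,
    1 ≤ C ∧ ∀ {m J : ℕ} {F : Fam m J} {c : ℕ → Fin m} {s gc : ℕ → ℕ} {w q₀ Q e e' X p p' gu : ℕ}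
    {A B : F.Ω → Prop} {G₀ : PtT F → ℕ → MvPolynomial (Option (Fin m)) ℝ}
    {G₂ Gu Cw : PtT F → MvPolynomial (Option (Fin m)) ℝ}
    {H₀ : LnT F → ℕ → MvPolynomial (Option (Fin m)) ℝ}
    {H₁ H₂ Hu CwL HN : LnT F → MvPolynomial (Option (Fin m)) ℝ} {z₀ z₁ : LnT F → Fin d → ℝ}
    {Pt : LnT F → Gr K d → Polynomial ℝ} {μ ν ν₁ : ℝ},
    Set.InjOn c (Set.Iio (d + 1)) →
    EN F c s gc d Dc w q₀ Q e X A G₀ G₂ H₀ H₁ H₂ z₀ z₁ → Sub B A →
    Lab F c d Dc (w + Q) w e gu gc (Gf F c G₀) A Gu Hu →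
    (∀ ω, A ω → Gu (ptr F J ω) = Hu (slam F w ω)) →
    (∀ y, (Cw y).totalDegree ≤ D₁) → (∀ y, DepC c (d + 1) (Cw y)) →
    (∀ L, (CwL L).totalDegree ≤ D₁) → (∀ L, DepC c (d + 1) (CwL L)) →
    (∀ ω, A ω → Cw (ptr F J ω) = CwL (slam F w ω)) →
    (∀ L, (HN L).totalDegree ≤ D₁) → (∀ L, DepC c (d + 1) (HN L)) →
    (∀ ω, A ω → |F.x ω (c (d + 1)) - eval (bt F ω) (adW Cw G₂ (ptr F J ω))| ≤
      1 / 2 ^ p) →
    (∀ ω, A ω → ∀ b, NBx c (fun j => if j < d then Gf F c G₀ (ptr F J ω) j else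
        Gu (ptr F J ω)) (fun j => if j < d then gc j else gu) (w + Q) (F.t ω) (d + 1) b →
      |eval b (adW CwL H₁ (slam F w ω)) - eval b (HN (slam F w ω))| ≤ ν₁ / 2 ^ s d) →
    (∀ ω, A ω → ∀ b, NBx c (fun j => if j < d then Gf F c G₀ (ptr F J ω) j else
        Gu (ptr F J ω)) (fun j => if j < d then gc j else gu) (w + Q) (F.t ω) (d + 1) b →
      ∀ l < d + 1, |eval b (pderiv (some (c l)) (HN (slam F w ω)))| ≤
        2 ^ (e + nlp (fun j => if j < d + 1 then (fun j => if j < d then gc j else gu) j else p)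
          l (d + 1))) →
    (∀ L β, (Pt L β).natDegree ≤ D) →
    (∀ ω, B ω → ∀ β, ∀ j ≤ max K D,
      |(Rt F c s K d w q₀ Q H₀ H₁ H₂ z₀ z₁ Pt β (slam F (w + Q) ω)).coeff j| ≤ μ) →
    (∀ ω, B ω → ∀ β, ∀ j ≤ max K D, |(Pt (slam F w ω) β).coeff j| ≤ ν) → 0 ≤ μ → 0 ≤ ν →
    0 ≤ ν₁ → p' ≤ p → e + 1 ≤ e' → C * 2 ^ (X * K * d) * μ * 2 ^ p' ≤ 2 ^ s d →
    C * (2 ^ (X * K * d) * (μ + ν) + ν₁) * 2 ^ (e + p') ≤ 2 ^ e' * 2 ^ s d →
    ChOK F c (d + 1) (fun _ => Dc) (w + Q + 1) w e' (fun j => if j < d then gc j else gu) B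
      (fun y j => if j < d then Gf F c G₀ y j else Gu y)
      (fun L j => if j < d then Hf F c H₀ (co q₀ L) j else Hu L) ∧
    Lab F c (d + 1) (D₁ + d * (K * Dc) + D) (w + Q + 1) w e' p'
      (fun j => if j < d then gc j else gu)
      (fun y j => if j < d then Gf F c G₀ y j else Gu y) B (adW Cw G₂)
      (adW CwL (Ht F c s K d w q₀ Q H₀ H₁ z₀ z₁ Pt)) := by
  obtain ⟨C₀, hC₀, hlg⟩ := lab_gen (d + 1) Dc D₁ (Nat.succ_le_succ (Nat.zero_le d))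
  obtain ⟨C, hC⟩ : ∃ C : ℝ, C = 2 * C₀ * cE K d D := ⟨_, rfl⟩
  have hcE := one_le_cE K d D
  have hC1 : cE K d D ≤ C := by
    rw [hC]
    nlinarith
  refine ⟨C, hcE.trans hC1, ?_⟩
  intro m J F c s gc w q₀ Q e e' X p p' gu A B G₀ G₂ Gu Cw H₀ H₁ H₂ Hu CwL HN z₀ z₁ Pt μ ν ν₁ hc h
    hB hU clu dC pC dCL pCL clC dN pN hpos hnr hgrd hPt hμ hν hμ0 hν0 hν10 hp he h1 h2
  have hDc := h.Dc1
  have hX0 : (0 : ℝ) < 2 ^ (X * K * d) := by positivity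
  have hch := chok_snoc (fun _ => le_rfl) h.chn hU
  refine ⟨chok_rad hch hB (by omega), ?_⟩
  replace hch : ChOK F c (d + 1) (fun _ => Dc) (w + Q) w e (fun j => if j < d then gc j else gu) B
      (fun y j => if j < d then Gf F c G₀ y j else Gu y)
      (fun L j => if j < d then Hf F c H₀ (co q₀ L) j else Hu L) :=
    ⟨hch.degG, hch.degH, hch.depG, hch.depH, fun ω hω => hch.pos ω (hB ω hω),
      fun ω hω => hch.agr ω (hB ω hω), fun ω hω => hch.lip ω (hB ω hω)⟩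
  -- the box
  have bx : ∀ {ω : F.Ω} {b : Option (Fin m) → ℝ}, NBx c (fun j => if j < d then
      Gf F c G₀ (ptr F J ω) j else Gu (ptr F J ω)) (fun j => if j < d then gc j else gu) (w + Q)
      (F.t ω) (d + 1) b → NBx c (Gf F c G₀ (ptr F J ω)) gc (w + Q) (F.t ω) d b := by
    intro ω b hb
    refine ⟨hb.1, fun j hj => ?_⟩
    have h1 := hb.2 j (by omega)
    simp only [if_pos hj] at h1
    exact h1
  have hdT : ∀ L, (Ht F c s K d w q₀ Q H₀ H₁ z₀ z₁ Pt L).totalDegree ≤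
      D₁ + d * (K * Dc) + D := fun L =>
    (deg_enH h.Dc1 (deg_trn (h.dH₀ _)) (h.dH₁ L) _ _ _ (hPt L)).trans (by omega)
  have hpT : ∀ L, DepC c d (Ht F c s K d w q₀ Q H₀ H₁ z₀ z₁ Pt L) := fun L =>
    dep_enH (dep_trn (h.pH₀ _)) (h.pH₁ L) _ _ _ _
  have hagr : ∀ ω, B ω → ∀ b, NBx c (fun j => if j < d then
      Gf F c G₀ (ptr F J ω) j else Gu (ptr F J ω)) (fun j => if j < d then gc j else gu) (w + Q)
      (F.t ω) (d + 1) b → |eval b (adW Cw G₂ (ptr F J ω)) -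
        eval b (adW CwL (Ht F c s K d w q₀ Q H₀ H₁ z₀ z₁ Pt) (slam F w ω))| ≤
        cE K d D * 2 ^ (X * K * d) * μ / 2 ^ s d := by
    intro ω hω b hb
    have e1 : eval b (adW Cw G₂ (ptr F J ω)) -
        eval b (adW CwL (Ht F c s K d w q₀ Q H₀ H₁ z₀ z₁ Pt) (slam F w ω)) =
        eval b (G₂ (ptr F J ω)) - eval b (Ht F c s K d w q₀ Q H₀ H₁ z₀ z₁ Pt (slam F w ω)) := by
      rw [eval_adW, eval_adW, clC ω (hB ω hω)]
      ring
    rw [e1]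
    exact h.agr hK hDK hPt (hB ω hω) (hμ ω hω) (bx hb)
  have hnear : ∀ ω, B ω → ∀ b, NBx c (fun j => if j < d then
      Gf F c G₀ (ptr F J ω) j else Gu (ptr F J ω)) (fun j => if j < d then gc j else gu) (w + Q)
      (F.t ω) (d + 1) b → |eval b (adW Cw G₂ (ptr F J ω)) - eval b (HN (slam F w ω))| ≤
        (cE K d D * 2 ^ (X * K * d) * (μ + ν) + ν₁) / 2 ^ s d := by
    intro ω hω b hb
    have a1 := hagr ω hω b hb
    have a2 := h.near hPt (hB ω hω) (hν ω hω) (bx hb)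
    have a3 := hnr ω (hB ω hω) b hb
    have e1 : eval b (adW Cw G₂ (ptr F J ω)) - eval b (HN (slam F w ω)) =
        (eval b (adW Cw G₂ (ptr F J ω)) -
          eval b (adW CwL (Ht F c s K d w q₀ Q H₀ H₁ z₀ z₁ Pt) (slam F w ω))) +
        (eval b (Ht F c s K d w q₀ Q H₀ H₁ z₀ z₁ Pt (slam F w ω)) -
          eval b (H₁ (slam F w ω))) +
        (eval b (adW CwL H₁ (slam F w ω)) - eval b (HN (slam F w ω))) := by
      rw [eval_adW (G₂ := Ht F c s K d w q₀ Q H₀ H₁ z₀ z₁ Pt), eval_adW (G₂ := H₁)]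
      ring
    rw [e1]
    refine (abs_add_le _ _).trans ((add_le_add ((abs_add_le _ _).trans (add_le_add a1 a2))
      a3).trans (le_of_eq ?_))
    ring
  have hM0 : 0 ≤ (cE K d D * 2 ^ (X * K * d) * (μ + ν) + ν₁) / 2 ^ s d := by positivity
  refine hlg hc hch (fun y => deg_adW dC (fun y => (h.dG₂ y).trans hD₁) y)
    (fun y => dep_adW pC h.pG₂ y) dN pN
    (fun L => deg_adW (fun L => (dCL L).trans (by omega)) hdT L)
    (fun L => dep_adW pCL hpT L) (by omega) (fun ω hω => hpos ω (hB ω hω)) hagr hnear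
    (fun ω hω b hb l hl => hgrd ω (hB ω hω) b hb l hl) hM0 hp he ?_ ?_
  · rw [div_le_div_iff₀ (by positivity) (by positivity), one_mul]
    refine le_trans ?_ h1
    exact mul_le_mul_of_nonneg_right (mul_le_mul_of_nonneg_right
      (mul_le_mul_of_nonneg_right hC1 hX0.le) hμ0) (by positivity)
  · have e1 : 2 * C₀ * ((cE K d D * 2 ^ (X * K * d) * (μ + ν) + ν₁) / 2 ^ s d) * 2 ^ (e + p') =
        2 * C₀ * (cE K d D * 2 ^ (X * K * d) * (μ + ν) + ν₁) * 2 ^ (e + p') / 2 ^ s d := by ring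
    rw [e1, div_le_iff₀ (by positivity)]
    refine le_trans ?_ h2
    refine mul_le_mul_of_nonneg_right ?_ (by positivity)
    rw [hC]
    have e2 : 2 * C₀ * cE K d D * (2 ^ (X * K * d) * (μ + ν) + ν₁) =
        2 * C₀ * (cE K d D * 2 ^ (X * K * d) * (μ + ν) + cE K d D * ν₁) := by ring
    rw [e2]
    refine mul_le_mul_of_nonneg_left ?_ (by positivity)
    have : ν₁ ≤ cE K d D * ν₁ := le_mul_of_one_le_left hν10 hcE
    linarith

/-- **The end over `V0` and `u`.** From tube labels for the number `N - P (p, u)`, of the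
precision of the balls, to a label of `N` over the chain `V0`, `u`. -/
theorem end_w (d Dc D₁ K D : ℕ) (hD₁ : Dc ≤ D₁) (hK : 1 ≤ K) (hDK : Dc * (Dc + 1) ^ d ≤ K) {ε : ℝ} (hε : 0 < ε) :
    ∃ C₀ : ℕ, ∃ δ : ℝ, 0 < δ ∧ δ ≤ ε ∧ ∃ Q₀ : ℕ, ∀ {m J : ℕ} {F : Fam m J}
    {c : ℕ → Fin m} {s gc : ℕ → ℕ} {w q₀ Q e e' X p p' gu x₁ MB : ℕ} {A : F.Ω → Prop}
    {G₀ : PtT F → ℕ → MvPolynomial (Option (Fin m)) ℝ}
    {G₂ Gu Cw : PtT F → MvPolynomial (Option (Fin m)) ℝ}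
    {H₀ : LnT F → ℕ → MvPolynomial (Option (Fin m)) ℝ}
    {H₁ H₂ Hu CwL HN : LnT F → MvPolynomial (Option (Fin m)) ℝ} {z₀ z₁ : LnT F → Fin d → ℝ}
    {ζ : Type} {Z : F.Ω → ζ} {Pf : ζ → MvPolynomial (Fin d) ℝ} {s' k : F.Ω → Fin d → ℝ}
    {ξ : LnT F → Fin d → ℝ} {n : LnT F → Polynomial ℝ} {Pt : LnT F → Gr K d → Polynomial ℝ},
    Q₀ ≤ Q → Q ≤ MB → w + 2 * Q ≤ J → 0 < Pe F.p A → Set.InjOn c (Set.Iio (d + 1)) →
    EN F c s gc d Dc w q₀ Q e X A G₀ G₂ H₀ H₁ H₂ z₀ z₁ →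
    (∀ z, (Pf z).totalDegree ≤ K) →
    (∀ ω, A ω → 0 < F.p ω → ∀ β : Gr K d, |eval (nd K β) (Pf (Z ω))| ≤ 2 ^ (δ * Q)) →
    (∀ ω, A ω → 0 < F.p ω → ∀ i, |s' ω i| ≤ 1) →
    (∀ ω, A ω → 0 < F.p ω → Pf (Z ω) = C (2 ^ s d) * tub (F.t ω) (fun i => k ω i / 2 ^ Q)
      (1 / 2 ^ Q) (pull c s (frH F d q₀ H₀ (slam F w ω)) d
        (H₂ (slam F (w + Q) ω) - H₁ (slam F w ω)))) →
    (∀ ω, A ω → 0 < F.p ω → ∀ i, |k ω i + s' ω i -
      (z₀ (slam F w ω) i + z₁ (slam F w ω) i * rt F w ω)| ≤ 2 ^ (δ * Q) / 2 ^ MB) →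
    ImC K d D Q MB (2 ^ (J - w)) δ (Pool.Agent.H49.Ent.cond F.p A True) (slam F w) (twF F w) Z Pf
      s' ξ n Pt →
    (J : ℝ) * Real.log 2 - δ * Q ≤ CH (Pool.Agent.H49.Ent.cond F.p A True) F.T
      (fun ω => (F.l ω, F.Z ω)) →
    Lab F c d Dc (w + Q) w e gu gc (Gf F c G₀) A Gu Hu →
    (∀ ω, A ω → Gu (ptr F J ω) = Hu (slam F w ω)) →
    (∀ y, (Cw y).totalDegree ≤ D₁) → (∀ y, DepC c (d + 1) (Cw y)) →
    (∀ L, (CwL L).totalDegree ≤ D₁) → (∀ L, DepC c (d + 1) (CwL L)) →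
    (∀ ω, A ω → Cw (ptr F J ω) = CwL (slam F w ω)) →
    (∀ L, (HN L).totalDegree ≤ D₁) → (∀ L, DepC c (d + 1) (HN L)) →
    (∀ ω, A ω → |F.x ω (c (d + 1)) - eval (bt F ω) (adW Cw G₂ (ptr F J ω))| ≤
      1 / 2 ^ p) →
    (∀ ω, A ω → ∀ b, NBx c (fun j => if j < d then Gf F c G₀ (ptr F J ω) j else
        Gu (ptr F J ω)) (fun j => if j < d then gc j else gu) (w + Q) (F.t ω) (d + 1) b →
      |eval b (adW CwL H₁ (slam F w ω)) - eval b (HN (slam F w ω))| ≤ 2 ^ x₁ / 2 ^ s d) →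
    (∀ ω, A ω → ∀ b, NBx c (fun j => if j < d then Gf F c G₀ (ptr F J ω) j else
        Gu (ptr F J ω)) (fun j => if j < d then gc j else gu) (w + Q) (F.t ω) (d + 1) b →
      ∀ l < d + 1, |eval b (pderiv (some (c l)) (HN (slam F w ω)))| ≤
        2 ^ (e + nlp (fun j => if j < d + 1 then (fun j => if j < d then gc j else gu) j else p)
          l (d + 1))) →
    p' ≤ p → e + 1 ≤ e' → (p' : ℝ) + (X * K * d + C₀ : ℕ) + ε * Q ≤ s d + MB →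
    (e : ℝ) + p' + (X * K * d + C₀ + x₁ : ℕ) + ε * Q ≤ e' + s d →
    ∃ B : F.Ω → Prop, Sub B A ∧ Pe F.p A ≤ 2 * Pe F.p B ∧
      ChOK F c (d + 1) (fun _ => Dc) (w + Q + 1) w e' (fun j => if j < d then gc j else gu) B
        (fun y j => if j < d then Gf F c G₀ y j else Gu y)
        (fun L j => if j < d then Hf F c H₀ (co q₀ L) j else Hu L) ∧
      Lab F c (d + 1) (D₁ + d * (K * Dc) + D) (w + Q + 1) w e' p'
        (fun j => if j < d then gc j else gu)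
        (fun y j => if j < d then Gf F c G₀ y j else Gu y) B (adW Cw G₂)
        (adW CwL (Ht F c s K d w q₀ Q H₀ H₁ z₀ z₁ Pt)) := by
  obtain ⟨C₁, hC₁, hlab⟩ := en_labW d Dc D₁ K D hD₁ hK hDK
  obtain ⟨δ, hδ0, hδε, Q₀, hcoef⟩ := en_coefN d Dc K D hK hDK hε
  obtain ⟨C₂, hC₂⟩ := pow_unbounded_of_one_lt (3 * C₁) (show (1 : ℝ) < 2 by norm_num)
  refine ⟨C₂, δ, hδ0, hδε, Q₀, ?_⟩
  intro m J F c s gc w q₀ Q e e' X p p' gu x₁ MB A G₀ G₂ Gu Cw H₀ H₁ H₂ Hu CwL HN z₀ z₁ ζ Z Pf s' k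
    ξ n Pt hQ hMB hwJ2 hA hc h hdgf hbdf hs1 hPf hks hIm htf hU clu dC pC dCL pCL clC dN pN hpos hnr
    hgrd hp he h1 h2
  obtain ⟨B, b1, b2, b3, b4⟩ := hcoef hQ hMB hwJ2 hA h hdgf hbdf hs1 hPf hks hIm htf
  obtain ⟨μ, hμ⟩ : ∃ μ : ℝ, μ = 2 ^ (ε * Q) / 2 ^ MB := ⟨_, rfl⟩
  obtain ⟨ν, hν⟩ : ∃ ν : ℝ, ν = 2 ^ (ε * Q) := ⟨_, rfl⟩
  have hν0 : 0 < ν := by rw [hν]; positivity
  have hν1 : 1 ≤ ν := by
    rw [hν]
    exact Real.one_le_rpow (by norm_num) (by positivity)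
  have hμ0 : 0 < μ := by rw [hμ]; positivity
  have hμν : μ ≤ ν := by
    rw [hμ, hν]
    exact div_le_self (by positivity) (one_le_pow₀ (by norm_num))
  have key1 : C₁ * 2 ^ (X * K * d) * μ * 2 ^ p' ≤ 2 ^ s d := by
    have e1 : C₁ * 2 ^ (X * K * d) * μ * 2 ^ p' ≤
        2 ^ C₂ * 2 ^ (X * K * d) * μ * 2 ^ p' := by
      have : C₁ ≤ 2 ^ C₂ := by linarith
      exact mul_le_mul_of_nonneg_right (mul_le_mul_of_nonneg_right
        (mul_le_mul_of_nonneg_right this (by positivity)) hμ0.le) (by positivity)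
    refine e1.trans ?_
    have e2 : (2 : ℝ) ^ C₂ * 2 ^ (X * K * d) * μ * 2 ^ p' =
        2 ^ (((p' : ℝ) + (X * K * d + C₂ : ℕ) + ε * Q) - MB) := by
      rw [Real.rpow_sub (by norm_num), Real.rpow_add (by norm_num), Real.rpow_add (by norm_num),
        Real.rpow_natCast, Real.rpow_natCast, Real.rpow_natCast, hμ, pow_add]
      ring
    rw [e2, ← Real.rpow_natCast 2 (s d)]
    exact Real.rpow_le_rpow_of_exponent_le (by norm_num) (by linarith)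
  have key2 : C₁ * (2 ^ (X * K * d) * (μ + ν) + 2 ^ x₁) * 2 ^ (e + p') ≤ 2 ^ e' * 2 ^ s d := by
    have e1 : C₁ * (2 ^ (X * K * d) * (μ + ν) + 2 ^ x₁) * 2 ^ (e + p') ≤
        2 ^ C₂ * 2 ^ (X * K * d) * 2 ^ x₁ * ν * 2 ^ (e + p') := by
      refine mul_le_mul_of_nonneg_right ?_ (by positivity)
      have a1 : (1 : ℝ) ≤ 2 ^ x₁ := one_le_pow₀ (by norm_num)
      have a2 : (1 : ℝ) ≤ 2 ^ (X * K * d) := one_le_pow₀ (by norm_num)
      have a3 : (2 : ℝ) ^ (X * K * d) * (μ + ν) ≤ 2 * (2 ^ (X * K * d) * 2 ^ x₁ * ν) := by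
        have a4 : μ + ν ≤ 2 * (2 ^ x₁ * ν) := by nlinarith
        calc (2 : ℝ) ^ (X * K * d) * (μ + ν) ≤ 2 ^ (X * K * d) * (2 * (2 ^ x₁ * ν)) :=
              mul_le_mul_of_nonneg_left a4 (by positivity)
          _ = _ := by ring
      have a5 : (2 : ℝ) ^ x₁ ≤ 2 ^ (X * K * d) * 2 ^ x₁ * ν := by
        have a6 : (2 : ℝ) ^ x₁ * 1 ≤ 2 ^ x₁ * (2 ^ (X * K * d) * ν) :=
          mul_le_mul_of_nonneg_left (one_le_mul_of_one_le_of_one_le a2 hν1) (by positivity)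
        calc (2 : ℝ) ^ x₁ = 2 ^ x₁ * 1 := (mul_one _).symm
          _ ≤ _ := a6
          _ = _ := by ring
      have a7 : (0 : ℝ) < 2 ^ (X * K * d) * 2 ^ x₁ * ν := by positivity
      calc C₁ * (2 ^ (X * K * d) * (μ + ν) + 2 ^ x₁) ≤
            C₁ * (3 * (2 ^ (X * K * d) * 2 ^ x₁ * ν)) :=
              mul_le_mul_of_nonneg_left (by linarith) (by linarith)
        _ = 3 * C₁ * (2 ^ (X * K * d) * 2 ^ x₁ * ν) := by ring
        _ ≤ 2 ^ C₂ * (2 ^ (X * K * d) * 2 ^ x₁ * ν) :=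
              mul_le_mul_of_nonneg_right hC₂.le a7.le
        _ = _ := by ring
    refine e1.trans ?_
    have e2 : (2 : ℝ) ^ C₂ * 2 ^ (X * K * d) * 2 ^ x₁ * ν * 2 ^ (e + p') =
        2 ^ ((e : ℝ) + p' + (X * K * d + C₂ + x₁ : ℕ) + ε * Q) := by
      rw [Real.rpow_add (by norm_num), Real.rpow_add (by norm_num), Real.rpow_add (by norm_num),
        Real.rpow_natCast, Real.rpow_natCast, Real.rpow_natCast, hν, pow_add, pow_add, pow_add]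
      ring
    have e3 : (2 : ℝ) ^ e' * 2 ^ s d = 2 ^ ((e' : ℝ) + s d) := by
      rw [Real.rpow_add (by norm_num), Real.rpow_natCast, Real.rpow_natCast]
    rw [e2, e3]
    exact Real.rpow_le_rpow_of_exponent_le (by norm_num) h2
  obtain ⟨k1, k2⟩ := hlab hc h b1 hU clu dC pC dCL pCL clC dN pN hpos hnr hgrd hIm.deg
    (by rw [hμ]; exact b3) (by rw [hν]; exact b4) hμ0.le hν0.le (by positivity) hp he key1 key2
  exact ⟨B, b1, b2, k1, k2⟩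

end Pool.END18
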