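import Pool.Agent.H43.GN.Span
import Pool.Agent.H92.D2.Cpg

/-!
# A popular choice, and conditional copies

`pop_test`: `A` depends little on `F` given `C`, and the pair `(F, A)` has a property with probability
at least `η`. Then there is a function `φ` of the context `C` such that `(φ C, A)` has the property
with probability at least `η / 2 * exp (-(2 / η) * (κ + log 2))`.

`pop_cop`: the same for `N` conditional copies of `E` given `Z`: `Z` has a property together with the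
copies; then it has this property together with functions of a record `r` of `Z`, if `E` is free:
`CH E r ≤ CH E Z + κ`.
-/

set_option autoImplicit false

namespace Pool.POP18

open Finset Real
open Pool.Agent.H49.Ent Pool.Agent.H32.Dense Pool.STK Pool.K2S Pool.SPN Pool.D2A Pool.D2Con
open Pool.BFL (Pb)

variable {Ω S Γ Φ : Type} [Fintype Ω]

/-- A condition with one more bit. -/
theorem CH_bit {p : Ω → ℝ} (hp : IsLaw p) (A : Ω → S) (C : Ω → Γ) (E : Ω → Prop) :
    CH p A C ≤ CH p A (fun ω => (E ω, C ω)) + Real.log 2 := by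
  classical
  have h0 := hp.nonneg
  have h1 := CH_le_add h0 A E C
  have h2 : CH p E C ≤ Real.log 2 := by
    have := CH_le_card h0 hp.sum_one E C (fun _ => {True, False}) (fun ω _ => by
      by_cases h : E ω
      · simp [h]
      · simp [h])
    refine this.trans (le_of_eq ?_)
    rw [Ex_const hp.sum_one]
    congr 1
    have : ({True, False} : Finset Prop).card = 2 := by
      rw [Finset.card_insert_of_notMem, Finset.card_singleton]
      simp
    rw [this]
    norm_num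
  linarith

/-- **A popular choice.** -/
theorem pop_test [Nonempty Φ] {p : Ω → ℝ} (hp : IsLaw p) (A : Ω → S) (C : Ω → Γ) (F : Ω → Φ)
    (B : Φ → S → Prop) {κ η : ℝ} (hκ0 : 0 ≤ κ)
    (hκ : CH p A C ≤ CH p A (fun ω => (F ω, C ω)) + κ) (hη : 0 < η)
    (hPE : η ≤ Pe p (fun ω => B (F ω) (A ω))) :
    ∃ φ : Γ → Φ, η / 2 * Real.exp (-(2 / η * (κ + Real.log 2))) ≤
      Pe p (fun ω => B (φ (C ω)) (A ω)) := by
  classical
  have hp0 := hp.nonneg
  -- a finite family
  obtain ⟨Φ', hΦ'⟩ : ∃ Φ' : Type, Φ' = {f : Φ // ∃ ω, F ω = f} := ⟨_, rfl⟩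
  have hne : Nonempty Ω := by
    by_contra hcon
    rw [not_nonempty_iff] at hcon
    have := hp.sum_one
    rw [Finset.univ_eq_empty, Finset.sum_empty] at this
    norm_num at this
  have : Finite {f : Φ // ∃ ω, F ω = f} := by
    refine Finite.of_surjective (fun ω => (⟨F ω, ω, rfl⟩ : {f : Φ // ∃ ω, F ω = f})) ?_
    rintro ⟨f, ω, rfl⟩
    exact ⟨ω, rfl⟩
  have : Nonempty {f : Φ // ∃ ω, F ω = f} := ⟨⟨F hne.some, hne.some, rfl⟩⟩
  obtain ⟨B', hB'⟩ : ∃ B' : {f : Φ // ∃ ω, F ω = f} → S → Prop, B' = fun f s => B f.1 s :=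
    ⟨_, rfl⟩
  obtain ⟨F', hF'⟩ : ∃ F' : Ω → Option {f : Φ // ∃ ω, F ω = f},
    F' = fun ω => if B (F ω) (A ω) then some ⟨F ω, ω, rfl⟩ else none := ⟨_, rfl⟩
  have hFB : ∀ ω, tst B' (F' ω) (A ω) := by
    intro ω f hf
    rw [hF'] at hf
    simp only at hf
    split_ifs at hf with h
    rw [← Option.some.inj hf, hB']
    exact h
  have g1 := gibbs_set hp A C F' (tst B') (fun ω _ => hFB ω)
  have hdep : CH p A (fun ω => (F ω, C ω)) ≤ CH p A (fun ω => (F' ω, C ω)) + Real.log 2 := by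
    have h1 := CH_bit hp A (fun ω => (F ω, C ω)) (fun ω => B (F ω) (A ω))
    have h2 : CH p A (fun ω => (B (F ω) (A ω), (F ω, C ω))) ≤ CH p A (fun ω => (F' ω, C ω)) := by
      refine CH_mono_cond hp0 fun ω ω' _ _ h => ?_
      simp only [Prod.mk.injEq] at h ⊢
      refine ⟨?_, h.2.2⟩
      rw [hF']
      simp only
      have e1 : B (F ω) (A ω) ↔ B (F ω') (A ω') := by rw [h.1]
      by_cases hb : B (F ω) (A ω)
      · rw [if_pos hb, if_pos (e1.1 hb)]
        congr 1
        exact Subtype.ext h.2.1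
      · rw [if_neg hb, if_neg (fun h' => hb (e1.2 h'))]
    linarith
  set δ : ℝ := κ + Real.log 2 with hδ
  have hl2 : 0 < Real.log 2 := Real.log_pos (by norm_num)
  have hδ0 : 0 < δ := by linarith
  have g2 : Ex p (fun ω => -Real.log (ms p A C (tst B') (F' ω) (C ω))) ≤ δ := by linarith
  set m : Γ → ℝ := fun γ => ms p A C B' (bst p A C B' γ) γ with hm
  have hm1 : ∀ γ, m γ ≤ 1 := fun γ => ms_le_one hp0 A C B' _ γ
  have hm0 : ∀ γ, 0 ≤ m γ := fun γ => ms_nonneg hp0 A C B' _ γ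
  have hpos' : ∀ ω, 0 < p ω → B (F ω) (A ω) → 0 < ms p A C B' ⟨F ω, ω, rfl⟩ (C ω) := by
    intro ω hω hb
    refine div_pos ?_ (law_pos hp0 C hω)
    refine lt_of_lt_of_le hω ?_
    have h := le_law hp0 (fun w' => (B' ⟨F ω, ω, rfl⟩ (A w'), C w')) ω
    have hb' : B' ⟨F ω, ω, rfl⟩ (A ω) := by
      rw [hB']
      exact hb
    rwa [eq_true hb'] at h
  have hlow : ∀ ω, 0 < p ω → (if B (F ω) (A ω) then -Real.log (m (C ω)) else 0) ≤
      -Real.log (ms p A C (tst B') (F' ω) (C ω)) := by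
    intro ω hω
    by_cases he : B (F ω) (A ω)
    · rw [if_pos he]
      have hf : F' ω = some ⟨F ω, ω, rfl⟩ := by
        rw [hF']
        exact if_pos he
      rw [hf, ms_tst]
      have h1 := le_bst p A C B' (C ω) ⟨F ω, ω, rfl⟩
      have := Real.log_le_log (hpos' ω hω he) h1
      linarith
    · rw [if_neg he]
      have h1 := ms_le_one hp0 A C (tst B') (F' ω) (C ω)
      have h0 := ms_nonneg hp0 A C (tst B') (F' ω) (C ω)
      have := Real.log_nonpos h0 h1
      linarith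
  have g3 : Ex p (fun ω => if B (F ω) (A ω) then -Real.log (m (C ω)) else 0) ≤ δ :=
    (Ex_mono hp0 hlow).trans g2
  set a : ℝ := 2 / η * δ with ha
  have ha0 : 0 < a := by positivity
  have g4 : a * Pe p (fun ω => B (F ω) (A ω)) ≤
      δ + a * Pe p (fun ω => Real.exp (-a) ≤ m (C ω)) := by
    rw [Pe_Ex, Pe_Ex, ← Ex_smul, ← Ex_smul]
    refine le_trans ?_ (add_le_add_left g3 _)
    rw [← Ex_add]
    refine Ex_mono hp0 fun ω hω => ?_
    by_cases he : B (F ω) (A ω)
    · rw [if_pos he, if_pos he]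
      by_cases hg : Real.exp (-a) ≤ m (C ω)
      · rw [if_pos hg]
        have := Real.log_nonpos (hm0 (C ω)) (hm1 (C ω))
        linarith
      · rw [if_neg hg]
        push Not at hg
        have h1 : 0 < m (C ω) :=
          lt_of_lt_of_le (hpos' ω hω he) (le_bst p A C B' (C ω) ⟨F ω, ω, rfl⟩)
        have h2 := Real.log_lt_log h1 hg
        rw [Real.log_exp] at h2
        linarith
    · rw [if_neg he, if_neg he]
      split_ifs
      · linarith
      · linarith
  have g5 : η / 2 ≤ Pe p (fun ω => Real.exp (-a) ≤ m (C ω)) := by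
    have h1 : a * (η / 2) = δ := by
      rw [ha]
      field_simp
    have h2 : a * η ≤ a * Pe p (fun ω => B (F ω) (A ω)) := mul_le_mul_of_nonneg_left hPE ha0.le
    have h3 : a * (η / 2) ≤ a * Pe p (fun ω => Real.exp (-a) ≤ m (C ω)) := by
      have : a * η = 2 * (a * (η / 2)) := by ring
      linarith
    exact le_of_mul_le_mul_left h3 ha0
  refine ⟨fun γ => (bst p A C B' γ).1, ?_⟩
  have e5 := Pe_test hp0 A C B' (bst p A C B')
  rw [hB'] at e5
  rw [← hB'] at e5
  have e6 : Pe p (fun ω => B (bst p A C B' (C ω)).1 (A ω)) =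
      Ex p (fun ω => ms p A C B' (bst p A C B' (C ω)) (C ω)) := by
    rw [← e5]
    rw [hB']
  rw [e6]
  have g7 : Real.exp (-a) * Pe p (fun ω => Real.exp (-a) ≤ m (C ω)) ≤ Ex p (fun ω => m (C ω)) := by
    rw [Pe_Ex, ← Ex_smul]
    refine Ex_mono hp0 fun ω _ => ?_
    split_ifs with h
    · rw [mul_one]
      exact h
    · rw [mul_zero]
      exact hm0 _
  refine le_trans ?_ g7
  rw [mul_comm]
  exact mul_le_mul_of_nonneg_left g5 (Real.exp_pos _).le

section cop

variable {ζ α ε : Type} {N : ℕ}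

/-- The law of a sample with `N` copies given `Z`. -/
noncomputable def CP (N : ℕ) (q : Ω → ℝ) (Z : Ω → ζ) : (Ω × Ω) × (Fin N → Ω × Ω) → ℝ :=
  PL q Z Z (fun _ : Fin N => true)

/-- The copy. -/
def cy (i : Fin N) (w : (Ω × Ω) × (Fin N → Ω × Ω)) : Ω := cp (fun _ : Fin N => true) i w

theorem CP_isLaw {q : Ω → ℝ} (hq : IsLaw q) (Z : Ω → ζ) : IsLaw (CP N q Z) := PL_isLaw hq Z Z _

theorem CP_pos {q : Ω → ℝ} (hq : IsLaw q) {Z : Ω → ζ} {w : (Ω × Ω) × (Fin N → Ω × Ω)}
    (hw : 0 < CP N q Z w) : 0 < q w.1.1 ∧ ∀ i, 0 < q (cy i w) ∧ Z (cy i w) = Z w.1.1 := by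
  obtain ⟨h1, -, -, h4⟩ := PL_pos hq Z Z _ hw
  refine ⟨h1, fun i => ⟨(h4 i).1, ?_⟩⟩
  exact (h4 i).2.symm

/-- **A popular choice of copies.** -/
theorem pop_cop {q : Ω → ℝ} (hq : IsLaw q) (Z : Ω → ζ) (r : Ω → α) (E : Ω → ε)
    (hZr : Det q Z r) {κ : ℝ} (hκ : 0 ≤ κ) (hfr : CH q E r ≤ CH q E Z + κ)
    (B : (Fin N → ε) → ζ → Prop) {η : ℝ} (hη : 0 < η)
    (hPE : η ≤ Pe (CP N q Z) (fun w => B (fun i => E (cy i w)) (Z w.1.1))) :
    ∃ φ : α → Fin N → ε, η / 2 * Real.exp (-(2 / η * (N * κ + Real.log 2))) ≤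
      Pe q (fun ω => B (φ (r ω)) (Z ω)) := by
  classical
  have hne : Nonempty Ω := by
    by_contra hcon
    rw [not_nonempty_iff] at hcon
    have := hq.sum_one
    rw [Finset.univ_eq_empty, Finset.sum_empty] at this
    norm_num at this
  have : Nonempty (Fin N → ε) := ⟨fun _ => E hne.some⟩
  have hQ := CP_isLaw (N := N) hq Z
  have h1 := pair_budget hq (S := Z) (z := r) (z' := Z) hZr hZr (fun _ : Fin N => true) E
    (fun _ : Ω => ()) hfr (ηH := 0) (le_of_eq (CH_eq_zero hq.nonneg (fun _ _ _ _ _ => rfl)))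
    (fun v => Z v.1) (fun _ => ())
  have e1 : CH (CP N q Z) (fun w => Z w.1.1) (fun w => r w.1.1) =
      CH (PL q Z Z (fun _ : Fin N => true)) (fun w => Z w.1.1) (fun w => ((), r w.1.1)) :=
    CH_congr hQ.nonneg (fun _ _ _ _ h => (Prod.ext_iff.mp h).1)
      (fun _ _ _ _ h => (Prod.ext_iff.mp h).1) (fun _ _ _ _ h => Prod.ext rfl h)
      (fun _ _ _ _ h => (Prod.ext_iff.mp h).2)
  have e2 : CH (PL q Z Z (fun _ : Fin N => true)) (fun w => Z w.1.1)
      (fun w => ((), ((fun i => (E (cp (fun _ : Fin N => true) i w), ())), r w.1.1))) ≤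
      CH (CP N q Z) (fun w => Z w.1.1) (fun w => ((fun i => E (cy i w)), r w.1.1)) := by
    refine CH_mono_cond hQ.nonneg fun w w' _ _ h => ?_
    simp only [Prod.mk.injEq, true_and] at h ⊢
    refine ⟨?_, h.2⟩
    funext i
    exact (Prod.ext_iff.mp (congrFun h.1 i)).1
  obtain ⟨φ, hφ⟩ := pop_test hQ (fun w => Z w.1.1) (fun w => r w.1.1) (fun w i => E (cy i w)) B
    (κ := N * κ) (by positivity) (by
      rw [e1]
      have h2 : (N : ℝ) * (κ + 0) = N * κ := by ring
      rw [h2] at h1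
      linarith [h1, e2]) hη hPE
  refine ⟨φ, hφ.trans (le_of_eq ?_)⟩
  exact (PL_fst hq Z Z (fun _ : Fin N => true)).law (fun ω => B (φ (r ω)) (Z ω)) True

end cop

end Pool.POP18
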